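import Mathlib
import Pool.Agent.Helper13.Om.Nice

set_option autoImplicit false

/-! A variance bound for sieve weights in short intervals. -/

namespace Pool.Agent.Helper32.CS

open Finset Helper13.Om

theorem cls2 (N m m' d e : ℕ) (hd : 0 < d) (he : 0 < e) :
    |(((Icc 1 N).filter (fun n => n ≡ m [MOD d] ∧ n ≡ m' [MOD e])).card : ℝ) -
      (if m ≡ m' [MOD d.gcd e] then (N : ℝ) / (d.lcm e : ℕ) else 0)| ≤ 1 := by
  by_cases h : m ≡ m' [MOD d.gcd e]
  · rw [if_pos h]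
    obtain ⟨k, hk1, hk2⟩ := Nat.chineseRemainder' h
    have hL : 0 < d.lcm e := Nat.lcm_pos hd he
    have h1 : (Icc 1 N).filter (fun n => n ≡ m [MOD d] ∧ n ≡ m' [MOD e]) =
        (Icc 1 N).filter (fun n => n ≡ k [MOD d.lcm e]) := by
      apply filter_congr
      intro n _
      constructor
      · rintro ⟨h1, h2⟩
        have h3 : n ≡ k [MOD d] := h1.trans hk1.symm
        have h4 : n ≡ k [MOD e] := h2.trans hk2.symm
        rw [Nat.modEq_iff_dvd] at h3 h4 ⊢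
        have h5 := Int.coe_lcm_dvd h3 h4
        simpa using h5
      · intro h1
        exact ⟨(h1.of_dvd (Nat.dvd_lcm_left d e)).trans hk1,
          (h1.of_dvd (Nat.dvd_lcm_right d e)).trans hk2⟩
    rw [h1]
    exact card_Icc_modEq N k (d.lcm e) hL
  · rw [if_neg h]
    have h1 : (Icc 1 N).filter (fun n => n ≡ m [MOD d] ∧ n ≡ m' [MOD e]) = ∅ := by
      rw [filter_eq_empty_iff]
      rintro n _ ⟨h1, h2⟩
      exact h ((h1.of_dvd (Nat.gcd_dvd_left d e)).symm.trans (h2.of_dvd (Nat.gcd_dvd_right d e)))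
    rw [h1]
    simp

/-- number of `m` in the block `(X, X + H]` congruent to `n` -/
noncomputable def cnt (X H d n : ℕ) : ℝ :=
  (((Ioc X (X + H)).filter (fun m => n ≡ m [MOD d])).card : ℝ)

theorem cnt_sub (X H d n : ℕ) (hd : 0 < d) : |cnt X H d n - (H : ℝ) / d| ≤ 1 := by
  have h := card_Icc_modEq H (n + (d - 1) * X) d hd
  have h1 : ((Ioc X (X + H)).filter (fun m => n ≡ m [MOD d])).card =
      ((Icc 1 H).filter (fun m => m ≡ n + (d - 1) * X [MOD d])).card := by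
    symm
    refine card_bij (fun m _ => X + m) ?_ ?_ ?_
    · intro m hm
      rw [mem_filter, mem_Icc] at hm
      rw [mem_filter, mem_Ioc]
      refine ⟨by omega, ?_⟩
      have h2 : X + m ≡ X + (n + (d - 1) * X) [MOD d] := Nat.ModEq.add_left X hm.2
      have h3 : X + (n + (d - 1) * X) = n + d * X := by
        obtain ⟨k, rfl⟩ : ∃ k, d = k + 1 := ⟨d - 1, by omega⟩
        simp only [Nat.add_sub_cancel]
        ring
      rw [h3] at h2
      have h4 : n + d * X ≡ n [MOD d] := by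
        have := Nat.ModEq.add_left n (Nat.modEq_zero_iff_dvd.2 (Dvd.intro X rfl) : d * X ≡ 0 [MOD d])
        simpa using this
      exact (h2.trans h4).symm
    · intro a _ b _ hab
      exact Nat.add_left_cancel hab
    · intro m hm
      rw [mem_filter, mem_Ioc] at hm
      refine ⟨m - X, ?_, by omega⟩
      rw [mem_filter, mem_Icc]
      refine ⟨by omega, ?_⟩
      have h3 : X + (n + (d - 1) * X) = n + d * X := by
        obtain ⟨k, rfl⟩ : ∃ k, d = k + 1 := ⟨d - 1, by omega⟩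
        simp only [Nat.add_sub_cancel]
        ring
      have h4 : n + d * X ≡ n [MOD d] := by
        have := Nat.ModEq.add_left n (Nat.modEq_zero_iff_dvd.2 (Dvd.intro X rfl) : d * X ≡ 0 [MOD d])
        simpa using this
      have h5 : X + (m - X) ≡ X + (n + (d - 1) * X) [MOD d] := by
        rw [h3, Nat.add_sub_cancel' hm.1.1.le]
        exact hm.2.symm.trans h4.symm
      exact Nat.ModEq.add_left_cancel' X h5
  unfold cnt
  rw [h1]
  exact h

theorem sum_cnt (X H d N : ℕ) (hd : 0 < d) :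
    |∑ n ∈ Icc 1 N, cnt X H d n - (N : ℝ) * H / d| ≤ H := by
  have h1 : ∑ n ∈ Icc 1 N, cnt X H d n =
      ∑ m ∈ Ioc X (X + H), (((Icc 1 N).filter (fun n => n ≡ m [MOD d])).card : ℝ) := by
    unfold cnt
    simp_rw [card_filter]
    push_cast
    rw [sum_comm]
  have h2 : (N : ℝ) * H / d = ∑ m ∈ Ioc X (X + H), (N : ℝ) / d := by
    rw [sum_const, Nat.card_Ioc, nsmul_eq_mul]
    push_cast [Nat.add_sub_cancel_left]
    ring
  rw [h1, h2, ← sum_sub_distrib]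
  refine (abs_sum_le_sum_abs _ _).trans ?_
  refine (sum_le_sum fun m _ => card_Icc_modEq N m d hd).trans ?_
  rw [sum_const, Nat.card_Ioc, nsmul_eq_mul, Nat.add_sub_cancel_left, mul_one]

theorem sum_cnt2 (X H d e N : ℕ) (hd : 0 < d) (he : 0 < e) :
    |∑ n ∈ Icc 1 N, cnt X H d n * cnt X H e n - (N : ℝ) * H ^ 2 / ((d : ℝ) * e)| ≤
      H ^ 2 + N * H / (d.lcm e : ℕ) := by
  have hL : 0 < d.lcm e := Nat.lcm_pos hd he
  have hg : 0 < d.gcd e := Nat.gcd_pos_of_pos_left _ hd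
  have hLR : (0 : ℝ) < (d.lcm e : ℕ) := by exact_mod_cast hL
  have hgR : (0 : ℝ) < (d.gcd e : ℕ) := by exact_mod_cast hg
  have h1 : ∑ n ∈ Icc 1 N, cnt X H d n * cnt X H e n =
      ∑ m ∈ Ioc X (X + H), ∑ m' ∈ Ioc X (X + H),
        (((Icc 1 N).filter (fun n => n ≡ m [MOD d] ∧ n ≡ m' [MOD e])).card : ℝ) := by
    unfold cnt
    simp_rw [card_filter]
    push_cast
    simp_rw [sum_mul_sum]
    rw [sum_comm]
    refine sum_congr rfl fun m _ => ?_
    rw [sum_comm]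
    refine sum_congr rfl fun m' _ => ?_
    refine sum_congr rfl fun n _ => ?_
    by_cases h : n ≡ m [MOD d] <;> by_cases h' : n ≡ m' [MOD e] <;> simp [h, h']
  have h2 : ∑ m ∈ Ioc X (X + H), ∑ m' ∈ Ioc X (X + H),
      (if m ≡ m' [MOD d.gcd e] then (N : ℝ) / (d.lcm e : ℕ) else 0) =
      (N : ℝ) / (d.lcm e : ℕ) * ∑ m ∈ Ioc X (X + H), cnt X H (d.gcd e) m := by
    unfold cnt
    simp_rw [card_filter]
    push_cast
    simp_rw [mul_sum]
    refine sum_congr rfl fun m _ => sum_congr rfl fun m' _ => ?_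
    split_ifs <;> simp
  have h3 : |∑ m ∈ Ioc X (X + H), cnt X H (d.gcd e) m - (H : ℝ) ^ 2 / (d.gcd e : ℕ)| ≤ H := by
    have e1 : (H : ℝ) ^ 2 / (d.gcd e : ℕ) = ∑ m ∈ Ioc X (X + H), (H : ℝ) / (d.gcd e : ℕ) := by
      rw [sum_const, Nat.card_Ioc, nsmul_eq_mul, Nat.add_sub_cancel_left]
      ring
    rw [e1, ← sum_sub_distrib]
    refine (abs_sum_le_sum_abs _ _).trans ?_
    refine (sum_le_sum fun m _ => cnt_sub X H (d.gcd e) m hg).trans ?_
    rw [sum_const, Nat.card_Ioc, nsmul_eq_mul, Nat.add_sub_cancel_left, mul_one]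
  have h4 : |∑ n ∈ Icc 1 N, cnt X H d n * cnt X H e n -
      (N : ℝ) / (d.lcm e : ℕ) * ∑ m ∈ Ioc X (X + H), cnt X H (d.gcd e) m| ≤ H ^ 2 := by
    rw [h1, ← h2, ← sum_sub_distrib]
    refine (abs_sum_le_sum_abs _ _).trans ?_
    refine (sum_le_sum fun m _ => ?_).trans (b := ∑ m ∈ Ioc X (X + H), (H : ℝ)) ?_
    · rw [← sum_sub_distrib]
      refine (abs_sum_le_sum_abs _ _).trans ?_
      refine (sum_le_sum fun m' _ => cls2 N m m' d e hd he).trans ?_
      rw [sum_const, Nat.card_Ioc, nsmul_eq_mul, Nat.add_sub_cancel_left, mul_one]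
    · rw [sum_const, Nat.card_Ioc, nsmul_eq_mul, Nat.add_sub_cancel_left, sq]
  have h5 : (N : ℝ) * H ^ 2 / ((d : ℝ) * e) =
      (N : ℝ) / (d.lcm e : ℕ) * ((H : ℝ) ^ 2 / (d.gcd e : ℕ)) := by
    have h6 : ((d : ℝ) * e) = (d.gcd e : ℕ) * (d.lcm e : ℕ) := by
      exact_mod_cast (Nat.gcd_mul_lcm d e).symm
    rw [h6]
    field_simp
  rw [h5]
  have h6 : |(N : ℝ) / (d.lcm e : ℕ) * ∑ m ∈ Ioc X (X + H), cnt X H (d.gcd e) m -
      (N : ℝ) / (d.lcm e : ℕ) * ((H : ℝ) ^ 2 / (d.gcd e : ℕ))| ≤ N * H / (d.lcm e : ℕ) := by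
    rw [← mul_sub, abs_mul, abs_of_nonneg (by positivity)]
    calc (N : ℝ) / (d.lcm e : ℕ) * _ ≤ (N : ℝ) / (d.lcm e : ℕ) * H :=
          mul_le_mul_of_nonneg_left h3 (by positivity)
      _ = _ := by ring
  calc _ ≤ _ := abs_sub_le _ ((N : ℝ) / (d.lcm e : ℕ) *
        ∑ m ∈ Ioc X (X + H), cnt X H (d.gcd e) m) _
    _ ≤ _ := add_le_add h4 h6

theorem sum_F2 (X H d e N : ℕ) (hd : 0 < d) (he : 0 < e) :
    |∑ n ∈ Icc 1 N, (cnt X H d n - (H : ℝ) / d) * (cnt X H e n - (H : ℝ) / e)| ≤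
      N * H / (d.lcm e : ℕ) + 3 * H ^ 2 := by
  have hdR : (1 : ℝ) ≤ d := by exact_mod_cast hd
  have heR : (1 : ℝ) ≤ e := by exact_mod_cast he
  have h1 := sum_cnt2 X H d e N hd he
  have h2 := sum_cnt X H d N hd
  have h3 := sum_cnt X H e N he
  have e1 : ∑ n ∈ Icc 1 N, (cnt X H d n - (H : ℝ) / d) * (cnt X H e n - (H : ℝ) / e) =
      (∑ n ∈ Icc 1 N, cnt X H d n * cnt X H e n - (N : ℝ) * H ^ 2 / ((d : ℝ) * e)) -
      (H : ℝ) / e * (∑ n ∈ Icc 1 N, cnt X H d n - (N : ℝ) * H / d) -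
      (H : ℝ) / d * (∑ n ∈ Icc 1 N, cnt X H e n - (N : ℝ) * H / e) := by
    have e2 : ∀ n, (cnt X H d n - (H : ℝ) / d) * (cnt X H e n - (H : ℝ) / e) =
        cnt X H d n * cnt X H e n - (H : ℝ) / e * cnt X H d n - (H : ℝ) / d * cnt X H e n +
          (H : ℝ) ^ 2 / ((d : ℝ) * e) := by
      intro n
      field_simp
      ring
    simp_rw [e2]
    rw [sum_add_distrib, sum_sub_distrib, sum_sub_distrib, ← mul_sum, ← mul_sum, sum_const,
      Nat.card_Icc, nsmul_eq_mul, Nat.add_sub_cancel]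
    field_simp
    ring
  rw [e1]
  have hH : (0 : ℝ) ≤ H := Nat.cast_nonneg H
  have h4 : |(H : ℝ) / e * (∑ n ∈ Icc 1 N, cnt X H d n - (N : ℝ) * H / d)| ≤ H ^ 2 := by
    rw [abs_mul, abs_of_nonneg (by positivity : (0 : ℝ) ≤ (H : ℝ) / e), sq]
    exact mul_le_mul (div_le_self hH heR) h2 (abs_nonneg _) hH
  have h5 : |(H : ℝ) / d * (∑ n ∈ Icc 1 N, cnt X H e n - (N : ℝ) * H / e)| ≤ H ^ 2 := by
    rw [abs_mul, abs_of_nonneg (by positivity : (0 : ℝ) ≤ (H : ℝ) / d), sq]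
    exact mul_le_mul (div_le_self hH hdR) h3 (abs_nonneg _) hH
  rw [abs_le] at h1 h4 h5 ⊢
  constructor <;> linarith [h1.1, h1.2, h4.1, h4.2, h5.1, h5.2]

end Pool.Agent.Helper32.CS
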