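import Mathlib
import Pool.Agent.Helper32.CS.Var

set_option autoImplicit false

/-! A second moment bound for sieve weights in short intervals. -/

namespace Pool.Agent.Helper32.CS

open Finset

theorem modEq_prod (s : Finset ℕ) (hs : ∀ q ∈ s, q.Prime) (n m : ℕ) :
    ∏ q ∈ s, (if n ≡ m [MOD q] then (1 : ℝ) else 0) =
      if n ≡ m [MOD ∏ q ∈ s, q] then 1 else 0 := by
  classical
  induction s using Finset.induction_on with
  | empty => simp [Nat.modEq_one]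
  | insert a s ha ih =>
    have hcop : Nat.Coprime a (∏ q ∈ s, q) := by
      refine Nat.Coprime.prod_right fun q hq => ?_
      refine (Nat.coprime_primes (hs a (mem_insert_self _ _)) (hs q (mem_insert_of_mem hq))).2 ?_
      rintro rfl
      exact ha hq
    rw [prod_insert ha, prod_insert ha, ih fun q hq => hs q (mem_insert_of_mem hq)]
    have h := Nat.modEq_and_modEq_iff_modEq_mul (a := n) (b := m) hcop
    by_cases h1 : n ≡ m [MOD a]
    · by_cases h2 : n ≡ m [MOD ∏ q ∈ s, q]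
      · rw [if_pos h1, if_pos h2, if_pos (h.1 ⟨h1, h2⟩), one_mul]
      · rw [if_neg h2, if_neg (fun h3 => h2 (h.2 h3).2), mul_zero]
    · rw [if_neg h1, if_neg (fun h3 => h1 (h.2 h3).1), zero_mul]

theorem lcm_prod (s t : Finset ℕ) (hs : ∀ q ∈ s, q.Prime) (ht : ∀ q ∈ t, q.Prime) :
    (∏ q ∈ s, q).lcm (∏ q ∈ t, q) = ∏ q ∈ s ∪ t, q := by
  classical
  have h1 : ∏ q ∈ s, q = (∏ q ∈ s ∩ t, q) * ∏ q ∈ s \ t, q := by
    rw [← prod_union (disjoint_left.2 fun x hx hx' =>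
      (mem_sdiff.1 hx').2 (mem_inter.1 hx).2)]
    congr 1
    ext x
    simp only [mem_union, mem_inter, mem_sdiff]
    tauto
  have h2 : ∏ q ∈ t, q = (∏ q ∈ s ∩ t, q) * ∏ q ∈ t \ s, q := by
    rw [← prod_union (disjoint_left.2 fun x hx hx' =>
      (mem_sdiff.1 hx').2 (mem_inter.1 hx).1)]
    congr 1
    ext x
    simp only [mem_union, mem_inter, mem_sdiff]
    tauto
  have h3 : Nat.Coprime (∏ q ∈ s \ t, q) (∏ q ∈ t \ s, q) := by
    refine Nat.Coprime.prod_left fun p hp => Nat.Coprime.prod_right fun q hq => ?_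
    rw [mem_sdiff] at hp hq
    refine (Nat.coprime_primes (hs p hp.1) (ht q hq.1)).2 ?_
    rintro rfl
    exact hp.2 hq.1
  rw [h1, h2, Nat.lcm_mul_left, h3.lcm_eq_mul, ← mul_assoc, ← h1]
  have h4 : s ∪ t = s ∪ (t \ s) := by
    ext x
    simp only [mem_union, mem_sdiff]
    tauto
  rw [h4, prod_union (disjoint_left.2 fun x hx hx' => (mem_sdiff.1 hx').2 hx)]

theorem sum_pairs (Q : Finset ℕ) (x : ℕ → ℝ) :
    ∑ s ∈ Q.powerset, ∑ t ∈ Q.powerset, ∏ q ∈ s ∪ t, x q = ∏ q ∈ Q, (1 + 3 * x q) := by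
  classical
  induction Q using Finset.induction_on with
  | empty => simp
  | insert a Q ha ih =>
    rw [prod_insert ha, ← ih, sum_powerset_insert ha]
    have h1 : ∀ s ∈ Q.powerset, ∑ t ∈ (insert a Q).powerset, ∏ q ∈ s ∪ t, x q =
        (1 + x a) * ∑ t ∈ Q.powerset, ∏ q ∈ s ∪ t, x q := by
      intro s hs
      rw [mem_powerset] at hs
      rw [sum_powerset_insert ha, add_mul, one_mul, mul_sum]
      congr 1
      refine sum_congr rfl fun t ht => ?_
      rw [mem_powerset] at ht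
      rw [union_insert, prod_insert]
      intro h
      rcases mem_union.1 h with h | h
      · exact ha (hs h)
      · exact ha (ht h)
    have h2 : ∀ s ∈ Q.powerset, ∑ t ∈ (insert a Q).powerset, ∏ q ∈ insert a s ∪ t, x q =
        (2 * x a) * ∑ t ∈ Q.powerset, ∏ q ∈ s ∪ t, x q := by
      intro s hs
      rw [mem_powerset] at hs
      rw [sum_powerset_insert ha, two_mul, add_mul, mul_sum]
      congr 1
      · refine sum_congr rfl fun t ht => ?_
        rw [mem_powerset] at ht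
        rw [insert_union, prod_insert]
        intro h
        rcases mem_union.1 h with h | h
        · exact ha (hs h)
        · exact ha (ht h)
      · refine sum_congr rfl fun t ht => ?_
        rw [mem_powerset] at ht
        rw [insert_union, union_insert, insert_idem, prod_insert]
        intro h
        rcases mem_union.1 h with h | h
        · exact ha (hs h)
        · exact ha (ht h)
    rw [sum_congr rfl h1, sum_congr rfl h2, ← mul_sum, ← mul_sum]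
    ring

theorem prod_pos_primes (s : Finset ℕ) (hs : ∀ q ∈ s, q.Prime) : 0 < ∏ q ∈ s, q :=
  prod_pos fun q hq => (hs q hq).pos

theorem card_support (Q : Finset ℕ) (hQ : ∀ q ∈ Q, q.Prime) (D : ℕ) :
    ((Q.powerset).filter (fun s => ∏ q ∈ s, q ≤ D)).card ≤ D := by
  classical
  have h : ((Q.powerset).filter (fun s => ∏ q ∈ s, q ≤ D)).card ≤ (Icc 1 D).card := by
    refine card_le_card_of_injOn (fun s => ∏ q ∈ s, q) ?_ ?_
    · intro s hs
      rw [mem_coe, mem_filter, mem_powerset] at hs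
      rw [mem_coe, mem_Icc]
      exact ⟨prod_pos_primes s fun q hq => hQ q (hs.1 hq), hs.2⟩
    · intro s hs t ht hst
      rw [mem_coe, mem_filter, mem_powerset] at hs ht
      simp only at hst
      have h1 := Nat.primeFactors_prod fun q hq => hQ q (hs.1 hq)
      have h2 := Nat.primeFactors_prod fun q hq => hQ q (ht.1 hq)
      rw [← h1, ← h2, hst]
  simpa using h

/-- the weighted count in a block -/
noncomputable def RR (X H : ℕ) (Q : Finset ℕ) (l : Finset ℕ → ℝ) (n : ℕ) : ℝ :=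
  ∑ m ∈ Ioc X (X + H), ∑ s ∈ Q.powerset, l s * ∏ q ∈ s, (if n ≡ m [MOD q] then (1 : ℝ) else 0)

/-- the density of the weights -/
noncomputable def GG (Q : Finset ℕ) (l : Finset ℕ → ℝ) : ℝ :=
  ∑ s ∈ Q.powerset, l s * ∏ q ∈ s, (1 / (q : ℝ))

theorem RR_sub (X H : ℕ) (Q : Finset ℕ) (hQ : ∀ q ∈ Q, q.Prime) (l : Finset ℕ → ℝ) (n : ℕ) :
    RR X H Q l n - H * GG Q l =
      ∑ s ∈ Q.powerset, l s * (cnt X H (∏ q ∈ s, q) n - (H : ℝ) / (∏ q ∈ s, q : ℕ)) := by
  unfold RR GG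
  rw [sum_comm, mul_sum, ← sum_sub_distrib]
  refine sum_congr rfl fun s hs => ?_
  rw [mem_powerset] at hs
  rw [← mul_sum]
  have h1 : ∑ m ∈ Ioc X (X + H), ∏ q ∈ s, (if n ≡ m [MOD q] then (1 : ℝ) else 0) =
      cnt X H (∏ q ∈ s, q) n := by
    unfold cnt
    rw [card_filter]
    push_cast
    refine sum_congr rfl fun m _ => ?_
    rw [modEq_prod s fun q hq => hQ q (hs hq)]
  rw [h1]
  have h2 : ∏ q ∈ s, (1 / (q : ℝ)) = 1 / (∏ q ∈ s, q : ℕ) := by
    push_cast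
    rw [prod_div_distrib, prod_const_one]
  rw [h2]
  ring

theorem variance (X H N D : ℕ) (K : ℝ) (Q : Finset ℕ) (hQ : ∀ q ∈ Q, q.Prime)
    (l : Finset ℕ → ℝ) (hl : ∀ s, |l s| ≤ K)
    (hD : ∀ s, s ⊆ Q → l s ≠ 0 → ∏ q ∈ s, q ≤ D) :
    ∑ n ∈ Icc 1 N, (RR X H Q l n - H * GG Q l) ^ 2 ≤
      K ^ 2 * (N * H * ∏ q ∈ Q, (1 + 3 * (1 / (q : ℝ))) + 3 * H ^ 2 * (D : ℝ) ^ 2) := by
  classical
  set f : Finset ℕ → ℕ → ℝ := fun s n => cnt X H (∏ q ∈ s, q) n - (H : ℝ) / (∏ q ∈ s, q : ℕ)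
    with hf
  set S := (Q.powerset).filter (fun s => ∏ q ∈ s, q ≤ D) with hS
  have hK : 0 ≤ K := (abs_nonneg _).trans (hl ∅)
  have h1 : ∀ n, RR X H Q l n - H * GG Q l = ∑ s ∈ S, l s * f s n := by
    intro n
    rw [RR_sub X H Q hQ l n, hS, sum_filter]
    refine sum_congr rfl fun s hs => ?_
    rw [mem_powerset] at hs
    by_cases h : ∏ q ∈ s, q ≤ D
    · rw [if_pos h]
    · rw [if_neg h]
      have h2 : l s = 0 := by
        by_contra h3
        exact h (hD s hs h3)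
      rw [h2, zero_mul]
  have h2 : ∑ n ∈ Icc 1 N, (RR X H Q l n - H * GG Q l) ^ 2 =
      ∑ s ∈ S, ∑ t ∈ S, l s * l t * ∑ n ∈ Icc 1 N, f s n * f t n := by
    simp_rw [h1, sq, sum_mul_sum]
    rw [sum_comm]
    refine sum_congr rfl fun s _ => ?_
    rw [sum_comm]
    refine sum_congr rfl fun t _ => ?_
    rw [mul_sum]
    refine sum_congr rfl fun n _ => ?_
    ring
  have hSp : ∀ s ∈ S, ∀ q ∈ s, q.Prime := fun s hs q hq =>
    hQ q ((mem_powerset.1 (mem_filter.1 hs).1) hq)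
  have h3 : ∀ s ∈ S, ∀ t ∈ S, l s * l t * ∑ n ∈ Icc 1 N, f s n * f t n ≤
      K ^ 2 * (N * H * ∏ q ∈ s ∪ t, (1 / (q : ℝ)) + 3 * H ^ 2) := by
    intro s hs t ht
    have h4 := sum_F2 X H (∏ q ∈ s, q) (∏ q ∈ t, q) N (prod_pos_primes s (hSp s hs))
      (prod_pos_primes t (hSp t ht))
    rw [lcm_prod s t (hSp s hs) (hSp t ht)] at h4
    have h5 : ∏ q ∈ s ∪ t, (1 / (q : ℝ)) = 1 / (∏ q ∈ s ∪ t, q : ℕ) := by
      push_cast
      rw [prod_div_distrib, prod_const_one]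
    rw [h5]
    have h6 : (N : ℝ) * H * (1 / (∏ q ∈ s ∪ t, q : ℕ)) + 3 * H ^ 2 =
        N * H / (∏ q ∈ s ∪ t, q : ℕ) + 3 * H ^ 2 := by ring
    rw [h6]
    calc l s * l t * ∑ n ∈ Icc 1 N, f s n * f t n
        ≤ |l s * l t * ∑ n ∈ Icc 1 N, f s n * f t n| := le_abs_self _
      _ = |l s| * |l t| * |∑ n ∈ Icc 1 N, f s n * f t n| := by rw [abs_mul, abs_mul]
      _ ≤ K * K * (N * H / (∏ q ∈ s ∪ t, q : ℕ) + 3 * H ^ 2) := by
          refine mul_le_mul (mul_le_mul (hl s) (hl t) (abs_nonneg _) hK) h4 (abs_nonneg _)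
            (mul_nonneg hK hK)
      _ = _ := by ring
  rw [h2]
  have h4 : ∑ s ∈ S, ∑ t ∈ S, ∏ q ∈ s ∪ t, (1 / (q : ℝ)) ≤
      ∏ q ∈ Q, (1 + 3 * (1 / (q : ℝ))) := by
    rw [← sum_pairs]
    calc ∑ s ∈ S, ∑ t ∈ S, ∏ q ∈ s ∪ t, (1 / (q : ℝ))
        ≤ ∑ s ∈ S, ∑ t ∈ Q.powerset, ∏ q ∈ s ∪ t, (1 / (q : ℝ)) :=
          sum_le_sum fun s _ => sum_le_sum_of_subset_of_nonneg (filter_subset _ _)
            fun t _ _ => prod_nonneg fun q _ => by positivity
      _ ≤ _ := sum_le_sum_of_subset_of_nonneg (filter_subset _ _)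
            fun s _ _ => sum_nonneg fun t _ => prod_nonneg fun q _ => by positivity
  have h5 : ((S.card : ℝ)) ≤ D := by
    exact_mod_cast card_support Q hQ D
  calc ∑ s ∈ S, ∑ t ∈ S, l s * l t * ∑ n ∈ Icc 1 N, f s n * f t n
      ≤ ∑ s ∈ S, ∑ t ∈ S, K ^ 2 * (N * H * ∏ q ∈ s ∪ t, (1 / (q : ℝ)) + 3 * H ^ 2) :=
        sum_le_sum fun s hs => sum_le_sum fun t ht => h3 s hs t ht
    _ = K ^ 2 * (N * H * (∑ s ∈ S, ∑ t ∈ S, ∏ q ∈ s ∪ t, (1 / (q : ℝ))) +
          3 * H ^ 2 * ((S.card : ℝ)) ^ 2) := by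
        simp_rw [← mul_sum, sum_add_distrib, ← mul_sum, sum_const, nsmul_eq_mul]
        ring
    _ ≤ _ := by
        gcongr

end Pool.Agent.Helper32.CS
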