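import Mathlib
import Pool.Agent.Helper32.CS.Cheb
import Pool.Agent.Helper11.ER.SieveLower
import Pool.Agent.Helper16.UB.Mert

set_option autoImplicit false

/-! Almost all short intervals contain the expected number of integers without small prime
factors. -/

namespace Pool.Agent.Helper32.CS

open Finset Pool.Agent.Helper16.UB Pool.Agent.Helper6.ER.SL

open scoped Classical in
/-- the number of `m` in `(2^E, 2^(E+1)]` such that `n - m` has no prime factor `≤ 2^(E+1)` -/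
noncomputable def cb (E n : ℕ) : ℝ :=
  (((Ioc (2 ^ E) (2 ^ E + 2 ^ E)).filter
    (fun m => ∀ q ∈ PL (2 ^ (E + 1)), ¬ n ≡ m [MOD q])).card : ℝ)

theorem prod_upper : ∃ C : ℝ, 0 < C ∧ ∀ E : ℕ,
    ∏ q ∈ PL (2 ^ (E + 1)), (1 + 3 * (1 / (q : ℝ))) ≤ C * ((E : ℝ) + 1) ^ 3 := by
  obtain ⟨C, hC⟩ := exists_W_le
  refine ⟨Real.exp (3 * C), Real.exp_pos _, fun E => ?_⟩
  have h2 : 2 ≤ 2 ^ (E + 1) := by
    calc 2 = 2 ^ 1 := by norm_num
      _ ≤ 2 ^ (E + 1) := Nat.pow_le_pow_right (by norm_num) (by omega)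
  have hW := hC (2 ^ (E + 1)) h2
  have hlog : Real.log ((2 ^ (E + 1) : ℕ) : ℝ) = ((E : ℝ) + 1) * Real.log 2 := by
    push_cast
    rw [Real.log_pow]
    push_cast
    ring
  rw [hlog] at hW
  have hl2 : 0 < Real.log 2 := Real.log_pos one_lt_two
  have hl21 : Real.log 2 ≤ 1 := by
    have := Real.log_two_lt_d9
    linarith
  have hE : (0 : ℝ) < (E : ℝ) + 1 := by positivity
  calc ∏ q ∈ PL (2 ^ (E + 1)), (1 + 3 * (1 / (q : ℝ)))
      ≤ ∏ q ∈ PL (2 ^ (E + 1)), Real.exp (3 * (1 / (q : ℝ))) := by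
        refine prod_le_prod (fun q _ => by positivity) fun q _ => ?_
        have := Real.add_one_le_exp (3 * (1 / (q : ℝ)))
        linarith
    _ = Real.exp (3 * W (2 ^ (E + 1))) := by
        rw [← Real.exp_sum, ← mul_sum]
        rfl
    _ ≤ Real.exp (3 * (Real.log (((E : ℝ) + 1) * Real.log 2) + C)) := by
        apply Real.exp_le_exp.2
        linarith
    _ = Real.exp (3 * C) * (((E : ℝ) + 1) * Real.log 2) ^ 3 := by
        have hpos : 0 < ((E : ℝ) + 1) * Real.log 2 := mul_pos hE hl2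
        rw [mul_add, Real.exp_add, mul_comm]
        congr 1
        rw [← Real.log_rpow hpos, Real.exp_log (Real.rpow_pos_of_pos hpos _)]
        exact_mod_cast Real.rpow_natCast (((E : ℝ) + 1) * Real.log 2) 3
    _ ≤ Real.exp (3 * C) * ((E : ℝ) + 1) ^ 3 := by
        have h3 : ((E : ℝ) + 1) * Real.log 2 ≤ (E : ℝ) + 1 := by nlinarith
        have h4 : 0 ≤ ((E : ℝ) + 1) * Real.log 2 := by positivity
        have := pow_le_pow_left₀ h4 h3 3
        exact mul_le_mul_of_nonneg_left this (Real.exp_pos _).le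

theorem prod_lower : ∃ c : ℝ, 0 < c ∧ ∀ E : ℕ,
    c / ((E : ℝ) + 1) ≤ ∏ q ∈ PL (2 ^ (E + 1)), (1 - 1 / (q : ℝ)) := by
  obtain ⟨C, hC⟩ := exists_W_le
  refine ⟨Real.exp (-(C + 1)), Real.exp_pos _, fun E => ?_⟩
  have h2 : 2 ≤ 2 ^ (E + 1) := by
    calc 2 = 2 ^ 1 := by norm_num
      _ ≤ 2 ^ (E + 1) := Nat.pow_le_pow_right (by norm_num) (by omega)
  have hW := hC (2 ^ (E + 1)) h2
  have hlog : Real.log ((2 ^ (E + 1) : ℕ) : ℝ) = ((E : ℝ) + 1) * Real.log 2 := by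
    push_cast
    rw [Real.log_pow]
    push_cast
    ring
  rw [hlog] at hW
  have hl2 : 0 < Real.log 2 := Real.log_pos one_lt_two
  have hl21 : Real.log 2 ≤ 1 := by
    have := Real.log_two_lt_d9
    linarith
  have hE : (0 : ℝ) < (E : ℝ) + 1 := by positivity
  have hpos : 0 < ((E : ℝ) + 1) * Real.log 2 := mul_pos hE hl2
  have h3 := sum_inv_pred_le (2 ^ (E + 1))
  calc Real.exp (-(C + 1)) / ((E : ℝ) + 1)
      ≤ Real.exp (-(C + 1)) / (((E : ℝ) + 1) * Real.log 2) := by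
        apply div_le_div_of_nonneg_left (Real.exp_pos _).le hpos
        nlinarith
    _ = Real.exp (-(Real.log (((E : ℝ) + 1) * Real.log 2) + C + 1)) := by
        rw [show -(Real.log (((E : ℝ) + 1) * Real.log 2) + C + 1) =
          -(C + 1) - Real.log (((E : ℝ) + 1) * Real.log 2) by ring, Real.exp_sub,
          Real.exp_log hpos]
    _ ≤ Real.exp (-∑ p ∈ PL (2 ^ (E + 1)), 1 / ((p : ℝ) - 1)) := by
        apply Real.exp_le_exp.2
        linarith
    _ = ∏ q ∈ PL (2 ^ (E + 1)), Real.exp (-(1 / ((q : ℝ) - 1))) := by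
        rw [← sum_neg_distrib, Real.exp_sum]
    _ ≤ _ := by
        refine prod_le_prod (fun q _ => (Real.exp_pos _).le) fun q hq => ?_
        have hq1 : (1 : ℝ) < q := by exact_mod_cast (mem_PL.1 hq).2.one_lt
        have hq0 : (0 : ℝ) < q := by linarith
        have hq2 : (0 : ℝ) < (q : ℝ) - 1 := by linarith
        have h4 : 0 < 1 - 1 / (q : ℝ) := by
          rw [sub_pos, div_lt_one hq0]
          exact hq1
        rw [← Real.le_log_iff_exp_le h4]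
        have h5 := Real.one_sub_inv_le_log_of_pos h4
        have h6 : 1 - (1 - 1 / (q : ℝ))⁻¹ = -(1 / ((q : ℝ) - 1)) := by
          field_simp
          ring
        rw [h6] at h5
        exact h5

theorem arith_fin (b c H u T w : ℝ) (hc : 0 < c) (hH : 0 < H) (hu : 0 < u)
    (h : b * (c / 4 * H / u) ^ 2 ≤ (9 * u ^ 2) * (T * u ^ 3 * H ^ 2 * w)) :
    b ≤ 144 / c ^ 2 * T * u ^ 7 * w := by
  have h8 : 0 < c ^ 2 * H ^ 2 / (16 * u ^ 2) := by positivity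
  have h7 : b * (c / 4 * H / u) ^ 2 = b * (c ^ 2 * H ^ 2 / (16 * u ^ 2)) := by
    field_simp
    ring
  rw [h7] at h
  refine le_of_mul_le_mul_right (h.trans (le_of_eq ?_)) h8
  field_simp
  ring

theorem block_bad : ∃ (A : ℕ) (K c : ℝ), 0 < K ∧ 0 < c ∧ ∀ E N : ℕ,
    (((Icc 1 N).filter (fun n => cb E n < c * 2 ^ E / ((E : ℝ) + 1))).card : ℝ) ≤
      K * ((E : ℝ) + 1) ^ 7 * (N / 2 ^ E + 4 ^ (A * (E + 2))) := by
  classical
  obtain ⟨A, hA1, hA⟩ := exists_minorant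
  obtain ⟨CT, hCT0, hCT⟩ := prod_upper
  obtain ⟨c0, hc0, hc⟩ := prod_lower
  refine ⟨A, 144 / c0 ^ 2 * (CT + 3), c0 / 4, by positivity, by positivity, ?_⟩
  intro E N
  obtain ⟨l, hl1, hl2, hl3, hl4⟩ := hA (E + 1) (PL (2 ^ (E + 1))) (by
    intro q hq
    rw [mem_PL] at hq
    refine ⟨hq.2, ?_⟩
    have h1 : Nat.log 2 q ≤ Nat.log 2 (2 ^ (E + 1)) := Nat.log_mono_right hq.1
    rwa [Nat.log_pow (by norm_num)] at h1)
  set Q := PL (2 ^ (E + 1)) with hQ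
  have hQp : ∀ q ∈ Q, q.Prime := fun q hq => (mem_PL.1 hq).2
  have hE : (0 : ℝ) < (E : ℝ) + 1 := by positivity
  have hvar := variance (2 ^ E) (2 ^ E) N (2 ^ (A * (E + 1 + 1))) (((E + 1 : ℕ) : ℝ) + 2) Q hQp l
    hl1 hl2
  have hG : c0 / (2 * ((E : ℝ) + 1)) ≤ GG Q l := by
    have h1 := hc E
    unfold GG
    refine le_trans ?_ hl4
    calc c0 / (2 * ((E : ℝ) + 1)) = 1 / 2 * (c0 / ((E : ℝ) + 1)) := by
          field_simp
      _ ≤ _ := mul_le_mul_of_nonneg_left h1 (by norm_num)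
  -- the minorant property
  have hmin : ∀ n, RR (2 ^ E) (2 ^ E) Q l n ≤ cb E n := by
    intro n
    unfold RR cb
    rw [card_filter]
    push_cast
    refine sum_le_sum fun m _ => ?_
    have h1 := hl3 (fun q => if n ≡ m [MOD q] then (1 : ℝ) else 0)
      (fun q _ => by beta_reduce; split_ifs <;> norm_num)
      (fun q _ => by beta_reduce; split_ifs <;> norm_num)
    refine h1.trans ?_
    by_cases h : ∀ q ∈ Q, ¬ n ≡ m [MOD q]
    · rw [if_pos h]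
      refine le_of_eq (prod_eq_one fun q hq => ?_)
      rw [if_neg (h q hq), sub_zero]
    · rw [if_neg h]
      push Not at h
      obtain ⟨q, hq, hqm⟩ := h
      refine le_of_eq (prod_eq_zero hq ?_)
      rw [if_pos hqm, sub_self]
  set H : ℝ := 2 ^ E with hH
  have hH0 : 0 < H := by positivity
  set B := (Icc 1 N).filter (fun n => cb E n < c0 / 4 * H / ((E : ℝ) + 1)) with hB
  have hlow : ∀ n ∈ B, (c0 / 4 * H / ((E : ℝ) + 1)) ^ 2 ≤
      (RR (2 ^ E) (2 ^ E) Q l n - ((2 ^ E : ℕ) : ℝ) * GG Q l) ^ 2 := by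
    intro n hn
    have h1 := (mem_filter.1 hn).2
    have h2 := hmin n
    have h3 : c0 / 2 * H / ((E : ℝ) + 1) ≤ ((2 ^ E : ℕ) : ℝ) * GG Q l := by
      push_cast
      calc c0 / 2 * H / ((E : ℝ) + 1) = H * (c0 / (2 * ((E : ℝ) + 1))) := by
            field_simp
        _ ≤ _ := mul_le_mul_of_nonneg_left hG hH0.le
    have h4 : c0 / 2 * H / ((E : ℝ) + 1) = 2 * (c0 / 4 * H / ((E : ℝ) + 1)) := by ring
    rw [h4] at h3
    have h5 : 0 < c0 / 4 * H / ((E : ℝ) + 1) := by positivity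
    nlinarith
  have hcard : (B.card : ℝ) * (c0 / 4 * H / ((E : ℝ) + 1)) ^ 2 ≤
      ∑ n ∈ Icc 1 N, (RR (2 ^ E) (2 ^ E) Q l n - ((2 ^ E : ℕ) : ℝ) * GG Q l) ^ 2 := by
    calc (B.card : ℝ) * (c0 / 4 * H / ((E : ℝ) + 1)) ^ 2
        = ∑ n ∈ B, (c0 / 4 * H / ((E : ℝ) + 1)) ^ 2 := by rw [sum_const, nsmul_eq_mul]
      _ ≤ ∑ n ∈ B, (RR (2 ^ E) (2 ^ E) Q l n - ((2 ^ E : ℕ) : ℝ) * GG Q l) ^ 2 :=
          sum_le_sum hlow
      _ ≤ _ := sum_le_sum_of_subset_of_nonneg (filter_subset _ _) fun n _ _ => sq_nonneg _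
  have hfin := hcard.trans hvar
  have hT := hCT E
  -- bound the right side
  have h4 : ((2 ^ (A * (E + 1 + 1)) : ℕ) : ℝ) ^ 2 = 4 ^ (A * (E + 2)) := by
    push_cast
    rw [← pow_mul, mul_comm, pow_mul]
    norm_num
  rw [h4] at hfin
  push_cast at hfin
  rw [← hH] at hfin
  set u : ℝ := (E : ℝ) + 1 with hu
  have hu1 : 1 ≤ u := by
    rw [hu]
    have : (0 : ℝ) ≤ E := Nat.cast_nonneg E
    linarith
  set D2 : ℝ := 4 ^ (A * (E + 2)) with hD2
  have hD20 : 0 < D2 := by positivity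
  have hN : (0 : ℝ) ≤ N := Nat.cast_nonneg N
  have h5 : (u + 2) ^ 2 * (N * H * ∏ q ∈ Q, (1 + 3 * (1 / (q : ℝ))) + 3 * H ^ 2 * D2) ≤
      (9 * u ^ 2) * ((CT + 3) * u ^ 3 * H ^ 2 * (N / H + D2)) := by
    have h6 : (u + 2) ^ 2 ≤ 9 * u ^ 2 := by nlinarith
    have h7 : N * H * ∏ q ∈ Q, (1 + 3 * (1 / (q : ℝ))) ≤ N * H * (CT * u ^ 3) :=
      mul_le_mul_of_nonneg_left hT (by positivity)
    have h8 : 3 * H ^ 2 * D2 ≤ 3 * u ^ 3 * (H ^ 2 * D2) := by
      have h81 : 1 ≤ u ^ 3 := one_le_pow₀ hu1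
      have h82 : 0 ≤ 3 * (H ^ 2 * D2) := by positivity
      calc 3 * H ^ 2 * D2 = 1 * (3 * (H ^ 2 * D2)) := by ring
        _ ≤ u ^ 3 * (3 * (H ^ 2 * D2)) := mul_le_mul_of_nonneg_right h81 h82
        _ = _ := by ring
    have h9 : (CT + 3) * u ^ 3 * H ^ 2 * (N / H + D2) =
        (CT + 3) * u ^ 3 * (N * H) + (CT + 3) * u ^ 3 * (H ^ 2 * D2) := by
      field_simp
    have h10 : N * H * ∏ q ∈ Q, (1 + 3 * (1 / (q : ℝ))) + 3 * H ^ 2 * D2 ≤
        (CT + 3) * u ^ 3 * H ^ 2 * (N / H + D2) := by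
      rw [h9]
      have h11 : 0 ≤ u ^ 3 * (N * H) := by positivity
      have h12 : 0 ≤ CT * u ^ 3 * (H ^ 2 * D2) := by positivity
      calc N * H * ∏ q ∈ Q, (1 + 3 * (1 / (q : ℝ))) + 3 * H ^ 2 * D2
          ≤ N * H * (CT * u ^ 3) + 3 * u ^ 3 * (H ^ 2 * D2) := add_le_add h7 h8
        _ ≤ (N * H * (CT * u ^ 3) + 3 * u ^ 3 * (H ^ 2 * D2)) +
              (3 * (u ^ 3 * (N * H)) + CT * u ^ 3 * (H ^ 2 * D2)) :=
            le_add_of_nonneg_right (add_nonneg (mul_nonneg (by norm_num) h11) h12)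
        _ = _ := by ring
    have h13 : 0 ≤ N * H * ∏ q ∈ Q, (1 + 3 * (1 / (q : ℝ))) + 3 * H ^ 2 * D2 := by
      have : 0 ≤ ∏ q ∈ Q, (1 + 3 * (1 / (q : ℝ))) := prod_nonneg fun q _ => by positivity
      positivity
    exact mul_le_mul h6 h10 h13 (by positivity)
  exact arith_fin (B.card : ℝ) c0 H u (CT + 3) (N / H + D2) hc0 hH0 (by linarith)
    (hfin.trans h5)

end Pool.Agent.Helper32.CS
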