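import Mathlib
import Pool.Agent.Helper32.CS.Block
import Pool.Agent.Helper13.Om.BT

set_option autoImplicit false

/-! The comparison function `LL n = ∑_{m ≤ n} (1/m) ∏_{p ≤ m} (1 - 1/p)`. -/

namespace Pool.Agent.Helper32.CS

open Finset Pool.Agent.Helper16.UB

/-- `∏_{p ≤ m} (1 - 1/p)` -/
noncomputable def VV (m : ℕ) : ℝ := ∏ p ∈ PL m, (1 - 1 / (p : ℝ))

/-- `∑_{m ≤ n} (1/m) ∏_{p ≤ m} (1 - 1/p)` -/
noncomputable def LL (n : ℕ) : ℝ := ∑ m ∈ Ioc 0 n, VV m / m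

theorem factor_nonneg {m p : ℕ} (hp : p ∈ PL m) : 0 < 1 - 1 / (p : ℝ) := by
  have h1 : (1 : ℝ) < p := by exact_mod_cast (mem_PL.1 hp).2.one_lt
  rw [sub_pos, div_lt_one (by linarith)]
  exact h1

theorem factor_le_one (p : ℕ) : 1 - 1 / (p : ℝ) ≤ 1 := by
  have : 0 ≤ 1 / (p : ℝ) := by positivity
  linarith

theorem VV_pos (m : ℕ) : 0 < VV m := prod_pos fun _ hp => factor_nonneg hp

theorem VV_le_one (m : ℕ) : VV m ≤ 1 :=
  prod_le_one (fun _ hp => (factor_nonneg hp).le) fun p _ => factor_le_one p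

theorem PL_mono {m m' : ℕ} (h : m ≤ m') : PL m ⊆ PL m' := by
  intro p hp
  rw [mem_PL] at hp ⊢
  exact ⟨hp.1.trans h, hp.2⟩

theorem VV_split {m m' : ℕ} (h : m ≤ m') :
    VV m' = VV m * ∏ p ∈ PL m' \ PL m, (1 - 1 / (p : ℝ)) := by
  unfold VV
  rw [mul_comm, prod_sdiff (PL_mono h)]

theorem VV_anti {m m' : ℕ} (h : m ≤ m') : VV m' ≤ VV m := by
  rw [VV_split h]
  refine mul_le_of_le_one_right (VV_pos m).le (prod_le_one (fun p hp => ?_) fun p _ =>
    factor_le_one p)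
  exact (factor_nonneg (mem_sdiff.1 hp).1).le

theorem one_sub_sum_le (s : Finset ℕ) (f : ℕ → ℝ) (h0 : ∀ p ∈ s, 0 ≤ f p)
    (h1 : ∀ p ∈ s, f p ≤ 1) : 1 - ∑ p ∈ s, f p ≤ ∏ p ∈ s, (1 - f p) := by
  induction s using Finset.induction_on with
  | empty => simp
  | insert p s hp ih =>
    rw [sum_insert hp, prod_insert hp]
    have ih' := ih (fun q hq => h0 q (mem_insert_of_mem hq)) (fun q hq => h1 q (mem_insert_of_mem hq))
    have hp0 := h0 p (mem_insert_self _ _)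
    have hp1 := h1 p (mem_insert_self _ _)
    have hs : 0 ≤ ∑ q ∈ s, f q := sum_nonneg fun q hq => h0 q (mem_insert_of_mem hq)
    have := mul_le_mul_of_nonneg_left ih' (by linarith : 0 ≤ 1 - f p)
    nlinarith [mul_nonneg hp0 hs]

theorem VV_step (M H : ℕ) (hM : 1 ≤ M) : VV M * (1 - (H : ℝ) / M) ≤ VV (M + H) := by
  rw [VV_split (Nat.le_add_right M H)]
  refine mul_le_mul_of_nonneg_left ?_ (VV_pos M).le
  have hMR : (0 : ℝ) < M := by exact_mod_cast hM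
  have h1 := one_sub_sum_le (PL (M + H) \ PL M) (fun p => 1 / (p : ℝ))
    (fun p _ => by positivity) (fun p hp => by
      have := factor_nonneg (mem_sdiff.1 hp).1
      linarith)
  refine le_trans ?_ h1
  have hsub : PL (M + H) \ PL M ⊆ Ioc M (M + H) := by
    intro p hp
    rw [mem_sdiff, mem_PL, mem_PL] at hp
    rw [mem_Ioc]
    refine ⟨?_, hp.1.1⟩
    by_contra h
    exact hp.2 ⟨by omega, hp.1.2⟩
  have h2 : ∑ p ∈ PL (M + H) \ PL M, 1 / (p : ℝ) ≤ (H : ℝ) / M := by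
    calc ∑ p ∈ PL (M + H) \ PL M, 1 / (p : ℝ)
        ≤ ∑ p ∈ Ioc M (M + H), 1 / (p : ℝ) :=
          sum_le_sum_of_subset_of_nonneg hsub fun p _ _ => by positivity
      _ ≤ ∑ p ∈ Ioc M (M + H), 1 / (M : ℝ) := by
          refine sum_le_sum fun p hp => ?_
          rw [mem_Ioc] at hp
          have : (M : ℝ) ≤ p := by exact_mod_cast hp.1.le
          exact one_div_le_one_div_of_le hMR this
      _ = (H : ℝ) / M := by
          rw [sum_const, Nat.card_Ioc, Nat.add_sub_cancel_left, nsmul_eq_mul]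
          ring
  linarith

theorem VV_two_pow_le (E : ℕ) : VV (2 ^ E) ≤ 4 / ((E : ℝ) + 1) := by
  have h1 := Helper13.Om.mertens_prod (2 ^ E + 1) (by
    have := Nat.one_le_two_pow (n := E)
    omega)
  have h20 : PL (2 ^ E) = (2 ^ E + 1).primesBelow := by
    ext p
    rw [mem_PL, Nat.mem_primesBelow, Nat.lt_succ_iff]
  have h2 : VV (2 ^ E) = ∏ p ∈ (2 ^ E + 1).primesBelow, (1 - 1 / ((p : ℕ) : ℝ)) := by
    unfold VV
    rw [h20]
  rw [h2]
  refine h1.trans ?_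
  have h3 := Real.log_two_gt_d9
  have h4 : ((E : ℝ) + 1) / 4 ≤ Real.log ((2 ^ E + 1 : ℕ) : ℝ) := by
    have h5 : (2 : ℝ) ^ E ≤ ((2 ^ E + 1 : ℕ) : ℝ) := by
      push_cast
      linarith
    have h6 := Real.log_le_log (by positivity) h5
    rw [Real.log_pow] at h6
    rcases Nat.eq_zero_or_pos E with rfl | hE
    · norm_num at h6 ⊢
      linarith
    · have hE1 : (1 : ℝ) ≤ E := by exact_mod_cast hE
      nlinarith
  have h5 : 0 < ((E : ℝ) + 1) / 4 := by positivity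
  calc 1 / Real.log ((2 ^ E + 1 : ℕ) : ℝ) ≤ 1 / (((E : ℝ) + 1) / 4) :=
        one_div_le_one_div_of_le h5 h4
    _ = 4 / ((E : ℝ) + 1) := by
        rw [one_div_div]

theorem VV_two_pow_ge : ∃ c : ℝ, 0 < c ∧ ∀ E : ℕ, c / ((E : ℝ) + 1) ≤ VV (2 ^ (E + 1)) :=
  prod_lower

theorem LL_sub {a b : ℕ} (h : a ≤ b) : LL b - LL a = ∑ m ∈ Ioc a b, VV m / m := by
  unfold LL
  rw [← sum_Ioc_consecutive _ (Nat.zero_le a) h]
  ring

theorem LL_mono {a b : ℕ} (h : a ≤ b) : LL a ≤ LL b := by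
  have h1 := LL_sub h
  have h2 : 0 ≤ ∑ m ∈ Ioc a b, VV m / m :=
    sum_nonneg fun m _ => div_nonneg (VV_pos m).le (Nat.cast_nonneg m)
  linarith

theorem LL_nonneg (a : ℕ) : 0 ≤ LL a :=
  sum_nonneg fun m _ => div_nonneg (VV_pos m).le (Nat.cast_nonneg m)

/-- the part of `LL` in a block -/
theorem block_LL_le (M H : ℕ) (hM : 1 ≤ M) :
    ∑ m ∈ Ioc M (M + H), VV m / m ≤ H * VV M / M := by
  have hMR : (0 : ℝ) < M := by exact_mod_cast hM
  calc ∑ m ∈ Ioc M (M + H), VV m / m ≤ ∑ m ∈ Ioc M (M + H), VV M / M := by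
        refine sum_le_sum fun m hm => ?_
        rw [mem_Ioc] at hm
        have h1 : (M : ℝ) ≤ m := by exact_mod_cast hm.1.le
        exact div_le_div₀ (VV_pos M).le (VV_anti hm.1.le) hMR h1
    _ = H * VV M / M := by
        rw [sum_const, Nat.card_Ioc, Nat.add_sub_cancel_left, nsmul_eq_mul]
        ring

theorem block_LL_ge (M H : ℕ) :
    H * VV (M + H) / ((M + H : ℕ) : ℝ) ≤ ∑ m ∈ Ioc M (M + H), VV m / m := by
  calc H * VV (M + H) / ((M + H : ℕ) : ℝ)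
      = ∑ m ∈ Ioc M (M + H), VV (M + H) / ((M + H : ℕ) : ℝ) := by
        rw [sum_const, Nat.card_Ioc, Nat.add_sub_cancel_left, nsmul_eq_mul]
        ring
    _ ≤ ∑ m ∈ Ioc M (M + H), VV m / m := by
        refine sum_le_sum fun m hm => ?_
        rw [mem_Ioc] at hm
        have h1 : (m : ℝ) ≤ ((M + H : ℕ) : ℝ) := by exact_mod_cast hm.2
        have h2 : (0 : ℝ) < m := by
          have : 0 < m := by omega
          exact_mod_cast this
        exact div_le_div₀ (VV_pos m).le (VV_anti hm.2) h2 h1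

/-- tiling -/
theorem sum_tile (x : ℕ → ℕ) (hx : Monotone x) (f : ℕ → ℝ) (a b : ℕ) (hab : a ≤ b) :
    ∑ m ∈ Ioc (x a) (x b), f m = ∑ j ∈ Ico a b, ∑ m ∈ Ioc (x j) (x (j + 1)), f m := by
  induction b, hab using Nat.le_induction with
  | base => simp
  | succ b hab ih =>
    rw [sum_Ico_succ_top hab, ← ih, sum_Ioc_consecutive _ (hx hab) (hx (Nat.le_succ b))]

theorem LL_pow_sub_le (a b : ℕ) (hab : a ≤ b) :
    LL (2 ^ b) - LL (2 ^ a) ≤ 4 * ∑ E ∈ Ico a b, 1 / ((E : ℝ) + 1) := by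
  rw [LL_sub (Nat.pow_le_pow_right (by norm_num) hab),
    sum_tile (fun E => 2 ^ E) (fun i j h => Nat.pow_le_pow_right (by norm_num) h) _ a b hab,
    mul_sum]
  refine sum_le_sum fun E _ => ?_
  have h1 := block_LL_le (2 ^ E) (2 ^ E) Nat.one_le_two_pow
  have h2 : 2 ^ E + 2 ^ E = 2 ^ (E + 1) := by ring
  rw [h2] at h1
  refine h1.trans ?_
  push_cast
  have h3 : (2 : ℝ) ^ E * VV (2 ^ E) / 2 ^ E = VV (2 ^ E) := by
    field_simp
  rw [h3, mul_one_div]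
  exact VV_two_pow_le E

theorem LL_pow_sub_ge : ∃ c : ℝ, 0 < c ∧ ∀ a b : ℕ, a ≤ b →
    c * ∑ E ∈ Ico a b, 1 / ((E : ℝ) + 1) ≤ LL (2 ^ b) - LL (2 ^ a) := by
  obtain ⟨c, hc, h⟩ := VV_two_pow_ge
  refine ⟨c / 2, by positivity, fun a b hab => ?_⟩
  rw [LL_sub (Nat.pow_le_pow_right (by norm_num) hab),
    sum_tile (fun E => 2 ^ E) (fun i j h => Nat.pow_le_pow_right (by norm_num) h) _ a b hab,
    mul_sum]
  refine sum_le_sum fun E _ => ?_
  have h1 := block_LL_ge (2 ^ E) (2 ^ E)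
  have h2 : 2 ^ E + 2 ^ E = 2 ^ (E + 1) := by ring
  rw [h2] at h1
  refine le_trans ?_ h1
  push_cast
  have h3 : (2 : ℝ) ^ E * VV (2 ^ (E + 1)) / 2 ^ (E + 1) = VV (2 ^ (E + 1)) / 2 := by
    rw [pow_succ (2 : ℝ) E]
    field_simp
  rw [h3]
  have := h E
  calc c / 2 * (1 / ((E : ℝ) + 1)) = c / ((E : ℝ) + 1) / 2 := by ring
    _ ≤ _ := by linarith

/-- a trivial bound -/
theorem LL_sub_le_trivial (y H : ℕ) (hy : 1 ≤ y) : LL (y + H) - LL y ≤ (H : ℝ) / y := by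
  rw [LL_sub (Nat.le_add_right y H)]
  refine (block_LL_le y H hy).trans ?_
  have hyR : (0 : ℝ) < y := by exact_mod_cast hy
  apply div_le_div_of_nonneg_right _ hyR.le
  exact mul_le_of_le_one_right (Nat.cast_nonneg H) (VV_le_one y)

end Pool.Agent.Helper32.CS
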