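import Mathlib
import Pool.Agent.Helper32.CS.VVdef
import Pool.Agent.Helper32.M3.Integral

set_option autoImplicit false

/-! `LL n ~ exp (-γ) log log n`, from Mertens' third theorem. -/

namespace Pool.Agent.Helper32.CS

open Finset Filter Topology Pool.Agent.Helper16.UB

/-- `exp (-γ)` -/
noncomputable def eg : ℝ := Real.exp (-Real.eulerMascheroniConstant)

theorem eg_pos : 0 < eg := Real.exp_pos _

theorem VV_lim : Tendsto (fun n : ℕ => VV n * Real.log n) atTop (𝓝 eg) := M3.mertens_three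

/-- `log log` -/
noncomputable def ll (n : ℕ) : ℝ := Real.log (Real.log n)

theorem log_pos_nat {n : ℕ} (hn : 2 ≤ n) : 0 < Real.log (n : ℝ) :=
  Real.log_pos (by exact_mod_cast (by omega : 1 < n))

/-- `log log (m + 1) - log log m ≤ 1 / (m log m)` -/
theorem ll_step_le {m : ℕ} (hm : 2 ≤ m) : ll (m + 1) - ll m ≤ 1 / ((m : ℝ) * Real.log m) := by
  have h0 := log_pos_nat hm
  have h1 : 0 < Real.log ((m + 1 : ℕ) : ℝ) := log_pos_nat (by omega)
  have hmR : (2 : ℝ) ≤ m := by exact_mod_cast hm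
  unfold ll
  rw [← Real.log_div h1.ne' h0.ne']
  have h2 := Real.log_le_sub_one_of_pos (div_pos h1 h0)
  refine h2.trans ?_
  have h3 : Real.log ((m + 1 : ℕ) : ℝ) - Real.log m ≤ 1 / m := by
    rw [← Real.log_div (by positivity) (by positivity)]
    have h4 := Real.log_le_sub_one_of_pos (x := ((m + 1 : ℕ) : ℝ) / m) (by positivity)
    refine h4.trans (le_of_eq ?_)
    push_cast
    field_simp
    ring
  rw [div_sub_one h0.ne', div_le_div_iff₀ h0 (by positivity)]
  have h5 : (Real.log ((m + 1 : ℕ) : ℝ) - Real.log m) * m ≤ 1 := by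
    rw [le_div_iff₀ (by linarith)] at h3
    exact h3
  nlinarith

/-- `1 / (m log m) ≤ log log m - log log (m - 1)` -/
theorem ll_step_ge {m : ℕ} (hm : 2 ≤ m) :
    1 / (((m + 1 : ℕ) : ℝ) * Real.log ((m + 1 : ℕ) : ℝ)) ≤ ll (m + 1) - ll m := by
  have h0 := log_pos_nat hm
  have h1 : 0 < Real.log ((m + 1 : ℕ) : ℝ) := log_pos_nat (by omega)
  have hmR : (2 : ℝ) ≤ m := by exact_mod_cast hm
  unfold ll
  rw [← Real.log_div h1.ne' h0.ne']
  have h2 := Real.one_sub_inv_le_log_of_pos (div_pos h1 h0)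
  refine le_trans ?_ h2
  rw [inv_div]
  have h3 : 1 / ((m + 1 : ℕ) : ℝ) ≤ Real.log ((m + 1 : ℕ) : ℝ) - Real.log m := by
    rw [← Real.log_div (by positivity) (by positivity)]
    have h4 := Real.one_sub_inv_le_log_of_pos (x := ((m + 1 : ℕ) : ℝ) / m) (by positivity)
    refine le_trans (le_of_eq ?_) h4
    push_cast
    field_simp
    ring
  have h5 : 1 - Real.log (m : ℝ) / Real.log ((m + 1 : ℕ) : ℝ) =
      (Real.log ((m + 1 : ℕ) : ℝ) - Real.log m) / Real.log ((m + 1 : ℕ) : ℝ) := by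
    field_simp
  rw [h5, ← div_div]
  exact div_le_div_of_nonneg_right h3 h1.le

theorem ll_mono {m n : ℕ} (hm : 2 ≤ m) (h : m ≤ n) : ll m ≤ ll n := by
  unfold ll
  refine Real.log_le_log (log_pos_nat hm) (Real.log_le_log ?_ (by exact_mod_cast h))
  exact_mod_cast (by omega : 0 < m)

theorem ll_tendsto : Tendsto ll atTop atTop :=
  Real.tendsto_log_atTop.comp (Real.tendsto_log_atTop.comp tendsto_natCast_atTop_atTop)

/-- lower bound for the differences of `LL` -/
theorem LL_diff_ge (c : ℝ) (hc : 0 ≤ c) (M : ℕ) (hM : 2 ≤ M)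
    (h : ∀ m : ℕ, M ≤ m → c ≤ VV m * Real.log m) (a b : ℕ) (ha : M ≤ a) (hab : a ≤ b) :
    c * (ll (b + 1) - ll (a + 1)) ≤ LL b - LL a := by
  induction b, hab using Nat.le_induction with
  | base => simp
  | succ b hab ih =>
    have h1 : LL (b + 1) - LL b = VV (b + 1) / ((b + 1 : ℕ) : ℝ) := by
      rw [LL_sub (Nat.le_succ b)]
      have : Ioc b (b + 1) = {b + 1} := by
        ext x; simp only [mem_Ioc, mem_singleton]; omega
      rw [this, sum_singleton]
    have hb : 2 ≤ b + 1 := by omega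
    have h2 := ll_step_le hb
    have h3 := h (b + 1) (by omega)
    have h4 := log_pos_nat hb
    have h5 : (0 : ℝ) < ((b + 1 : ℕ) : ℝ) := by positivity
    have h6 : c * (1 / (((b + 1 : ℕ) : ℝ) * Real.log ((b + 1 : ℕ) : ℝ))) ≤
        VV (b + 1) / ((b + 1 : ℕ) : ℝ) := by
      rw [mul_one_div, div_le_div_iff₀ (by positivity) h5]
      nlinarith
    have h7 := mul_le_mul_of_nonneg_left h2 hc
    have h8 : c * (ll (b + 1 + 1) - ll (a + 1)) =
        c * (ll (b + 1) - ll (a + 1)) + c * (ll (b + 1 + 1) - ll (b + 1)) := by ring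
    rw [h8]
    linarith

/-- upper bound for the differences of `LL` -/
theorem LL_diff_le (c : ℝ) (M : ℕ) (hM : 2 ≤ M)
    (h : ∀ m : ℕ, M ≤ m → VV m * Real.log m ≤ c) (a b : ℕ) (ha : M ≤ a) (hab : a ≤ b) :
    LL b - LL a ≤ c * (ll b - ll a) := by
  have hc : 0 ≤ c := le_trans (mul_nonneg (VV_pos M).le (log_pos_nat hM).le) (h M le_rfl)
  induction b, hab using Nat.le_induction with
  | base => simp
  | succ b hab ih =>
    have h1 : LL (b + 1) - LL b = VV (b + 1) / ((b + 1 : ℕ) : ℝ) := by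
      rw [LL_sub (Nat.le_succ b)]
      have : Ioc b (b + 1) = {b + 1} := by
        ext x; simp only [mem_Ioc, mem_singleton]; omega
      rw [this, sum_singleton]
    have h2 := ll_step_ge (m := b) (by omega)
    have h3 := h (b + 1) (by omega)
    have h4 := log_pos_nat (n := b + 1) (by omega)
    have h5 : (0 : ℝ) < ((b + 1 : ℕ) : ℝ) := by positivity
    have h6 : VV (b + 1) / ((b + 1 : ℕ) : ℝ) ≤
        c * (1 / (((b + 1 : ℕ) : ℝ) * Real.log ((b + 1 : ℕ) : ℝ))) := by
      rw [mul_one_div, div_le_div_iff₀ h5 (by positivity)]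
      nlinarith
    have h7 := mul_le_mul_of_nonneg_left h2 hc
    have h8 : c * (ll (b + 1) - ll a) = c * (ll b - ll a) + c * (ll (b + 1) - ll b) := by ring
    rw [h8]
    linarith

/-- the asymptotic formula -/
theorem LL_asym (η : ℝ) (hη : 0 < η) : ∃ n0 : ℕ, 16 ≤ n0 ∧ ∀ n : ℕ, n0 ≤ n →
    |LL n - eg * ll n| ≤ η * ll n := by
  have h1 : ∀ᶠ n : ℕ in atTop, |VV n * Real.log n - eg| < η / 2 := by
    have := (Metric.tendsto_atTop.1 VV_lim) (η / 2) (half_pos hη)
    obtain ⟨N, hN⟩ := this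
    exact eventually_atTop.2 ⟨N, fun n hn => by
      have := hN n hn
      rwa [Real.dist_eq] at this⟩
  obtain ⟨M0, hM0⟩ := eventually_atTop.1 h1
  set M := max M0 2 with hM
  have hM2 : 2 ≤ M := le_max_right _ _
  have hbd : ∀ m : ℕ, M ≤ m → |VV m * Real.log m - eg| < η / 2 := fun m hm =>
    hM0 m ((le_max_left _ _).trans hm)
  have hup : ∀ n : ℕ, M ≤ n → LL n - LL M ≤ (eg + η / 2) * (ll n - ll M) := fun n hn =>
    LL_diff_le _ M hM2 (fun m hm => by have := (abs_lt.1 (hbd m hm)).2; linarith) M n le_rfl hn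
  have hlo : ∀ n : ℕ, M ≤ n → (max (eg - η / 2) 0) * (ll (n + 1) - ll (M + 1)) ≤ LL n - LL M := by
    intro n hn
    refine LL_diff_ge _ (le_max_right _ _) M hM2 (fun m hm => ?_) M n le_rfl hn
    rcases le_total (eg - η / 2) 0 with h | h
    · rw [max_eq_right h]
      exact mul_nonneg (VV_pos m).le (log_pos_nat (hM2.trans hm)).le
    · rw [max_eq_left h]
      have := (abs_lt.1 (hbd m hm)).1
      linarith
  set K := LL M + (eg + η / 2) * |ll M| + (max (eg - η / 2) 0) * |ll (M + 1)| with hK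
  obtain ⟨n1, hn1⟩ := eventually_atTop.1 (ll_tendsto.eventually_ge_atTop (2 * K / η))
  have hK0 : 0 ≤ K := by
    rw [hK]
    have := LL_nonneg M
    have := eg_pos
    positivity
  refine ⟨max (max n1 M) 16, le_max_right _ _, fun n hn => ?_⟩
  have hnM : M ≤ n := (le_max_right _ _).trans ((le_max_left _ _).trans hn)
  have hnn : n1 ≤ n := (le_max_left _ _).trans ((le_max_left _ _).trans hn)
  have h2 := hn1 n hnn
  rw [div_le_iff₀ hη] at h2
  have h3 := hup n hnM
  have h4 := hlo n hnM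
  have h5 : 0 ≤ ll n := by
    have : 0 ≤ 2 * K / η := by positivity
    exact this.trans (hn1 n hnn)
  have h6 := ll_mono (hM2.trans hnM) (Nat.le_succ n)
  have e1 := eg_pos
  rw [abs_le]
  constructor
  · have h7 : (max (eg - η / 2) 0) * (ll n - ll (M + 1)) ≤
        (max (eg - η / 2) 0) * (ll (n + 1) - ll (M + 1)) :=
      mul_le_mul_of_nonneg_left (by linarith) (le_max_right _ _)
    have h8 : (eg - η / 2) * ll n ≤ (max (eg - η / 2) 0) * ll n :=
      mul_le_mul_of_nonneg_right (le_max_left _ _) h5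
    have h9 : (max (eg - η / 2) 0) * ll (M + 1) ≤ (max (eg - η / 2) 0) * |ll (M + 1)| :=
      mul_le_mul_of_nonneg_left (le_abs_self _) (le_max_right _ _)
    have h10 := LL_nonneg M
    have h11 : 0 ≤ (eg + η / 2) * |ll M| := by positivity
    nlinarith
  · have h7 : -((eg + η / 2) * ll M) ≤ (eg + η / 2) * |ll M| := by
      have := mul_le_mul_of_nonneg_left (neg_le_abs (ll M)) (by positivity : 0 ≤ eg + η / 2)
      linarith
    have h8 : 0 ≤ (max (eg - η / 2) 0) * |ll (M + 1)| :=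
      mul_nonneg (le_max_right _ _) (abs_nonneg _)
    nlinarith

/-- uniform lower bound for the differences -/
theorem LL_diff_unif (η : ℝ) (hη : 0 < η) (hη1 : η < 1) : ∃ C : ℝ, 0 < C ∧ ∀ N y : ℕ, 2 ≤ y →
    y ≤ N → (1 - η) * (eg * Real.log (Real.log N / Real.log y)) - C ≤ LL N - LL y := by
  have e1 := eg_pos
  have h1 : ∀ᶠ n : ℕ in atTop, |VV n * Real.log n - eg| < η * eg := by
    obtain ⟨N, hN⟩ := (Metric.tendsto_atTop.1 VV_lim) (η * eg) (by positivity)
    exact eventually_atTop.2 ⟨N, fun n hn => by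
      have := hN n hn
      rwa [Real.dist_eq] at this⟩
  obtain ⟨M0, hM0⟩ := eventually_atTop.1 h1
  set M := max M0 2 with hM
  have hM2 : 2 ≤ M := le_max_right _ _
  have hc0 : 0 ≤ (1 - η) * eg := mul_nonneg (by linarith) e1.le
  have hlo : ∀ a b : ℕ, M ≤ a → a ≤ b →
      ((1 - η) * eg) * (ll (b + 1) - ll (a + 1)) ≤ LL b - LL a := by
    intro a b ha hab
    refine LL_diff_ge _ hc0 M hM2 (fun m hm => ?_) a b ha hab
    have := (abs_lt.1 (hM0 m ((le_max_left _ _).trans hm))).1
    linarith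
  refine ⟨((1 - η) * eg) * (ll M - ll 2 + 1) + 1, ?_, fun N y hy hyN => ?_⟩
  · have := ll_mono le_rfl hM2
    have h2 : 0 ≤ ll M - ll 2 + 1 := by linarith
    have h3 := mul_nonneg hc0 h2
    linarith
  have hstep : ∀ m : ℕ, 2 ≤ m → ll (m + 1) - ll m ≤ 1 := by
    intro m hm
    refine (ll_step_le hm).trans ?_
    have hmR : (2 : ℝ) ≤ m := by exact_mod_cast hm
    have h3 : Real.log 2 ≤ Real.log m := Real.log_le_log (by norm_num) hmR
    have h4 := Real.log_two_gt_d9
    have h5 := log_pos_nat hm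
    rw [div_le_one (by positivity)]
    nlinarith
  have hlogN := log_pos_nat (hy.trans hyN)
  have hlogy := log_pos_nat hy
  rw [Real.log_div hlogN.ne' hlogy.ne']
  change (1 - η) * (eg * (ll N - ll y)) - _ ≤ _
  have hm1 := ll_mono le_rfl hM2
  by_cases h3 : M ≤ y
  · have h4 := hlo y N h3 hyN
    have h5 := hstep y hy
    have h6 := ll_mono (hy.trans hyN) (Nat.le_succ N)
    have h7 : ((1 - η) * eg) * (ll N - ll y - 1) ≤ ((1 - η) * eg) * (ll (N + 1) - ll (y + 1)) :=
      mul_le_mul_of_nonneg_left (by linarith) hc0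
    have h8 : 0 ≤ ((1 - η) * eg) * (ll M - ll 2) := mul_nonneg hc0 (by linarith)
    linarith
  · push Not at h3
    by_cases h4 : M ≤ N
    · have h5 := hlo M N le_rfl h4
      have h6 := hstep M hM2
      have h7 := ll_mono (hy.trans hyN) (Nat.le_succ N)
      have h8 := LL_mono h3.le
      have h9 := ll_mono le_rfl hy
      have h10 : ((1 - η) * eg) * (ll N - ll y - (ll M - ll 2) - 1) ≤
          ((1 - η) * eg) * (ll (N + 1) - ll (M + 1)) :=
        mul_le_mul_of_nonneg_left (by linarith) hc0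
      linarith
    · push Not at h4
      have h5 := LL_mono hyN
      have h6 := ll_mono (hy.trans hyN) h4.le
      have h9 := ll_mono le_rfl hy
      have h10 : ((1 - η) * eg) * (ll N - ll y) ≤ ((1 - η) * eg) * (ll M - ll 2 + 1) :=
        mul_le_mul_of_nonneg_left (by linarith) hc0
      linarith

end Pool.Agent.Helper32.CS
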