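import Mathlib
import Pool.Agent.Helper32.CS.VVdef
import Pool.Agent.Helper32.CS.Minor

set_option autoImplicit false

/-! Almost all short intervals contain asymptotically the expected number of integers without
small prime factors. -/

namespace Pool.Agent.Helper32.CS

open Finset Pool.Agent.Helper16.UB

open scoped Classical in
/-- the number of `m` in `(M, M + H]` such that `n - m` has no prime factor `≤ M + H` -/
noncomputable def cM (M H n : ℕ) : ℝ :=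
  (((Ioc M (M + H)).filter (fun m => ∀ q ∈ PL (M + H), ¬ n ≡ m [MOD q])).card : ℝ)

theorem block_bad_eps (ε : ℝ) (hε : 0 < ε) (hε1 : ε < 1) :
    ∃ (A : ℕ) (K : ℝ), 0 < K ∧ ∀ E M H N : ℕ, 1 ≤ H → M + H ≤ 2 ^ (E + 1) →
    (((Icc 1 N).filter (fun n => cM M H n < (1 - 2 * ε) * (H * VV (M + H)))).card : ℝ) ≤
      K * ((E : ℝ) + 1) ^ 7 * (N / H + 4 ^ (A * (E + 2))) := by
  classical
  obtain ⟨A, hA1, hA⟩ := exists_minorant_eps ε hε hε1
  obtain ⟨CT, hCT0, hCT⟩ := prod_upper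
  obtain ⟨c0, hc0, hc⟩ := VV_two_pow_ge
  refine ⟨A, 144 / (4 * ε * c0) ^ 2 * (CT + 3), by positivity, ?_⟩
  intro E M H N hH1 hMH
  have hQsub : PL (M + H) ⊆ PL (2 ^ (E + 1)) := PL_mono hMH
  obtain ⟨l, hl1, hl2, hl3, hl4⟩ := hA (E + 1) (PL (M + H)) (by
    intro q hq
    have hq' := hQsub hq
    rw [mem_PL] at hq'
    refine ⟨hq'.2, ?_⟩
    have h1 : Nat.log 2 q ≤ Nat.log 2 (2 ^ (E + 1)) := Nat.log_mono_right hq'.1
    rwa [Nat.log_pow (by norm_num)] at h1)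
  set Q := PL (M + H) with hQ
  have hQp : ∀ q ∈ Q, q.Prime := fun q hq => (mem_PL.1 hq).2
  have hE : (0 : ℝ) < (E : ℝ) + 1 := by positivity
  have hvar := variance M H N (2 ^ (A * (E + 1 + 1))) (((E + 1 : ℕ) : ℝ) + 2) Q hQp l hl1 hl2
  have hG : (1 - ε) * VV (M + H) ≤ GG Q l := hl4
  have hV0 := VV_pos (M + H)
  have hV : c0 / ((E : ℝ) + 1) ≤ VV (M + H) := (hc E).trans (VV_anti hMH)
  -- the minorant property
  have hmin : ∀ n, RR M H Q l n ≤ cM M H n := by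
    intro n
    unfold RR cM
    rw [card_filter]
    push_cast
    refine sum_le_sum fun m _ => ?_
    have h1 := hl3 (fun q => if n ≡ m [MOD q] then (1 : ℝ) else 0)
      (fun q _ => by split_ifs <;> norm_num)
      (fun q _ => by split_ifs <;> norm_num)
    refine h1.trans ?_
    by_cases h : ∀ q ∈ Q, ¬ n ≡ m [MOD q]
    · rw [if_pos h]
      refine le_of_eq (prod_eq_one fun q hq => ?_)
      rw [if_neg (h q hq), sub_zero]
    · rw [if_neg h]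
      push Not at h
      obtain ⟨q, hq, hqm⟩ := h
      refine le_of_eq (prod_eq_zero hq ?_)
      rw [if_pos hqm, sub_self]
  have hH0 : (0 : ℝ) < H := by exact_mod_cast hH1
  set u : ℝ := (E : ℝ) + 1 with hu
  set B := (Icc 1 N).filter (fun n => cM M H n < (1 - 2 * ε) * (H * VV (M + H))) with hB
  have hlow : ∀ n ∈ B, (4 * ε * c0 / 4 * H / u) ^ 2 ≤ (RR M H Q l n - (H : ℝ) * GG Q l) ^ 2 := by
    intro n hn
    have h1 := (mem_filter.1 hn).2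
    have h2 := hmin n
    have h3 : (1 - ε) * (H * VV (M + H)) ≤ (H : ℝ) * GG Q l := by
      have := mul_le_mul_of_nonneg_left hG hH0.le
      linarith
    have h5 : 4 * ε * c0 / 4 * H / u ≤ ε * (H * VV (M + H)) := by
      have := mul_le_mul_of_nonneg_left hV (by positivity : 0 ≤ ε * H)
      calc 4 * ε * c0 / 4 * H / u = ε * H * (c0 / u) := by ring
        _ ≤ ε * H * VV (M + H) := this
        _ = _ := by ring
    have h6 : 0 < 4 * ε * c0 / 4 * H / u := by positivity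
    have h7 : 4 * ε * c0 / 4 * H / u ≤ (H : ℝ) * GG Q l - RR M H Q l n := by linarith
    have h8 : (RR M H Q l n - (H : ℝ) * GG Q l) ^ 2 = ((H : ℝ) * GG Q l - RR M H Q l n) ^ 2 := by
      ring
    rw [h8]
    exact pow_le_pow_left₀ h6.le h7 2
  have hcard : (B.card : ℝ) * (4 * ε * c0 / 4 * H / u) ^ 2 ≤
      ∑ n ∈ Icc 1 N, (RR M H Q l n - (H : ℝ) * GG Q l) ^ 2 := by
    calc (B.card : ℝ) * (4 * ε * c0 / 4 * H / u) ^ 2
        = ∑ n ∈ B, (4 * ε * c0 / 4 * H / u) ^ 2 := by rw [sum_const, nsmul_eq_mul]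
      _ ≤ ∑ n ∈ B, (RR M H Q l n - (H : ℝ) * GG Q l) ^ 2 := sum_le_sum hlow
      _ ≤ _ := sum_le_sum_of_subset_of_nonneg (filter_subset _ _) fun n _ _ => sq_nonneg _
  have hfin := hcard.trans hvar
  have hT : ∏ q ∈ Q, (1 + 3 * (1 / (q : ℝ))) ≤ CT * u ^ 3 := by
    refine le_trans ?_ (hCT E)
    rw [← prod_sdiff hQsub]
    refine le_mul_of_one_le_left (prod_nonneg fun q _ => by positivity) ?_
    have h1 : ∀ q ∈ PL (2 ^ (E + 1)) \ Q, (1 : ℝ) ≤ 1 + 3 * (1 / (q : ℝ)) := fun q _ => by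
      have : 0 ≤ 3 * (1 / (q : ℝ)) := by positivity
      linarith
    calc (1 : ℝ) = ∏ q ∈ PL (2 ^ (E + 1)) \ Q, (1 : ℝ) := prod_const_one.symm
      _ ≤ _ := prod_le_prod (fun _ _ => zero_le_one) h1
  have h4 : ((2 ^ (A * (E + 1 + 1)) : ℕ) : ℝ) ^ 2 = 4 ^ (A * (E + 2)) := by
    push_cast
    rw [← pow_mul, mul_comm, pow_mul]
    norm_num
  rw [h4] at hfin
  push_cast at hfin
  rw [← hu] at hfin
  have hu1 : 1 ≤ u := by
    rw [hu]
    have : (0 : ℝ) ≤ E := Nat.cast_nonneg E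
    linarith
  set D2 : ℝ := 4 ^ (A * (E + 2)) with hD2
  have hD20 : 0 < D2 := by positivity
  have hN : (0 : ℝ) ≤ N := Nat.cast_nonneg N
  have h5 : (u + 2) ^ 2 * (N * H * ∏ q ∈ Q, (1 + 3 * (1 / (q : ℝ))) + 3 * H ^ 2 * D2) ≤
      (9 * u ^ 2) * ((CT + 3) * u ^ 3 * H ^ 2 * (N / H + D2)) := by
    have h6 : (u + 2) ^ 2 ≤ 9 * u ^ 2 := by nlinarith
    have h7 : N * H * ∏ q ∈ Q, (1 + 3 * (1 / (q : ℝ))) ≤ N * H * (CT * u ^ 3) :=
      mul_le_mul_of_nonneg_left hT (by positivity)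
    have h8 : 3 * (H : ℝ) ^ 2 * D2 ≤ 3 * u ^ 3 * (H ^ 2 * D2) := by
      have h81 : 1 ≤ u ^ 3 := one_le_pow₀ hu1
      have h82 : 0 ≤ 3 * ((H : ℝ) ^ 2 * D2) := by positivity
      calc 3 * (H : ℝ) ^ 2 * D2 = 1 * (3 * (H ^ 2 * D2)) := by ring
        _ ≤ u ^ 3 * (3 * (H ^ 2 * D2)) := mul_le_mul_of_nonneg_right h81 h82
        _ = _ := by ring
    have h9 : (CT + 3) * u ^ 3 * (H : ℝ) ^ 2 * (N / H + D2) =
        (CT + 3) * u ^ 3 * (N * H) + (CT + 3) * u ^ 3 * (H ^ 2 * D2) := by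
      field_simp
    have h10 : N * H * ∏ q ∈ Q, (1 + 3 * (1 / (q : ℝ))) + 3 * (H : ℝ) ^ 2 * D2 ≤
        (CT + 3) * u ^ 3 * H ^ 2 * (N / H + D2) := by
      rw [h9]
      have h11 : 0 ≤ u ^ 3 * (N * (H : ℝ)) := by positivity
      have h12 : 0 ≤ CT * u ^ 3 * ((H : ℝ) ^ 2 * D2) := by positivity
      calc N * H * ∏ q ∈ Q, (1 + 3 * (1 / (q : ℝ))) + 3 * (H : ℝ) ^ 2 * D2
          ≤ N * H * (CT * u ^ 3) + 3 * u ^ 3 * (H ^ 2 * D2) := add_le_add h7 h8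
        _ ≤ (N * H * (CT * u ^ 3) + 3 * u ^ 3 * (H ^ 2 * D2)) +
              (3 * (u ^ 3 * (N * H)) + CT * u ^ 3 * (H ^ 2 * D2)) :=
            le_add_of_nonneg_right (add_nonneg (mul_nonneg (by norm_num) h11) h12)
        _ = _ := by ring
    have h13 : 0 ≤ N * H * ∏ q ∈ Q, (1 + 3 * (1 / (q : ℝ))) + 3 * (H : ℝ) ^ 2 * D2 := by
      have : 0 ≤ ∏ q ∈ Q, (1 + 3 * (1 / (q : ℝ))) := prod_nonneg fun q _ => by positivity
      positivity
    exact mul_le_mul h6 h10 h13 (by positivity)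
  exact arith_fin (B.card : ℝ) (4 * ε * c0) H u (CT + 3) (N / H + D2) (by positivity) hH0
    (by linarith) (hfin.trans h5)

/-- a good block -/
theorem good_block (M H n : ℕ) (δ ε : ℝ) (hM : 1 ≤ M) (hδ : 0 ≤ δ) (hδ1 : δ ≤ 1)
    (hε1 : 2 * ε ≤ 1) (hH : (H : ℝ) ≤ δ * M)
    (hgood : (1 - 2 * ε) * (H * VV (M + H)) ≤ cM M H n) :
    (1 - 2 * ε) * (1 - δ) ^ 2 * ∑ m ∈ Ioc M (M + H), VV m / m ≤ cM M H n / ((M + H : ℕ) : ℝ) := by
  have hMR : (0 : ℝ) < M := by exact_mod_cast hM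
  have hHR : (0 : ℝ) ≤ H := Nat.cast_nonneg H
  have hMH : (0 : ℝ) < ((M + H : ℕ) : ℝ) := by
    push_cast
    linarith
  have h1 := block_LL_le M H hM
  have h2 := VV_step M H hM
  have hV := VV_pos M
  have h3 : (H : ℝ) / M ≤ δ := by
    rw [div_le_iff₀ hMR]
    exact hH
  have h4 : VV M * (1 - δ) ≤ VV (M + H) := by
    refine le_trans (mul_le_mul_of_nonneg_left ?_ hV.le) h2
    linarith
  rw [le_div_iff₀ hMH]
  have h5 : 0 ≤ (1 - 2 * ε) * (1 - δ) ^ 2 := by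
    have : 0 ≤ 1 - 2 * ε := by linarith
    positivity
  have h6 : (1 - δ) * ((M + H : ℕ) : ℝ) ≤ M := by
    push_cast
    nlinarith [mul_nonneg hδ hMR.le, mul_nonneg hδ hHR, mul_nonneg (sub_nonneg.2 hδ1) (sub_nonneg.2 hH)]
  calc (1 - 2 * ε) * (1 - δ) ^ 2 * (∑ m ∈ Ioc M (M + H), VV m / m) * ((M + H : ℕ) : ℝ)
      ≤ (1 - 2 * ε) * (1 - δ) ^ 2 * (H * VV M / M) * ((M + H : ℕ) : ℝ) :=
        mul_le_mul_of_nonneg_right (mul_le_mul_of_nonneg_left h1 h5) hMH.le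
    _ = (1 - 2 * ε) * (1 - δ) * (H * VV M / M) * ((1 - δ) * ((M + H : ℕ) : ℝ)) := by ring
    _ ≤ (1 - 2 * ε) * (1 - δ) * (H * VV M / M) * M := by
        apply mul_le_mul_of_nonneg_left h6
        have e1 : 0 ≤ 1 - 2 * ε := by linarith
        have e2 : 0 ≤ 1 - δ := by linarith
        positivity
    _ = (1 - 2 * ε) * (H * (VV M * (1 - δ))) := by
        field_simp
    _ ≤ (1 - 2 * ε) * (H * VV (M + H)) := by
        apply mul_le_mul_of_nonneg_left _ (by linarith)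
        exact mul_le_mul_of_nonneg_left h4 hHR
    _ ≤ cM M H n := hgood

end Pool.Agent.Helper32.CS
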