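import Mathlib
import Pool.Agent.Helper4.MeanS1

set_option autoImplicit false

/-! The greedy sequence and the numbers `m` with `n - m` free of primes up to `m`. -/

namespace Pool.Agent.Helper32.CS

open Finset Pool.Agent.Helper4.CoprimeShift

/-- all prime factors of `n - m` exceed `m` -/
def Free (n m : ℕ) : Prop := ∀ p : ℕ, p.Prime → p ∣ n - m → m < p

theorem exists_index {n m : ℕ} (h1 : 1 ≤ m) (hmn : m < n) (hf : Free n m) :
    ∃ i ∈ indices n, a n i = m := by
  have key : ∀ j : ℕ, 1 ≤ j → (∃ i, 1 ≤ i ∧ i ≤ m ∧ a n i = m) ∨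
      (j ≤ a n j ∧ a n j < m ∧ ∀ i, 1 ≤ i → i ≤ j → a n i ≤ a n j) := by
    intro j hj
    induction j, hj using Nat.le_induction with
    | base =>
      rcases Nat.lt_or_ge 1 m with h | h
      · right
        rw [a_one]
        refine ⟨le_rfl, h, fun i hi hi' => ?_⟩
        have : i = 1 := by omega
        rw [this, a_one]
      · left
        refine ⟨1, le_rfl, h1, ?_⟩
        rw [a_one]
        omega
    | succ j hj ih =>
      rcases ih with ih | ⟨ih1, ih2, ih3⟩
      · exact Or.inl ih
      · obtain ⟨k, rfl⟩ : ∃ k, j = k + 1 := ⟨j - 1, by omega⟩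
        have hmem : m ∈ {m : ℕ | a n (k + 1) < m ∧ ∀ i : Fin (k + 2), 1 ≤ (i : ℕ) →
            Int.gcd ((n : ℤ) - m) ((n : ℤ) - a n i) = 1} := by
          refine ⟨ih2, fun i hi => ?_⟩
          have hik : (i : ℕ) ≤ k + 1 := by
            have := i.2
            omega
          have hai : a n i ≤ a n (k + 1) := ih3 i hi hik
          have hlt : a n i < m := lt_of_le_of_lt hai ih2
          rw [← Nat.cast_sub hmn.le, ← Nat.cast_sub (hlt.le.trans hmn.le),
            Int.gcd_natCast_natCast]
          by_contra hg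
          obtain ⟨p, hp, hpd⟩ := Nat.exists_prime_and_dvd hg
          have h2 : p ∣ n - m := hpd.trans (Nat.gcd_dvd_left _ _)
          have h3 : p ∣ n - a n i := hpd.trans (Nat.gcd_dvd_right _ _)
          have h4 := hf p hp h2
          have h5 : p ∣ (n - a n i) - (n - m) := Nat.dvd_sub h3 h2
          have h6 : (n - a n i) - (n - m) = m - a n i := by omega
          rw [h6] at h5
          have h7 := Nat.le_of_dvd (by omega) h5
          omega
        have hle : a n (k + 2) ≤ m := by
          rw [a_succ_succ]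
          exact Nat.sInf_le hmem
        have hne : {m : ℕ | a n (k + 1) < m ∧ ∀ i : Fin (k + 2), 1 ≤ (i : ℕ) →
            Int.gcd ((n : ℤ) - m) ((n : ℤ) - a n i) = 1}.Nonempty := ⟨m, hmem⟩
        have hlt : a n (k + 1) < a n (k + 2) := by
          have := (Nat.sInf_mem hne).1
          rwa [← a_succ_succ] at this
        rcases hle.lt_or_eq with h | h
        · right
          show k + 2 ≤ a n (k + 2) ∧ a n (k + 2) < m ∧ _
          refine ⟨by omega, h, fun i hi hi' => ?_⟩
          rcases Nat.lt_or_ge i (k + 2) with h' | h'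
          · exact (ih3 i hi (by omega)).trans hlt.le
          · have : i = k + 2 := by omega
            rw [this]
        · left
          exact ⟨k + 2, by omega, by omega, h⟩
  rcases key m h1 with ⟨i, hi1, hi2, hi3⟩ | ⟨h2, h3, _⟩
  · refine ⟨i, ?_, hi3⟩
    rw [mem_indices]
    refine ⟨⟨hi1, by omega⟩, by omega⟩
  · omega

open scoped Classical in
theorem S2_ge (n : ℕ) :
    ∑ m ∈ (Ico 1 n).filter (Free n), (1 : ℝ) / m ≤ S2 n := by
  have hsplit : S2 n = ∑ i ∈ (indices n).filter (fun i => ¬ SmallDivisor n i), (1 : ℝ) / a n i := by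
    unfold S2 S S1
    rw [← sum_filter_add_sum_filter_not (indices n) (SmallDivisor n)]
    ring
  rw [hsplit]
  have hex : ∀ m ∈ (Ico 1 n).filter (Free n), ∃ i ∈ indices n, a n i = m := by
    intro m hm
    rw [mem_filter, mem_Ico] at hm
    exact exists_index hm.1.1 hm.1.2 hm.2
  choose! g hg1 hg2 using hex
  calc ∑ m ∈ (Ico 1 n).filter (Free n), (1 : ℝ) / m
      = ∑ m ∈ (Ico 1 n).filter (Free n), (1 : ℝ) / a n (g m) := by
        refine sum_congr rfl fun m hm => ?_
        rw [hg2 m hm]
    _ = ∑ i ∈ ((Ico 1 n).filter (Free n)).image g, (1 : ℝ) / a n i := by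
        rw [sum_image]
        intro x hx y hy hxy
        rw [← hg2 x hx, ← hg2 y hy, hxy]
    _ ≤ _ := by
        refine sum_le_sum_of_subset_of_nonneg ?_ fun i _ _ => by positivity
        intro i hi
        obtain ⟨m, hm, rfl⟩ := mem_image.1 hi
        rw [mem_filter]
        refine ⟨hg1 m hm, ?_⟩
        rintro ⟨p, hp, hpa, hpd⟩
        rw [hg2 m hm] at hpa hpd
        have := (mem_filter.1 hm).2 p hp hpd
        omega

theorem S1_nonneg (n : ℕ) : 0 ≤ S1 n := by
  unfold S1
  positivity

theorem S2_nonneg (n : ℕ) : 0 ≤ S2 n := by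
  classical
  have h := S2_ge n
  exact le_trans (sum_nonneg fun m _ => by positivity) h

theorem S2_le_S (n : ℕ) : S2 n ≤ S n := by
  have := S1_nonneg n
  unfold S2
  linarith

end Pool.Agent.Helper32.CS
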