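import Mathlib
import Pool.Agent.Helper32.CS.Block
import Pool.Agent.Helper32.CS.Greedy

set_option autoImplicit false

/-! The exceptional set: `S_2(n)` is large for all `n` outside a small set. -/

namespace Pool.Agent.Helper32.CS

open Finset Pool.Agent.Helper16.UB Pool.Agent.Helper4.CoprimeShift

theorem log_le_sum (a b : ℕ) (hab : a ≤ b) :
    Real.log (((b : ℝ) + 1) / ((a : ℝ) + 1)) ≤ ∑ E ∈ Ico a b, 1 / ((E : ℝ) + 1) := by
  induction b, hab using Nat.le_induction with
  | base =>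
    rw [div_self (by positivity), Real.log_one, Ico_self, sum_empty]
  | succ b hab ih =>
    rw [sum_Ico_succ_top hab]
    have hb : (0 : ℝ) < (b : ℝ) + 1 := by positivity
    have ha : (0 : ℝ) < (a : ℝ) + 1 := by positivity
    have h1 : Real.log ((((b + 1 : ℕ) : ℝ) + 1) / ((a : ℝ) + 1)) =
        Real.log (((b : ℝ) + 1) / ((a : ℝ) + 1)) + Real.log (1 + 1 / ((b : ℝ) + 1)) := by
      rw [← Real.log_mul (by positivity) (by positivity)]
      congr 1
      push_cast
      field_simp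
    rw [h1]
    have h2 := Real.log_le_sub_one_of_pos (x := 1 + 1 / ((b : ℝ) + 1)) (by positivity)
    linarith

open scoped Classical in
/-- the set counted by `cb` -/
noncomputable def UU (E n : ℕ) : Finset ℕ :=
  (Ioc (2 ^ E) (2 ^ E + 2 ^ E)).filter (fun m => ∀ q ∈ PL (2 ^ (E + 1)), ¬ n ≡ m [MOD q])

theorem mem_UU {E n m : ℕ} : m ∈ UU E n ↔ (2 ^ E < m ∧ m ≤ 2 ^ E + 2 ^ E) ∧
    ∀ q ∈ PL (2 ^ (E + 1)), ¬ n ≡ m [MOD q] := by
  unfold UU
  simp only [mem_filter, mem_Ioc]

theorem mem_UU_free {E n m : ℕ} (hm : m ∈ UU E n) (hn : 2 ^ (E + 1) < n) :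
    1 ≤ m ∧ m < n ∧ Free n m := by
  classical
  rw [mem_UU] at hm
  have h2 : 2 ^ E + 2 ^ E = 2 ^ (E + 1) := by ring
  have h1 : m < n := by omega
  refine ⟨by omega, h1, fun p hp hpd => ?_⟩
  by_contra h
  push Not at h
  have h3 : p ∈ PL (2 ^ (E + 1)) := by
    rw [mem_PL]
    exact ⟨by omega, hp⟩
  exact hm.2 p h3 ((Nat.modEq_iff_dvd' h1.le).2 hpd).symm

theorem S2_ge_blocks (n E0 E1 : ℕ) (hn : 2 ^ E1 < n) :
    ∑ E ∈ Ico E0 E1, cb E n / 2 ^ (E + 1) ≤ S2 n := by
  classical
  refine le_trans ?_ (S2_ge n)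
  have hpow : ∀ E ∈ Ico E0 E1, 2 ^ (E + 1) < n := by
    intro E hE
    rw [mem_Ico] at hE
    have : 2 ^ (E + 1) ≤ 2 ^ E1 := Nat.pow_le_pow_right (by norm_num) (by omega)
    omega
  have h1 : ∀ E ∈ Ico E0 E1, cb E n / 2 ^ (E + 1) ≤ ∑ m ∈ UU E n, (1 : ℝ) / m := by
    intro E _
    have h2 : cb E n = ((UU E n).card : ℝ) := rfl
    rw [h2, div_eq_mul_one_div, ← nsmul_eq_mul, ← sum_const]
    refine sum_le_sum fun m hm => ?_
    rw [mem_UU] at hm
    have h3 : 2 ^ E + 2 ^ E = 2 ^ (E + 1) := by ring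
    have h4 : (m : ℝ) ≤ 2 ^ (E + 1) := by
      have : m ≤ 2 ^ (E + 1) := by omega
      exact_mod_cast this
    have h5 : (0 : ℝ) < m := by
      have : 0 < m := by omega
      exact_mod_cast this
    exact one_div_le_one_div_of_le h5 h4
  refine (sum_le_sum h1).trans ?_
  rw [← sum_biUnion]
  · refine sum_le_sum_of_subset_of_nonneg ?_ fun m _ _ => by positivity
    intro m hm
    obtain ⟨E, hE, hm⟩ := mem_biUnion.1 hm
    obtain ⟨h2, h3, h4⟩ := mem_UU_free hm (hpow E hE)
    rw [mem_filter, mem_Ico]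
    exact ⟨⟨h2, h3⟩, h4⟩
  · have key : ∀ E E' m : ℕ, E < E' → m ∈ UU E n → m ∉ UU E' n := by
      intro E E' m hEE hm hm'
      rw [mem_UU] at hm hm'
      have h3 : 2 ^ E + 2 ^ E = 2 ^ (E + 1) := by ring
      have h4 : 2 ^ (E + 1) ≤ 2 ^ E' := Nat.pow_le_pow_right (by norm_num) hEE
      omega
    intro E _ E' _ hne
    rw [Function.onFun, disjoint_left]
    intro m hm hm'
    rcases lt_or_gt_of_ne hne with h | h
    · exact key E E' m h hm hm'
    · exact key E' E m h hm' hm

theorem tail_sum : ∃ K : ℝ, 0 < K ∧ ∀ E0 E1 y : ℕ, 1 ≤ y → y ≤ 2 ^ (E0 + 1) →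
    ∑ E ∈ Ico E0 E1, ((E : ℝ) + 1) ^ 7 / 2 ^ E ≤ K / Real.sqrt y := by
  set r : ℝ := Real.sqrt (1 / 2) with hr
  have hr0 : 0 < r := Real.sqrt_pos.2 (by norm_num)
  have hr2 : r * r = 1 / 2 := Real.mul_self_sqrt (by norm_num)
  have hr1 : r < 1 := by
    by_contra h
    push Not at h
    nlinarith
  have hsum : Summable (fun E : ℕ => ((E : ℝ) + 1) ^ 7 * r ^ E) := by
    have h1 := summable_pow_mul_geometric_of_norm_lt_one (R := ℝ) 7 (r := r) (by
      rw [Real.norm_of_nonneg hr0.le]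
      exact hr1)
    have h2 := (summable_nat_add_iff 1).2 h1
    have h3 : (fun E : ℕ => ((E : ℝ) + 1) ^ 7 * r ^ E) =
        fun E : ℕ => r⁻¹ * ((((E + 1 : ℕ) : ℝ)) ^ 7 * r ^ (E + 1)) := by
      funext E
      push_cast
      rw [pow_succ r E]
      field_simp
    rw [h3]
    exact h2.mul_left _
  set Z := ∑' E : ℕ, ((E : ℝ) + 1) ^ 7 * r ^ E with hZ
  have hZ0 : 0 ≤ Z := tsum_nonneg fun E => by positivity
  refine ⟨2 * (Z + 1), by positivity, ?_⟩
  intro E0 E1 y hy hyE
  have hyR : (1 : ℝ) ≤ y := by exact_mod_cast hy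
  have hsq : 0 < Real.sqrt y := Real.sqrt_pos.2 (by linarith)
  have h1 : ∀ E ∈ Ico E0 E1, ((E : ℝ) + 1) ^ 7 / 2 ^ E ≤
      r ^ E0 * (((E : ℝ) + 1) ^ 7 * r ^ E) := by
    intro E hE
    rw [mem_Ico] at hE
    have h2 : (1 : ℝ) / 2 ^ E = r ^ E * r ^ E := by
      rw [← mul_pow, hr2, one_div_pow]
    have h3 : r ^ E ≤ r ^ E0 := pow_le_pow_of_le_one hr0.le hr1.le hE.1
    have h4 : 0 ≤ ((E : ℝ) + 1) ^ 7 * r ^ E := by positivity
    calc ((E : ℝ) + 1) ^ 7 / 2 ^ E = ((E : ℝ) + 1) ^ 7 * (1 / 2 ^ E) := by ring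
      _ = r ^ E * (((E : ℝ) + 1) ^ 7 * r ^ E) := by rw [h2]; ring
      _ ≤ _ := mul_le_mul_of_nonneg_right h3 h4
  have h5 : r ^ E0 ≤ 2 / Real.sqrt y := by
    rw [le_div_iff₀ hsq]
    have h6 : (r ^ E0 * Real.sqrt y) ^ 2 ≤ 2 ^ 2 := by
      rw [mul_pow, Real.sq_sqrt (by linarith), ← pow_mul, mul_comm E0 2, pow_mul, sq, hr2]
      have h7 : (y : ℝ) ≤ 2 ^ (E0 + 1) := by exact_mod_cast hyE
      calc (1 / 2 : ℝ) ^ E0 * y ≤ (1 / 2 : ℝ) ^ E0 * 2 ^ (E0 + 1) :=
            mul_le_mul_of_nonneg_left h7 (by positivity)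
        _ = 2 := by
            rw [pow_succ, ← mul_assoc, ← mul_pow]
            norm_num
        _ ≤ 2 ^ 2 := by norm_num
    exact (pow_le_pow_iff_left₀ (by positivity) (by norm_num) (by norm_num)).1 h6
  have h6 : ∑ E ∈ Ico E0 E1, ((E : ℝ) + 1) ^ 7 * r ^ E ≤ Z :=
    hsum.sum_le_tsum _ (fun _ _ => by positivity)
  calc ∑ E ∈ Ico E0 E1, ((E : ℝ) + 1) ^ 7 / 2 ^ E
      ≤ ∑ E ∈ Ico E0 E1, r ^ E0 * (((E : ℝ) + 1) ^ 7 * r ^ E) := sum_le_sum h1
    _ = r ^ E0 * ∑ E ∈ Ico E0 E1, ((E : ℝ) + 1) ^ 7 * r ^ E := by rw [mul_sum]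
    _ ≤ (2 / Real.sqrt y) * (Z + 1) := by
        refine mul_le_mul h5 (h6.trans (by linarith)) (sum_nonneg fun _ _ => by positivity)
          (by positivity)
    _ = _ := by ring

theorem except : ∃ c C : ℝ, 0 < c ∧ 0 < C ∧ ∀ N y : ℕ, 2 ≤ y → y ≤ N →
    (((Icc 1 N).filter
      (fun n => S2 n < c * Real.log (Real.log N / Real.log y) - C)).card : ℝ) ≤
      C * N / Real.sqrt y := by
  classical
  obtain ⟨A, K, c, hK, hc, hbad⟩ := block_bad
  obtain ⟨K2, hK2, htail⟩ := tail_sum
  set B : ℕ := 2 * (2 * A + 1) with hB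
  set C : ℝ := c / 2 * Real.log (2 * B) + c / 2 * Real.log (8 * A + 1) + 2 * K * K2 + 2 with hC
  have hBR : (2 : ℝ) ≤ B := by
    have : 2 ≤ B := by omega
    exact_mod_cast this
  have hl1 : 0 ≤ Real.log (2 * B) := Real.log_nonneg (by linarith)
  have hAR : (0 : ℝ) ≤ A := Nat.cast_nonneg A
  have hl2 : 0 ≤ Real.log (8 * A + 1) := Real.log_nonneg (by linarith)
  have hC0 : 0 < C := by positivity
  refine ⟨c / 2, C, by positivity, hC0, ?_⟩
  intro N y hy hyN
  have hN : 2 ≤ N := hy.trans hyN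
  have hNR : (2 : ℝ) ≤ N := by exact_mod_cast hN
  have hyR : (2 : ℝ) ≤ y := by exact_mod_cast hy
  have hyNR : (y : ℝ) ≤ N := by exact_mod_cast hyN
  have hlog2 : 0 < Real.log 2 := Real.log_pos one_lt_two
  have hlogN : 0 < Real.log N := Real.log_pos (by linarith)
  have hlogy : Real.log 2 ≤ Real.log y := Real.log_le_log (by norm_num) hyR
  have hlogy0 : 0 < Real.log y := lt_of_lt_of_le hlog2 hlogy
  have hsq : 0 < Real.sqrt y := Real.sqrt_pos.2 (by linarith)
  have hRHS : 0 ≤ C * N / Real.sqrt y := by positivity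
  set L := Nat.log 2 N with hL
  have hN2 : (N : ℝ) ≤ 2 ^ (L + 1) := by
    have := (Nat.lt_pow_succ_log_self one_lt_two N).le
    exact_mod_cast this
  have hlogN2 : Real.log N ≤ ((L : ℝ) + 1) * Real.log 2 := by
    have h1 := Real.log_le_log (by linarith) hN2
    rw [Real.log_pow] at h1
    push_cast at h1
    exact h1
  by_cases hLA : L < 8 * A
  · -- the threshold is negative
    have h1 : Real.log N / Real.log y ≤ 8 * A + 1 := by
      rw [div_le_iff₀ hlogy0]
      have h2 : (L : ℝ) + 1 ≤ 8 * A + 1 := by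
        have : L ≤ 8 * A := by omega
        have : (L : ℝ) ≤ 8 * A := by exact_mod_cast this
        linarith
      calc Real.log N ≤ ((L : ℝ) + 1) * Real.log 2 := hlogN2
        _ ≤ (8 * A + 1) * Real.log 2 := mul_le_mul_of_nonneg_right h2 hlog2.le
        _ ≤ _ := mul_le_mul_of_nonneg_left hlogy (by positivity)
    have h2 : Real.log (Real.log N / Real.log y) ≤ Real.log (8 * A + 1) :=
      Real.log_le_log (by positivity) h1
    have h3 : (Icc 1 N).filter
        (fun n => S2 n < c / 2 * Real.log (Real.log N / Real.log y) - C) = ∅ := by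
      rw [filter_eq_empty_iff]
      intro n _ h
      have h4 := S2_nonneg n
      have h5 : c / 2 * Real.log (Real.log N / Real.log y) ≤ c / 2 * Real.log (8 * A + 1) :=
        mul_le_mul_of_nonneg_left h2 (by positivity)
      have h6 : 0 ≤ c / 2 * Real.log (2 * B) := by positivity
      have h7 : 0 < 2 * K * K2 := by positivity
      rw [hC] at h
      linarith
    rw [h3]
    simpa using hRHS
  push Not at hLA
  set E0 := Nat.log 2 y with hE0
  set E1 := L / B + 1 with hE1
  -- the bad set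
  set bad : Finset ℕ := (Icc 1 N).filter (fun n => n ≤ 2 ^ E1) ∪
    (Ico E0 E1).biUnion
      (fun E => (Icc 1 N).filter (fun n => cb E n < c * 2 ^ E / ((E : ℝ) + 1))) with hbaddef
  have hsub : (Icc 1 N).filter
      (fun n => S2 n < c / 2 * Real.log (Real.log N / Real.log y) - C) ⊆ bad := by
    intro n hn
    rw [mem_filter] at hn
    by_contra hnb
    rw [hbaddef, mem_union, not_or, mem_filter, mem_biUnion] at hnb
    obtain ⟨hnb1, hnb2⟩ := hnb
    have hn1 : 2 ^ E1 < n := by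
      by_contra h
      exact hnb1 ⟨hn.1, by omega⟩
    have hgood : ∀ E ∈ Ico E0 E1, c * 2 ^ E / ((E : ℝ) + 1) ≤ cb E n := by
      intro E hE
      by_contra h
      exact hnb2 ⟨E, hE, mem_filter.2 ⟨hn.1, not_le.1 h⟩⟩
    have hS := S2_ge_blocks n E0 E1 hn1
    have h1 : c / 2 * ∑ E ∈ Ico E0 E1, 1 / ((E : ℝ) + 1) ≤ S2 n := by
      refine le_trans ?_ hS
      rw [mul_sum]
      refine sum_le_sum fun E hE => ?_
      have h2 := hgood E hE
      rw [le_div_iff₀ (by positivity)]
      refine le_trans (le_of_eq ?_) h2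
      rw [pow_succ]
      field_simp
    have h2 : c / 2 * (Real.log (Real.log N / Real.log y) - Real.log (2 * B)) ≤ S2 n := by
      rcases le_or_gt E0 E1 with h | h
      · refine le_trans ?_ h1
        refine mul_le_mul_of_nonneg_left (le_trans ?_ (log_le_sum E0 E1 h)) (by positivity)
        rw [← Real.log_div (by positivity) (by positivity)]
        apply Real.log_le_log (by positivity)
        rw [div_div, div_le_div_iff₀ (by positivity) (by positivity)]
        -- `E1 + 1 ≥ log N / (B log 2)`, `E0 + 1 ≤ 2 log y / log 2`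
        have h3 : ((E0 : ℝ) + 1) * Real.log 2 ≤ 2 * Real.log y := by
          have h4 : ((2 ^ E0 : ℕ) : ℝ) ≤ y := by
            exact_mod_cast Nat.pow_log_le_self 2 (by omega)
          have h5 := Real.log_le_log (by positivity) h4
          push_cast at h5
          rw [Real.log_pow] at h5
          nlinarith
        have h4 : (L : ℝ) + 1 ≤ B * ((E1 : ℝ) + 1) := by
          have h5 : L < B * (L / B + 1) := by
            have := Nat.lt_mul_div_succ L (show 0 < B by omega)
            simpa using this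
          have h6 : L + 1 ≤ B * (E1 + 1) := by
            calc L + 1 ≤ B * (L / B + 1) := h5
              _ ≤ B * (E1 + 1) := Nat.mul_le_mul_left _ (by omega)
          exact_mod_cast h6
        calc Real.log N * ((E0 : ℝ) + 1)
            ≤ (((L : ℝ) + 1) * Real.log 2) * ((E0 : ℝ) + 1) :=
              mul_le_mul_of_nonneg_right hlogN2 (by positivity)
          _ = ((L : ℝ) + 1) * (((E0 : ℝ) + 1) * Real.log 2) := by ring
          _ ≤ (B * ((E1 : ℝ) + 1)) * (2 * Real.log y) := by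
              refine mul_le_mul h4 h3 (by positivity) (by positivity)
          _ = ((E1 : ℝ) + 1) * (Real.log y * (2 * B)) := by ring
      · refine le_trans ?_ (S2_nonneg n)
        have h3 : Real.log N / Real.log y ≤ 2 * B := by
          rw [div_le_iff₀ hlogy0]
          have h4 : (L : ℝ) + 1 ≤ B * ((E0 : ℝ)) := by
            have h5 : L < B * (L / B + 1) := by
              have := Nat.lt_mul_div_succ L (show 0 < B by omega)
              simpa using this
            have h6 : L + 1 ≤ B * E0 := by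
              calc L + 1 ≤ B * (L / B + 1) := h5
                _ ≤ B * E0 := Nat.mul_le_mul_left _ (by omega)
            exact_mod_cast h6
          have h7 : (E0 : ℝ) * Real.log 2 ≤ Real.log y := by
            have h4 : ((2 ^ E0 : ℕ) : ℝ) ≤ y := by
              exact_mod_cast Nat.pow_log_le_self 2 (by omega)
            have h5 := Real.log_le_log (by positivity) h4
            push_cast at h5
            rwa [Real.log_pow] at h5
          calc Real.log N ≤ ((L : ℝ) + 1) * Real.log 2 := hlogN2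
            _ ≤ (B * (E0 : ℝ)) * Real.log 2 := mul_le_mul_of_nonneg_right h4 hlog2.le
            _ = B * ((E0 : ℝ) * Real.log 2) := by ring
            _ ≤ B * Real.log y := mul_le_mul_of_nonneg_left h7 (by positivity)
            _ ≤ 2 * B * Real.log y := by
                have : 0 ≤ (B : ℝ) * Real.log y := by positivity
                linarith
        have h4 := Real.log_le_log (by positivity) h3
        have h5 : Real.log (Real.log N / Real.log y) - Real.log (2 * B) ≤ 0 := by linarith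
        exact mul_nonpos_of_nonneg_of_nonpos (by positivity) h5
    have h3 := hn.2
    rw [hC] at h3
    have h6 : 0 ≤ c / 2 * Real.log (8 * A + 1) := by positivity
    have h7 : 0 < 2 * K * K2 := by positivity
    rw [mul_sub] at h2
    linarith
  have hcard : (((Icc 1 N).filter
      (fun n => S2 n < c / 2 * Real.log (Real.log N / Real.log y) - C)).card : ℝ) ≤
      (bad.card : ℝ) := by
    exact_mod_cast card_le_card hsub
  refine hcard.trans ?_
  have h1 : (((Icc 1 N).filter (fun n => n ≤ 2 ^ E1)).card : ℝ) ≤ 2 ^ E1 := by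
    have h2 : ((Icc 1 N).filter (fun n => n ≤ 2 ^ E1)).card ≤ (Icc 1 (2 ^ E1)).card := by
      apply card_le_card
      intro n hn
      rw [mem_filter, mem_Icc] at hn
      rw [mem_Icc]
      omega
    rw [Nat.card_Icc, Nat.add_sub_cancel] at h2
    exact_mod_cast h2
  have h2 : ((2 : ℝ)) ^ E1 ≤ 2 * (N / Real.sqrt y) := by
    have h3 : ((2 : ℝ) ^ (L / B)) ^ 2 ≤ N := by
      have h4 : 2 ^ L ≤ N := Nat.pow_log_le_self 2 (by omega)
      have h5 : (2 : ℝ) ^ L ≤ N := by exact_mod_cast h4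
      refine le_trans ?_ h5
      rw [← pow_mul]
      apply pow_le_pow_right₀ (by norm_num)
      have h6 : L / B * B ≤ L := Nat.div_mul_le_self L B
      have h7 : L / B * 2 ≤ L / B * B := Nat.mul_le_mul_left _ (by omega)
      omega
    have h4 : (2 : ℝ) ^ (L / B) ≤ Real.sqrt N := by
      rw [← Real.sqrt_sq (by positivity : (0 : ℝ) ≤ 2 ^ (L / B))]
      exact Real.sqrt_le_sqrt h3
    have h5 : Real.sqrt N ≤ N / Real.sqrt y := by
      rw [le_div_iff₀ hsq]
      calc Real.sqrt N * Real.sqrt y ≤ Real.sqrt N * Real.sqrt N :=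
            mul_le_mul_of_nonneg_left (Real.sqrt_le_sqrt hyNR) (Real.sqrt_nonneg _)
        _ = N := Real.mul_self_sqrt (by linarith)
    rw [hE1, pow_succ]
    linarith
  have h3 : ∀ E ∈ Ico E0 E1,
      (((Icc 1 N).filter (fun n => cb E n < c * 2 ^ E / ((E : ℝ) + 1))).card : ℝ) ≤
      2 * K * N * (((E : ℝ) + 1) ^ 7 / 2 ^ E) := by
    intro E hE
    rw [mem_Ico] at hE
    refine (hbad E N).trans ?_
    have h4 : (4 : ℝ) ^ (A * (E + 2)) ≤ N / 2 ^ E := by
      rw [le_div_iff₀ (by positivity)]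
      have h5 : (2 : ℝ) ^ L ≤ N := by
        have : 2 ^ L ≤ N := Nat.pow_log_le_self 2 (by omega)
        exact_mod_cast this
      refine le_trans ?_ h5
      have h6 : (4 : ℝ) ^ (A * (E + 2)) = 2 ^ (2 * (A * (E + 2))) := by
        rw [show (4 : ℝ) = 2 ^ 2 by norm_num, ← pow_mul]
      rw [h6, ← pow_add]
      apply pow_le_pow_right₀ (by norm_num)
      have h7 : E ≤ L / B := by omega
      have h8 : B * E ≤ L := by
        calc B * E ≤ B * (L / B) := Nat.mul_le_mul_left _ h7
          _ ≤ L := Nat.mul_div_le L B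
      have h9 : 2 * (2 * (A * (E + 2)) + E) = B * E + 8 * A := by
        rw [hB]
        ring
      omega
    have h5 : 0 ≤ K * ((E : ℝ) + 1) ^ 7 := by positivity
    calc K * ((E : ℝ) + 1) ^ 7 * (N / 2 ^ E + 4 ^ (A * (E + 2)))
        ≤ K * ((E : ℝ) + 1) ^ 7 * (N / 2 ^ E + N / 2 ^ E) :=
          mul_le_mul_of_nonneg_left (by linarith) h5
      _ = _ := by ring
  have h4 : (bad.card : ℝ) ≤ 2 * (N / Real.sqrt y) +
      ∑ E ∈ Ico E0 E1, 2 * K * N * (((E : ℝ) + 1) ^ 7 / 2 ^ E) := by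
    have h5 : (bad.card : ℝ) ≤ (((Icc 1 N).filter (fun n => n ≤ 2 ^ E1)).card : ℝ) +
        ∑ E ∈ Ico E0 E1,
          (((Icc 1 N).filter (fun n => cb E n < c * 2 ^ E / ((E : ℝ) + 1))).card : ℝ) := by
      have h6 := card_union_le ((Icc 1 N).filter (fun n => n ≤ 2 ^ E1)) ((Ico E0 E1).biUnion
        (fun E => (Icc 1 N).filter (fun n => cb E n < c * 2 ^ E / ((E : ℝ) + 1))))
      have h7 := card_biUnion_le (s := Ico E0 E1)
        (t := fun E => (Icc 1 N).filter (fun n => cb E n < c * 2 ^ E / ((E : ℝ) + 1)))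
      have h8 := h6.trans (Nat.add_le_add_left h7 _)
      rw [← hbaddef] at h8
      have h9 := (Nat.cast_le (α := ℝ)).2 h8
      rw [Nat.cast_add, Nat.cast_sum] at h9
      exact h9
    exact h5.trans (add_le_add (h1.trans h2) (sum_le_sum h3))
  have h5 := htail E0 E1 y (by omega) (by
    rw [hE0]
    exact (Nat.lt_pow_succ_log_self one_lt_two y).le)
  rw [← mul_sum] at h4
  have h6 : 2 * K * N * ∑ E ∈ Ico E0 E1, ((E : ℝ) + 1) ^ 7 / 2 ^ E ≤
      2 * K * N * (K2 / Real.sqrt y) := mul_le_mul_of_nonneg_left h5 (by positivity)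
  have h7 : 2 * (N / Real.sqrt y) + 2 * K * N * (K2 / Real.sqrt y) =
      (2 * K * K2 + 2) * N / Real.sqrt y := by
    field_simp
    ring
  have h8 : (2 * K * K2 + 2) * N / Real.sqrt y ≤ C * N / Real.sqrt y := by
    apply div_le_div_of_nonneg_right _ hsq.le
    apply mul_le_mul_of_nonneg_right _ (by linarith)
    rw [hC]
    have h9 : 0 ≤ c / 2 * Real.log (2 * B) := by positivity
    have h10 : 0 ≤ c / 2 * Real.log (8 * A + 1) := by positivity
    linarith
  linarith

end Pool.Agent.Helper32.CS
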