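import Mathlib
import Pool.Agent.Helper32.CS.BlockE
import Pool.Agent.Helper32.CS.Except

set_option autoImplicit false

/-! The exceptional set with the sharp constant. -/

namespace Pool.Agent.Helper32.CS

open Finset Pool.Agent.Helper16.UB Pool.Agent.Helper4.CoprimeShift

open scoped Classical in
/-- the summand of `S2` -/
noncomputable def fr (n m : ℕ) : ℝ := if Free n m then 1 / (m : ℝ) else 0

theorem fr_nonneg (n m : ℕ) : 0 ≤ fr n m := by
  unfold fr
  split_ifs <;> positivity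

theorem block_sum_ge (M H n : ℕ) (hn : M + H < n) :
    cM M H n / ((M + H : ℕ) : ℝ) ≤ ∑ m ∈ Ioc M (M + H), fr n m := by
  classical
  set U := (Ioc M (M + H)).filter (fun m => ∀ q ∈ PL (M + H), ¬ n ≡ m [MOD q]) with hU
  have h1 : cM M H n = (U.card : ℝ) := by
    unfold cM
    rw [hU]
  rw [h1, div_eq_mul_one_div, ← nsmul_eq_mul, ← sum_const]
  calc ∑ m ∈ U, 1 / ((M + H : ℕ) : ℝ) ≤ ∑ m ∈ U, fr n m := by
        refine sum_le_sum fun m hm => ?_
        rw [hU, mem_filter, mem_Ioc] at hm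
        have hfree : Free n m := by
          intro p hp hpd
          by_contra h
          push Not at h
          have h3 : p ∈ PL (M + H) := by
            rw [mem_PL]
            exact ⟨by omega, hp⟩
          have hmn : m ≤ n := by omega
          exact hm.2 p h3 ((Nat.modEq_iff_dvd' hmn).2 hpd).symm
        unfold fr
        rw [if_pos hfree]
        have h4 : (m : ℝ) ≤ ((M + H : ℕ) : ℝ) := by exact_mod_cast hm.1.2
        have h5 : (0 : ℝ) < m := by
          have : 0 < m := by omega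
          exact_mod_cast this
        exact one_div_le_one_div_of_le h5 h4
    _ ≤ ∑ m ∈ Ioc M (M + H), fr n m :=
        sum_le_sum_of_subset_of_nonneg (filter_subset _ _) fun m _ _ => fr_nonneg n m

theorem S2_ge_fr (n a b : ℕ) (hn : b < n) : ∑ m ∈ Ioc a b, fr n m ≤ S2 n := by
  classical
  refine le_trans ?_ (S2_ge n)
  have h1 : ∑ m ∈ (Ico 1 n).filter (Free n), (1 : ℝ) / m = ∑ m ∈ Ico 1 n, fr n m := by
    rw [sum_filter]
    refine sum_congr rfl fun m _ => ?_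
    unfold fr
    congr
  rw [h1]
  refine sum_le_sum_of_subset_of_nonneg ?_ fun m _ _ => fr_nonneg n m
  intro m hm
  rw [mem_Ioc] at hm
  rw [mem_Ico]
  omega

theorem tile2 (f : ℕ → ℝ) (E0 E1 k : ℕ) (hk : k ≤ E0) (hE : E0 ≤ E1) :
    ∑ m ∈ Ioc (2 ^ E0) (2 ^ E1), f m = ∑ E ∈ Ico E0 E1, ∑ i ∈ range (2 ^ k),
      ∑ m ∈ Ioc (2 ^ E + i * 2 ^ (E - k)) (2 ^ E + i * 2 ^ (E - k) + 2 ^ (E - k)), f m := by
  rw [sum_tile (fun E => 2 ^ E) (fun i j h => Nat.pow_le_pow_right (by norm_num) h) f E0 E1 hE]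
  refine sum_congr rfl fun E hEm => ?_
  rw [mem_Ico] at hEm
  have h := sum_tile (fun i => 2 ^ E + i * 2 ^ (E - k))
    (fun i j h => Nat.add_le_add_left (Nat.mul_le_mul_right _ h) _) f 0 (2 ^ k) (Nat.zero_le _)
  have h1 : 2 ^ E + 2 ^ k * 2 ^ (E - k) = 2 ^ (E + 1) := by
    rw [← pow_add, show k + (E - k) = E by omega]
    ring
  simp only [zero_mul, add_zero, h1] at h
  rw [h, range_eq_Ico]
  refine sum_congr rfl fun i _ => ?_
  rw [show 2 ^ E + (i + 1) * 2 ^ (E - k) = 2 ^ E + i * 2 ^ (E - k) + 2 ^ (E - k) by ring]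

theorem S2_ge_good (n E0 E1 k : ℕ) (ε δ : ℝ) (hk : k ≤ E0) (hE : E0 ≤ E1) (hn : 2 ^ E1 < n)
    (hδ : (1 / 2 : ℝ) ^ k ≤ δ) (hδ1 : δ ≤ 1) (hε1 : 2 * ε ≤ 1)
    (hgood : ∀ E ∈ Ico E0 E1, ∀ i ∈ range (2 ^ k), (1 - 2 * ε) * (((2 ^ (E - k) : ℕ) : ℝ) *
      VV (2 ^ E + i * 2 ^ (E - k) + 2 ^ (E - k))) ≤
        cM (2 ^ E + i * 2 ^ (E - k)) (2 ^ (E - k)) n) :
    (1 - 2 * ε) * (1 - δ) ^ 2 * (LL (2 ^ E1) - LL (2 ^ E0)) ≤ S2 n := by
  have hδ0 : 0 ≤ δ := le_trans (by positivity) hδ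
  refine le_trans ?_ (S2_ge_fr n (2 ^ E0) (2 ^ E1) hn)
  rw [LL_sub (Nat.pow_le_pow_right (by norm_num) hE), tile2 _ E0 E1 k hk hE,
    tile2 (fr n) E0 E1 k hk hE, mul_sum]
  refine sum_le_sum fun E hEm => ?_
  rw [mul_sum]
  refine sum_le_sum fun i hi => ?_
  have hg := hgood E hEm i hi
  rw [mem_Ico] at hEm
  rw [mem_range] at hi
  have h1 : (i + 1) * 2 ^ (E - k) ≤ 2 ^ E := by
    calc (i + 1) * 2 ^ (E - k) ≤ 2 ^ k * 2 ^ (E - k) := Nat.mul_le_mul_right _ hi
      _ = 2 ^ E := by rw [← pow_add, show k + (E - k) = E by omega]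
  have h2 : 2 ^ E + i * 2 ^ (E - k) + 2 ^ (E - k) ≤ 2 ^ (E + 1) := by
    have e1 : (i + 1) * 2 ^ (E - k) = i * 2 ^ (E - k) + 2 ^ (E - k) := by ring
    have e2 : 2 ^ (E + 1) = 2 ^ E + 2 ^ E := by ring
    omega
  have h3 : 2 ^ (E + 1) ≤ 2 ^ E1 := Nat.pow_le_pow_right (by norm_num) (by omega)
  have hM1 : 1 ≤ 2 ^ E + i * 2 ^ (E - k) := by
    have := Nat.one_le_two_pow (n := E)
    omega
  have hH : ((2 ^ (E - k) : ℕ) : ℝ) ≤ δ * ((2 ^ E + i * 2 ^ (E - k) : ℕ) : ℝ) := by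
    have e1 : ((2 ^ (E - k) : ℕ) : ℝ) = (1 / 2 : ℝ) ^ k * 2 ^ E := by
      have : (2 : ℝ) ^ E = 2 ^ k * 2 ^ (E - k) := by
        rw [← pow_add, show k + (E - k) = E by omega]
      rw [this, one_div_pow]
      push_cast
      field_simp
    rw [e1]
    apply mul_le_mul hδ _ (by positivity) hδ0
    push_cast
    have : (0 : ℝ) ≤ i * 2 ^ (E - k) := by positivity
    linarith
  exact (good_block _ _ n δ ε hM1 hδ0 hδ1 hε1 hH hg).trans (block_sum_ge _ _ n (by omega))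

theorem except_eps (η : ℝ) (hη : 0 < η) (hη1 : η < 1) : ∃ C : ℝ, 0 < C ∧ ∀ N y : ℕ, 2 ≤ y →
    y ≤ N → (((Icc 1 N).filter (fun n => S2 n < (1 - η) * (LL N - LL y) - C)).card : ℝ) ≤
      C * N / Real.sqrt y := by
  classical
  set ε := η / 8 with hε
  set δ := η / 4 with hδdef
  have hε0 : 0 < ε := by rw [hε]; positivity
  have hδ0 : 0 < δ := by rw [hδdef]; positivity
  obtain ⟨k, hk⟩ := exists_pow_lt_of_lt_one hδ0 (by norm_num : (1 / 2 : ℝ) < 1)
  obtain ⟨A, K, hK, hbad⟩ := block_bad_eps ε hε0 (by rw [hε]; linarith)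
  obtain ⟨K2, hK2, htail⟩ := tail_sum
  set B : ℕ := 2 * (2 * A + 1) with hB
  set Q : ℝ := 2 ^ k * (2 ^ k + 1) * K * K2 with hQ
  have hQ0 : 0 < Q := by positivity
  set C : ℝ := LL (2 ^ (8 * A)) + 4 * B + 2 ^ k + 2 + Q with hC
  have hLL8 := LL_nonneg (2 ^ (8 * A))
  have hBR : (2 : ℝ) ≤ B := by
    have : 2 ≤ B := by omega
    exact_mod_cast this
  have h2k : (0 : ℝ) < 2 ^ k := by positivity
  have hC0 : 0 < C := by positivity
  have hcoef : 1 - η ≤ (1 - 2 * ε) * (1 - δ) ^ 2 := by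
    rw [hε, hδdef]
    nlinarith [sq_nonneg η, mul_pos hη hη, mul_pos (mul_pos hη hη) hη]
  refine ⟨C, hC0, ?_⟩
  intro N y hy hyN
  have hN : 2 ≤ N := hy.trans hyN
  have hNR : (2 : ℝ) ≤ N := by exact_mod_cast hN
  have hyR : (2 : ℝ) ≤ y := by exact_mod_cast hy
  have hyNR : (y : ℝ) ≤ N := by exact_mod_cast hyN
  have hsq : 0 < Real.sqrt y := Real.sqrt_pos.2 (by linarith)
  have hRHS : 0 ≤ C * N / Real.sqrt y := by positivity
  set L := Nat.log 2 N with hL
  have hN2 : N ≤ 2 ^ (L + 1) := (Nat.lt_pow_succ_log_self one_lt_two N).le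
  have hLLy := LL_nonneg y
  have hη1' : 0 ≤ 1 - η := by linarith
  have hempty : (1 - η) * (LL N - LL y) - C ≤ 0 →
      (((Icc 1 N).filter (fun n => S2 n < (1 - η) * (LL N - LL y) - C)).card : ℝ) ≤
        C * N / Real.sqrt y := by
    intro h
    have h3 : (Icc 1 N).filter (fun n => S2 n < (1 - η) * (LL N - LL y) - C) = ∅ := by
      rw [filter_eq_empty_iff]
      intro n _ h'
      have := S2_nonneg n
      linarith
    rw [h3]
    simpa using hRHS
  by_cases hLA : L < 8 * A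
  · apply hempty
    have h1 : LL N ≤ LL (2 ^ (8 * A)) :=
      LL_mono (hN2.trans (Nat.pow_le_pow_right (by norm_num) (by omega)))
    have h2 : (1 - η) * (LL N - LL y) ≤ LL N := by
      have h3 : (1 - η) * (LL N - LL y) ≤ (1 - η) * LL N :=
        mul_le_mul_of_nonneg_left (by linarith) hη1'
      have h4 : (1 - η) * LL N ≤ LL N := mul_le_of_le_one_left (LL_nonneg N) (by linarith)
      linarith
    have h5 : (0 : ℝ) ≤ 4 * B := by positivity
    linarith
  push Not at hLA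
  set E0 := Nat.log 2 y + k with hE0
  set E1 := L / B + 1 with hE1
  -- comparison of LL
  have hLL1 : LL N ≤ LL (2 ^ E1) + 4 * B := by
    have h1 : E1 ≤ L + 1 := by
      have := Nat.div_le_self L B
      omega
    have h2 := LL_pow_sub_le E1 (L + 1) h1
    have h3 : ∑ E ∈ Ico E1 (L + 1), 1 / ((E : ℝ) + 1) ≤ B := by
      calc ∑ E ∈ Ico E1 (L + 1), 1 / ((E : ℝ) + 1)
          ≤ ∑ E ∈ Ico E1 (L + 1), 1 / ((E1 : ℝ) + 1) := by
            refine sum_le_sum fun E hE => ?_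
            rw [mem_Ico] at hE
            have : (E1 : ℝ) ≤ E := by exact_mod_cast hE.1
            exact one_div_le_one_div_of_le (by positivity) (by linarith)
        _ = ((L + 1 - E1 : ℕ) : ℝ) * (1 / ((E1 : ℝ) + 1)) := by
            rw [sum_const, Nat.card_Ico, nsmul_eq_mul]
        _ ≤ ((L : ℝ) + 1) * (1 / ((E1 : ℝ) + 1)) := by
            apply mul_le_mul_of_nonneg_right _ (by positivity)
            have : L + 1 - E1 ≤ L + 1 := Nat.sub_le _ _
            exact_mod_cast this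
        _ ≤ B := by
            rw [mul_one_div, div_le_iff₀ (by positivity)]
            have h5 : L < B * (L / B + 1) := by
              have := Nat.lt_mul_div_succ L (show 0 < B by omega)
              simpa using this
            have h6 : L + 1 ≤ B * (E1 + 1) := by
              calc L + 1 ≤ B * (L / B + 1) := h5
                _ ≤ B * (E1 + 1) := Nat.mul_le_mul_left _ (by omega)
            exact_mod_cast h6
    have h4 := LL_mono hN2
    linarith
  have hLL0 : LL (2 ^ E0) ≤ LL y + 2 ^ k := by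
    have h1 : 2 ^ E0 ≤ y + y * 2 ^ k := by
      rw [hE0, pow_add]
      have h2 : 2 ^ Nat.log 2 y ≤ y := Nat.pow_log_le_self 2 (by omega)
      have h3 := Nat.mul_le_mul_right (2 ^ k) h2
      omega
    have h2 := LL_sub_le_trivial y (y * 2 ^ k) (by omega)
    have h3 := LL_mono h1
    have h4 : ((y * 2 ^ k : ℕ) : ℝ) / y = 2 ^ k := by
      push_cast
      field_simp
    rw [h4] at h2
    linarith
  rcases le_or_gt E0 E1 with hE01 | hE01
  swap
  · apply hempty
    have h1 : LL (2 ^ E1) ≤ LL (2 ^ E0) :=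
      LL_mono (Nat.pow_le_pow_right (by norm_num) hE01.le)
    have h2 : LL N - LL y ≤ 4 * B + 2 ^ k := by linarith
    have h3 : (1 - η) * (LL N - LL y) ≤ (1 - η) * (4 * B + 2 ^ k) :=
      mul_le_mul_of_nonneg_left h2 hη1'
    have h4 : (1 - η) * (4 * B + 2 ^ k) ≤ 4 * (B : ℝ) + 2 ^ k :=
      mul_le_of_le_one_left (by positivity) (by linarith)
    linarith
  -- the bad set
  set gd : ℕ → ℕ → ℕ → Prop := fun E i n => cM (2 ^ E + i * 2 ^ (E - k)) (2 ^ (E - k)) n <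
    (1 - 2 * ε) * (((2 ^ (E - k) : ℕ) : ℝ) * VV (2 ^ E + i * 2 ^ (E - k) + 2 ^ (E - k))) with hgd
  set bad : Finset ℕ := (Icc 1 N).filter (fun n => n ≤ 2 ^ E1) ∪
    (Ico E0 E1).biUnion (fun E => (range (2 ^ k)).biUnion
      (fun i => (Icc 1 N).filter (fun n => gd E i n))) with hbaddef
  have hsub : (Icc 1 N).filter (fun n => S2 n < (1 - η) * (LL N - LL y) - C) ⊆ bad := by
    intro n hn
    rw [mem_filter] at hn
    by_contra hnb
    rw [hbaddef, mem_union, not_or, mem_filter, mem_biUnion] at hnb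
    obtain ⟨hnb1, hnb2⟩ := hnb
    have hn1 : 2 ^ E1 < n := by
      by_contra h
      exact hnb1 ⟨hn.1, by omega⟩
    have h1 := S2_ge_good n E0 E1 k ε δ (by omega) hE01 hn1 hk.le (by rw [hδdef]; linarith)
      (by rw [hε]; linarith) (by
        intro E hE i hi
        by_contra h
        exact hnb2 ⟨E, hE, mem_biUnion.2 ⟨i, hi, mem_filter.2 ⟨hn.1, not_le.1 h⟩⟩⟩)
    have h2 : 0 ≤ LL (2 ^ E1) - LL (2 ^ E0) := by
      have := LL_mono (Nat.pow_le_pow_right (n := 2) (by norm_num) hE01)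
      linarith
    have h3 : (1 - η) * (LL (2 ^ E1) - LL (2 ^ E0)) ≤ S2 n :=
      (mul_le_mul_of_nonneg_right hcoef h2).trans h1
    have h4 : LL N - LL y ≤ (LL (2 ^ E1) - LL (2 ^ E0)) + (4 * B + 2 ^ k) := by linarith
    have h5 := mul_le_mul_of_nonneg_left h4 hη1'
    rw [mul_add] at h5
    have h6 : (1 - η) * (4 * B + 2 ^ k) ≤ 4 * (B : ℝ) + 2 ^ k :=
      mul_le_of_le_one_left (by positivity) (by linarith)
    have h7 := hn.2
    linarith
  have hcard : (((Icc 1 N).filter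
      (fun n => S2 n < (1 - η) * (LL N - LL y) - C)).card : ℝ) ≤ (bad.card : ℝ) := by
    exact_mod_cast card_le_card hsub
  refine hcard.trans ?_
  have h1 : (((Icc 1 N).filter (fun n => n ≤ 2 ^ E1)).card : ℝ) ≤ 2 ^ E1 := by
    have h2 : ((Icc 1 N).filter (fun n => n ≤ 2 ^ E1)).card ≤ (Icc 1 (2 ^ E1)).card := by
      apply card_le_card
      intro n hn
      rw [mem_filter, mem_Icc] at hn
      rw [mem_Icc]
      omega
    rw [Nat.card_Icc, Nat.add_sub_cancel] at h2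
    exact_mod_cast h2
  have h2 : ((2 : ℝ)) ^ E1 ≤ 2 * (N / Real.sqrt y) := by
    have h3 : ((2 : ℝ) ^ (L / B)) ^ 2 ≤ N := by
      have h4 : 2 ^ L ≤ N := Nat.pow_log_le_self 2 (by omega)
      have h5 : (2 : ℝ) ^ L ≤ N := by exact_mod_cast h4
      refine le_trans ?_ h5
      rw [← pow_mul]
      apply pow_le_pow_right₀ (by norm_num)
      have h6 : L / B * B ≤ L := Nat.div_mul_le_self L B
      have h7 : L / B * 2 ≤ L / B * B := Nat.mul_le_mul_left _ (by omega)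
      omega
    have h4 : (2 : ℝ) ^ (L / B) ≤ Real.sqrt N := by
      rw [← Real.sqrt_sq (by positivity : (0 : ℝ) ≤ 2 ^ (L / B))]
      exact Real.sqrt_le_sqrt h3
    have h5 : Real.sqrt N ≤ N / Real.sqrt y := by
      rw [le_div_iff₀ hsq]
      calc Real.sqrt N * Real.sqrt y ≤ Real.sqrt N * Real.sqrt N :=
            mul_le_mul_of_nonneg_left (Real.sqrt_le_sqrt hyNR) (Real.sqrt_nonneg _)
        _ = N := Real.mul_self_sqrt (by linarith)
    rw [hE1, pow_succ]
    linarith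
  have h3 : ∀ E ∈ Ico E0 E1, ∀ i ∈ range (2 ^ k),
      (((Icc 1 N).filter (fun n => gd E i n)).card : ℝ) ≤
      (2 ^ k + 1) * K * N * (((E : ℝ) + 1) ^ 7 / 2 ^ E) := by
    intro E hE i hi
    rw [mem_Ico] at hE
    rw [mem_range] at hi
    have hkE : k ≤ E := by omega
    have hMH : 2 ^ E + i * 2 ^ (E - k) + 2 ^ (E - k) ≤ 2 ^ (E + 1) := by
      have h1 : (i + 1) * 2 ^ (E - k) ≤ 2 ^ E := by
        calc (i + 1) * 2 ^ (E - k) ≤ 2 ^ k * 2 ^ (E - k) := Nat.mul_le_mul_right _ hi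
          _ = 2 ^ E := by rw [← pow_add, show k + (E - k) = E by omega]
      have e1 : (i + 1) * 2 ^ (E - k) = i * 2 ^ (E - k) + 2 ^ (E - k) := by ring
      have e2 : 2 ^ (E + 1) = 2 ^ E + 2 ^ E := by ring
      omega
    refine (hbad E _ _ N Nat.one_le_two_pow hMH).trans ?_
    have h4 : (4 : ℝ) ^ (A * (E + 2)) ≤ N / 2 ^ E := by
      rw [le_div_iff₀ (by positivity)]
      have h5 : (2 : ℝ) ^ L ≤ N := by
        have : 2 ^ L ≤ N := Nat.pow_log_le_self 2 (by omega)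
        exact_mod_cast this
      refine le_trans ?_ h5
      have h6 : (4 : ℝ) ^ (A * (E + 2)) = 2 ^ (2 * (A * (E + 2))) := by
        rw [show (4 : ℝ) = 2 ^ 2 by norm_num, ← pow_mul]
      rw [h6, ← pow_add]
      apply pow_le_pow_right₀ (by norm_num)
      have h7 : E ≤ L / B := by omega
      have h8 : B * E ≤ L := by
        calc B * E ≤ B * (L / B) := Nat.mul_le_mul_left _ h7
          _ ≤ L := Nat.mul_div_le L B
      have h9 : 2 * (2 * (A * (E + 2)) + E) = B * E + 8 * A := by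
        rw [hB]
        ring
      omega
    have h4' : (N : ℝ) / ((2 ^ (E - k) : ℕ) : ℝ) = 2 ^ k * (N / 2 ^ E) := by
      have : (2 : ℝ) ^ E = 2 ^ k * 2 ^ (E - k) := by
        rw [← pow_add, show k + (E - k) = E by omega]
      rw [this]
      push_cast
      field_simp
    have h5 : 0 ≤ K * ((E : ℝ) + 1) ^ 7 := by positivity
    calc K * ((E : ℝ) + 1) ^ 7 * (N / ((2 ^ (E - k) : ℕ) : ℝ) + 4 ^ (A * (E + 2)))
        ≤ K * ((E : ℝ) + 1) ^ 7 * (2 ^ k * (N / 2 ^ E) + N / 2 ^ E) :=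
          mul_le_mul_of_nonneg_left (by rw [h4']; linarith) h5
      _ = _ := by ring
  have h4 : (bad.card : ℝ) ≤ 2 * (N / Real.sqrt y) +
      ∑ E ∈ Ico E0 E1, ∑ i ∈ range (2 ^ k),
        (2 ^ k + 1) * K * N * (((E : ℝ) + 1) ^ 7 / 2 ^ E) := by
    have h5 : (bad.card : ℝ) ≤ (((Icc 1 N).filter (fun n => n ≤ 2 ^ E1)).card : ℝ) +
        ∑ E ∈ Ico E0 E1, ∑ i ∈ range (2 ^ k),
          (((Icc 1 N).filter (fun n => gd E i n)).card : ℝ) := by
      have h6 := card_union_le ((Icc 1 N).filter (fun n => n ≤ 2 ^ E1)) ((Ico E0 E1).biUnion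
        (fun E => (range (2 ^ k)).biUnion (fun i => (Icc 1 N).filter (fun n => gd E i n))))
      have h7 := card_biUnion_le (s := Ico E0 E1)
        (t := fun E => (range (2 ^ k)).biUnion (fun i => (Icc 1 N).filter (fun n => gd E i n)))
      have h8 : ∑ E ∈ Ico E0 E1, ((range (2 ^ k)).biUnion
          (fun i => (Icc 1 N).filter (fun n => gd E i n))).card ≤
          ∑ E ∈ Ico E0 E1, ∑ i ∈ range (2 ^ k), ((Icc 1 N).filter (fun n => gd E i n)).card :=
        sum_le_sum fun E _ => card_biUnion_le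
      have h9 := h6.trans (Nat.add_le_add_left (h7.trans h8) _)
      rw [← hbaddef] at h9
      have h10 := (Nat.cast_le (α := ℝ)).2 h9
      rw [Nat.cast_add, Nat.cast_sum] at h10
      simp only [Nat.cast_sum] at h10
      exact h10
    exact h5.trans (add_le_add (h1.trans h2) (sum_le_sum fun E hE => sum_le_sum (h3 E hE)))
  have h5 := htail E0 E1 y (by omega) (by
    have e1 := (Nat.lt_pow_succ_log_self one_lt_two y).le
    refine e1.trans (Nat.pow_le_pow_right (by norm_num) (by omega)))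
  have h6 : ∑ E ∈ Ico E0 E1, ∑ i ∈ range (2 ^ k),
        (2 ^ k + 1) * K * N * (((E : ℝ) + 1) ^ 7 / 2 ^ E) =
      2 ^ k * (2 ^ k + 1) * K * N * ∑ E ∈ Ico E0 E1, ((E : ℝ) + 1) ^ 7 / 2 ^ E := by
    rw [mul_sum]
    refine sum_congr rfl fun E _ => ?_
    rw [sum_const, card_range, nsmul_eq_mul]
    push_cast
    ring
  rw [h6] at h4
  have h7 : 2 ^ k * (2 ^ k + 1) * K * N * ∑ E ∈ Ico E0 E1, ((E : ℝ) + 1) ^ 7 / 2 ^ E ≤
      2 ^ k * (2 ^ k + 1) * K * N * (K2 / Real.sqrt y) :=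
    mul_le_mul_of_nonneg_left h5 (by positivity)
  have h8 : 2 * (N / Real.sqrt y) + 2 ^ k * (2 ^ k + 1) * K * N * (K2 / Real.sqrt y) =
      (Q + 2) * N / Real.sqrt y := by
    rw [hQ]
    field_simp
    ring
  have h9 : (Q + 2) * N / Real.sqrt y ≤ C * N / Real.sqrt y := by
    apply div_le_div_of_nonneg_right _ hsq.le
    apply mul_le_mul_of_nonneg_right _ (by linarith)
    rw [hC]
    have e1 : (0 : ℝ) ≤ 4 * B := by positivity
    linarith
  linarith

end Pool.Agent.Helper32.CS
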