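import Mathlib
import Pool.Agent.Helper13.Om.Short
import Pool.Agent.Helper4.MeanS1

set_option autoImplicit false

/-! The upper bound `S(n) ≤ C (1 + log log n)` for every `n ≥ 3`. -/

namespace Pool.Agent.Helper32.CS

open Finset Pool.Agent.Helper4.CoprimeShift

/-- the terms of the sequence are positive and different from `n` -/
theorem a_pos_ne (n : ℕ) (hn : 3 ≤ n) : ∀ k : ℕ, 1 ≤ k → 0 < a n k ∧ a n k ≠ n := by
  intro k
  induction k using Nat.strong_induction_on with
  | _ k ih =>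
    intro hk
    obtain ⟨j, rfl⟩ : ∃ j, k = j + 1 := ⟨k - 1, by omega⟩
    rcases Nat.eq_zero_or_pos j with rfl | hj
    · show 0 < a n 1 ∧ a n 1 ≠ n
      rw [a_one]
      omega
    obtain ⟨l, rfl⟩ : ∃ l, j = l + 1 := ⟨j - 1, by omega⟩
    have hne : {m : ℕ | a n (l + 1) < m ∧ ∀ i : Fin (l + 2), 1 ≤ (i : ℕ) →
        Int.gcd ((n : ℤ) - m) ((n : ℤ) - a n i) = 1}.Nonempty := by
      obtain ⟨P, hP1, hP⟩ := Nat.exists_infinite_primes (n + ∑ i ∈ range (l + 2), a n i + 1)
      have hle : ∀ i, i < l + 2 → a n i ≤ ∑ i ∈ range (l + 2), a n i := fun i hi =>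
        single_le_sum (f := fun i => a n i) (fun _ _ => Nat.zero_le _) (mem_range.2 hi)
      refine ⟨n + P, ?_, ?_⟩
      · have := hle (l + 1) (by omega)
        omega
      · intro i hi
        have h1 := hle i i.2
        have h2 := (ih i (by omega) hi).2
        have h3 : (n : ℤ) - ((n + P : ℕ) : ℤ) = -(P : ℤ) := by
          push_cast
          ring
        rw [h3, Int.neg_gcd]
        have h4 : ((n : ℤ) - a n i).natAbs ≠ 0 := by
          rw [Int.natAbs_ne_zero]
          omega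
        have h5 : ((n : ℤ) - a n i).natAbs < P := by omega
        have h6 : Nat.Coprime P ((n : ℤ) - a n i).natAbs := by
          rw [hP.coprime_iff_not_dvd]
          intro h
          have := Nat.le_of_dvd (Nat.pos_of_ne_zero h4) h
          omega
        exact h6
    have hmem := Nat.sInf_mem hne
    rw [← a_succ_succ] at hmem
    refine ⟨lt_of_le_of_lt (Nat.zero_le _) hmem.1, ?_⟩
    intro h
    have h1 := hmem.2 ⟨1, by omega⟩ le_rfl
    have h2 : a n (((⟨1, by omega⟩ : Fin (l + 2)) : ℕ)) = 1 := a_one n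
    rw [h2] at h1
    have h3 : ((n : ℤ) - (a n (l + 2) : ℤ)) = 0 := by
      show ((n : ℤ) - (a n (l + 1 + 1) : ℤ)) = 0
      rw [h]
      ring
    rw [h3] at h1
    rw [Int.gcd_zero_left] at h1
    omega

theorem a_lt_succ (n : ℕ) (hn : 3 ≤ n) (k : ℕ) (hk : 1 ≤ k) : a n k < a n (k + 1) := by
  obtain ⟨l, rfl⟩ : ∃ l, k = l + 1 := ⟨k - 1, by omega⟩
  exact (a_spec (a_pos_ne n hn (l + 2) (by omega)).1).1

theorem a_mono (n : ℕ) (hn : 3 ≤ n) {i j : ℕ} (hi : 1 ≤ i) (hij : i < j) : a n i < a n j := by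
  induction j, hij using Nat.le_induction with
  | base => exact a_lt_succ n hn i hi
  | succ j hj ih => exact ih.trans (a_lt_succ n hn j (by omega))

/-- the set of the terms below `n` -/
noncomputable def TT (n : ℕ) : Finset ℕ := (indices n).image (a n)

theorem S_eq (n : ℕ) (hn : 3 ≤ n) : S n = ∑ m ∈ TT n, (1 : ℝ) / m := by
  unfold S TT
  rw [sum_image]
  intro i hi j hj h
  rw [mem_coe, mem_indices] at hi hj
  rcases lt_trichotomy i j with h1 | h1 | h1
  · exact absurd h (a_mono n hn hi.1.1 h1).ne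
  · exact h1
  · exact absurd h (a_mono n hn hj.1.1 h1).ne'

theorem mem_TT {n m : ℕ} (hn : 3 ≤ n) (hm : m ∈ TT n) : 1 ≤ m ∧ m < n := by
  unfold TT at hm
  obtain ⟨i, hi, rfl⟩ := mem_image.1 hm
  rw [mem_indices] at hi
  exact ⟨(a_pos_ne n hn i hi.1.1).1, hi.2⟩

theorem TT_coprime {n m m' : ℕ} (hn : 3 ≤ n) (hm : m ∈ TT n) (hm' : m' ∈ TT n) (hne : m ≠ m') :
    Nat.Coprime (n - m) (n - m') := by
  unfold TT at hm hm'
  obtain ⟨i, hi, rfl⟩ := mem_image.1 hm
  obtain ⟨j, hj, rfl⟩ := mem_image.1 hm'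
  rw [mem_indices] at hi hj
  rcases lt_trichotomy i j with h1 | h1 | h1
  · exact (coprime_terms hi.1.1 h1 (a_pos_ne n hn j hj.1.1).1 hi.2 hj.2).symm
  · exact absurd (by rw [h1]) hne
  · exact coprime_terms hj.1.1 h1 (a_pos_ne n hn i hi.1.1).1 hj.2 hi.2

open Helper13.Om in
/-- the sieve bound for a block -/
theorem rough_block (e : ℕ) (he : 1 ≤ e) (n : ℕ) (T : Finset ℕ)
    (hT : ∀ m ∈ T, 2 ^ e ≤ m ∧ m < 2 ^ (e + 1) ∧ m < n ∧
      ∀ r : ℕ, r.Prime → r < 2 ^ (e / 160 + 1) → ¬ r ∣ n - m) :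
    (T.card : ℝ) ≤ Cs * 2 ^ e / e := by
  classical
  have heR : (0 : ℝ) < e := by exact_mod_cast he
  set E' := e / 160 with hE'
  set P' := (2 ^ (E' + 1)).primesBelow with hP'
  have hP'p : ∀ p ∈ P', p.Prime := fun p hp => Nat.prime_of_mem_primesBelow hp
  have hP'lt : ∀ p ∈ P', p < 2 ^ (E' + 1) := fun p hp => Nat.lt_of_mem_primesBelow hp
  set Y := 2 ^ e with hY
  set Z : ℕ → Finset ℕ := fun r => {(n + 1 + (r - 1) * Y) % r} with hZ
  have h := sieve_upper P' ∅ (Finset.disjoint_empty_left _) hP'p (by simp) 1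
    (fun p hp => (hP'p p hp).one_lt) E' (by
      intro p hp
      have h1 := hP'lt p hp
      have h2 := Nat.log_lt_of_lt_pow (hP'p p hp).pos.ne' h1
      omega) Z (by
      intro p hp
      simp only [hZ]
      refine ⟨?_, by simp⟩
      intro x hx
      rw [Finset.mem_singleton.mp hx, Finset.mem_range]
      exact Nat.mod_lt _ (hP'p p hp).pos) (by simp) 1 le_rfl Y
  have hE'e : E' + 1 ≤ e := by omega
  have hY2 : 2 ^ (e + 1) = 2 * Y := by rw [hY]; ring
  have hcount : T.card ≤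
      ((Finset.Icc 1 Y).filter
        (fun m => (∀ r ∈ (∅ : Finset ℕ), m % r ∈ Z r) ∧ ∀ r ∈ P', m % r ∉ Z r)).card := by
    apply Finset.card_le_card_of_injOn (fun p => p + 1 - Y)
    · intro m hm
      rw [Finset.mem_coe] at hm
      obtain ⟨h1, h2, h3, h4⟩ := hT m hm
      rw [Finset.mem_coe, Finset.mem_filter, Finset.mem_Icc]
      refine ⟨⟨?_, ?_⟩, by simp, ?_⟩
      · show 1 ≤ m + 1 - Y
        omega
      · show m + 1 - Y ≤ Y
        omega
      intro r hr
      show ¬ ((m + 1 - Y) % r ∈ Z r)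
      simp only [hZ]
      rw [Finset.mem_singleton]
      intro h5
      have hr0 := (hP'p r hr).pos
      apply h4 r (hP'p r hr) (hP'lt r hr)
      have h6 : (m + 1 - Y) ≡ n + 1 + (r - 1) * Y [MOD r] := h5
      have h7 : (m + 1 - Y) + Y ≡ n + 1 + (r - 1) * Y + Y [MOD r] := h6.add_right Y
      have h8 : (m + 1 - Y) + Y = m + 1 := by omega
      have h9 : n + 1 + (r - 1) * Y + Y = n + 1 + r * Y := by
        obtain ⟨s, rfl⟩ : ∃ s, r = s + 1 := ⟨r - 1, by omega⟩
        simp only [Nat.add_sub_cancel]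
        ring
      rw [h8, h9] at h7
      have h10 : m + 1 ≡ n + 1 [MOD r] := by
        refine h7.trans ?_
        show (n + 1 + r * Y) % r = (n + 1) % r
        rw [Nat.add_mul_mod_self_left]
      exact (Nat.modEq_iff_dvd' h3.le).1 (Nat.ModEq.add_right_cancel' 1 h10)
    · intro p hp q hq hpq
      rw [Finset.mem_coe] at hp hq
      have h1 := (hT p hp).1
      have h2 := (hT q hq).1
      simp only at hpq
      omega
  have hcountR : (T.card : ℝ) ≤
      (((Finset.Icc 1 Y).filter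
        (fun m => (∀ r ∈ (∅ : Finset ℕ), m % r ∈ Z r) ∧ ∀ r ∈ P', m % r ∉ Z r)).card : ℝ) := by
    exact_mod_cast hcount
  refine hcountR.trans (h.trans ?_)
  have e3 : ∏ r ∈ P', (1 - ((Z r).card : ℝ) / r) = ∏ r ∈ P', (1 - 1 / (r : ℝ)) := by
    refine Finset.prod_congr rfl fun r hr => ?_
    simp only [hZ]
    simp
  rw [Finset.prod_empty, Finset.prod_empty, e3, one_mul, one_mul]
  have hmer := mertens_prod (2 ^ (E' + 1)) (by
    calc 2 = 2 ^ 1 := by norm_num
      _ ≤ 2 ^ (E' + 1) := Nat.pow_le_pow_right (by norm_num) (by omega))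
  have hlog2 : (1 : ℝ) / 2 ≤ Real.log 2 := by
    have := Real.log_two_gt_d9
    linarith
  have hlogE : (e : ℝ) / 320 ≤ Real.log ((2 ^ (E' + 1) : ℕ) : ℝ) := by
    push_cast
    rw [Real.log_pow]
    have h1 : e ≤ 160 * (E' + 1) := by omega
    have h2 : (e : ℝ) ≤ 160 * (E' + 1) := by exact_mod_cast h1
    push_cast
    have h3 : (0 : ℝ) ≤ (E' : ℝ) + 1 := by positivity
    nlinarith
  have hprod2 : ∏ r ∈ P', (1 - 1 / (r : ℝ)) ≤ 320 / e := by
    refine hmer.trans ?_
    rw [div_le_div_iff₀ (by linarith [div_pos heR (show (0 : ℝ) < 320 by norm_num)]) heR]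
    linarith
  have hYR : (Y : ℝ) = 2 ^ e := by rw [hY]; push_cast; rfl
  have herr : (2 : ℝ) ^ (20 * E' * (1 + 1)) ≤ 4 * Y / e := by
    set k := e / 4 with hk
    have hen : e ≤ 4 * 2 ^ k := by
      have h1 : k + 1 ≤ 2 ^ k := Nat.lt_two_pow_self
      omega
    have hu : 20 * E' * (1 + 1) + k ≤ e := by omega
    have henR : (e : ℝ) ≤ 4 * 2 ^ k := by exact_mod_cast hen
    rw [le_div_iff₀ heR, hYR]
    calc (2 : ℝ) ^ (20 * E' * (1 + 1)) * e ≤ 2 ^ (20 * E' * (1 + 1)) * (4 * 2 ^ k) := by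
          gcongr
      _ = 4 * 2 ^ (20 * E' * (1 + 1) + k) := by
          rw [pow_add]
          ring
      _ ≤ 4 * 2 ^ e := by
          have := pow_le_pow_right₀ (show (1 : ℝ) ≤ 2 by norm_num) hu
          linarith
  have hmain : (Y : ℝ) * (∏ r ∈ P', (1 - 1 / (r : ℝ))) * Real.exp (Kt 1 / (1 : ℕ)) ≤
      320 * Real.exp (Kt 1) * Y / e := by
    push_cast
    rw [div_one]
    have h1 : (Y : ℝ) * (∏ r ∈ P', (1 - 1 / (r : ℝ))) ≤ Y * (320 / e) := by
      gcongr
    have h2 := mul_le_mul_of_nonneg_right h1 (Real.exp_pos (Kt 1)).le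
    refine h2.trans (le_of_eq ?_)
    ring
  have e6 : Cs * Y / e = 320 * Real.exp (Kt 1) * Y / e + 4 * Y / e := by
    unfold Cs
    ring
  rw [← hYR, e6]
  linarith

/-- the number of terms in a block -/
theorem block_upper (n : ℕ) (hn : 3 ≤ n) (e : ℕ) :
    (((TT n).filter (fun m => Nat.log 2 m = e)).card : ℝ) ≤
      (2 * Helper13.Om.Cs + 7) * 2 ^ e / ((e : ℝ) + 1) := by
  classical
  have hCs := Helper13.Om.Cs_pos
  rcases Nat.eq_zero_or_pos e with rfl | he
  · have h1 : (TT n).filter (fun m => Nat.log 2 m = 0) ⊆ {1} := by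
      intro m hm
      rw [mem_filter] at hm
      have h2 := mem_TT hn hm.1
      have h3 : m < 2 := by
        rcases Nat.log_eq_zero_iff.1 hm.2 with h | h
        · exact h
        · omega
      rw [mem_singleton]
      omega
    have h2 := card_le_card h1
    rw [card_singleton] at h2
    have h3 : (((TT n).filter (fun m => Nat.log 2 m = 0)).card : ℝ) ≤ 1 := by exact_mod_cast h2
    rw [Nat.cast_zero, zero_add, pow_zero, mul_one, div_one]
    linarith
  have heR : (1 : ℝ) ≤ e := by exact_mod_cast he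
  set F := (TT n).filter (fun m => Nat.log 2 m = e) with hF
  set F1 := F.filter (fun m => n - m = 1) with hF1
  set F2 := F.filter (fun m => n - m ≠ 1 ∧ (n - m).minFac < 2 ^ (e / 160 + 1)) with hF2
  set F3 := F.filter (fun m => n - m ≠ 1 ∧ ¬ (n - m).minFac < 2 ^ (e / 160 + 1)) with hF3
  have hcov : F ⊆ F1 ∪ (F2 ∪ F3) := by
    intro m hm
    by_cases h : n - m = 1
    · exact mem_union_left _ (mem_filter.2 ⟨hm, h⟩)
    · by_cases h' : (n - m).minFac < 2 ^ (e / 160 + 1)
      · exact mem_union_right _ (mem_union_left _ (mem_filter.2 ⟨hm, h, h'⟩))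
      · exact mem_union_right _ (mem_union_right _ (mem_filter.2 ⟨hm, h, h'⟩))
  have h1 : F1.card ≤ 1 := by
    rw [card_le_one]
    intro x hx y hy
    rw [hF1, mem_filter] at hx hy
    omega
  have h2 : F2.card ≤ 2 ^ (e / 160 + 1) := by
    have hinj : Set.InjOn (fun m => (n - m).minFac) F2 := by
      intro x hx y hy hxy
      rw [mem_coe, hF2, mem_filter, hF, mem_filter] at hx hy
      by_contra hne
      have hc := TT_coprime hn hx.1.1 hy.1.1 hne
      have hp := Nat.minFac_prime hx.2.1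
      have h3 := Nat.minFac_dvd (n - x)
      have h4 := Nat.minFac_dvd (n - y)
      simp only at hxy
      rw [← hxy] at h4
      exact Nat.not_coprime_of_dvd_of_dvd hp.one_lt h3 h4 hc
    rw [← card_image_of_injOn hinj, ← card_range (2 ^ (e / 160 + 1))]
    apply card_le_card
    intro p hp
    obtain ⟨m, hm, rfl⟩ := mem_image.1 hp
    rw [hF2, mem_filter] at hm
    rw [mem_range]
    exact hm.2.2
  have h3 : (F3.card : ℝ) ≤ Helper13.Om.Cs * 2 ^ e / e := by
    apply rough_block e he n F3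
    intro m hm
    rw [hF3, mem_filter, hF, mem_filter] at hm
    obtain ⟨⟨hm1, hm2⟩, hm3, hm4⟩ := hm
    have h4 := mem_TT hn hm1
    refine ⟨?_, ?_, h4.2, ?_⟩
    · rw [← hm2]
      exact Nat.pow_log_le_self 2 (by omega)
    · rw [← hm2]
      exact Nat.lt_pow_succ_log_self one_lt_two m
    · intro r hr hr2 hrd
      exact hm4 (lt_of_le_of_lt (Nat.minFac_le_of_dvd hr.two_le hrd) hr2)
  have h4 : (F.card : ℝ) ≤ 1 + 2 ^ (e / 160 + 1) + Helper13.Om.Cs * 2 ^ e / e := by
    have h5 := card_le_card hcov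
    have h6 := card_union_le F1 (F2 ∪ F3)
    have h7 := card_union_le F2 F3
    have h8 : F.card ≤ 1 + 2 ^ (e / 160 + 1) + F3.card := by omega
    have h9 : (F.card : ℝ) ≤ 1 + 2 ^ (e / 160 + 1) + F3.card := by exact_mod_cast h8
    linarith
  refine h4.trans ?_
  have h5 : Helper13.Om.Cs * 2 ^ e / e ≤ 2 * Helper13.Om.Cs * 2 ^ e / ((e : ℝ) + 1) := by
    rw [div_le_div_iff₀ (by linarith) (by linarith)]
    have h6 : 0 ≤ Helper13.Om.Cs * 2 ^ e := by positivity
    nlinarith
  have h6 : (1 : ℝ) + 2 ^ (e / 160 + 1) ≤ 7 * 2 ^ e / ((e : ℝ) + 1) := by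
    rw [le_div_iff₀ (by linarith)]
    have h7 : e + 1 ≤ 2 * 2 ^ (e / 2) := by
      have h8 : e / 2 + 1 ≤ 2 ^ (e / 2) := Nat.lt_two_pow_self
      omega
    have h8 : (e : ℝ) + 1 ≤ 2 * 2 ^ (e / 2) := by exact_mod_cast h7
    have h9 : (1 : ℝ) ≤ 2 ^ (e / 160) := one_le_pow₀ (by norm_num)
    have h10 : (1 : ℝ) + 2 ^ (e / 160 + 1) ≤ 3 * 2 ^ (e / 160) := by
      rw [pow_succ]
      linarith
    calc ((1 : ℝ) + 2 ^ (e / 160 + 1)) * ((e : ℝ) + 1)
        ≤ (3 * 2 ^ (e / 160)) * (2 * 2 ^ (e / 2)) := by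
          apply mul_le_mul h10 h8 (by positivity) (by positivity)
      _ = 6 * 2 ^ (e / 160 + e / 2) := by
          rw [pow_add]
          ring
      _ ≤ 6 * 2 ^ e := by
          have := pow_le_pow_right₀ (show (1 : ℝ) ≤ 2 by norm_num)
            (show e / 160 + e / 2 ≤ e by omega)
          linarith
      _ ≤ 7 * 2 ^ e := by
          have : (0 : ℝ) < 2 ^ e := by positivity
          linarith
  have h7 : (2 * Helper13.Om.Cs + 7) * 2 ^ e / ((e : ℝ) + 1) =
      2 * Helper13.Om.Cs * 2 ^ e / ((e : ℝ) + 1) + 7 * 2 ^ e / ((e : ℝ) + 1) := by ring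
  rw [h7]
  linarith

theorem sum_le_log (b : ℕ) :
    ∑ E ∈ range (b + 1), 1 / ((E : ℝ) + 1) ≤ 1 + Real.log ((b : ℝ) + 1) := by
  induction b with
  | zero => simp
  | succ b ih =>
    rw [sum_range_succ]
    have hb : (0 : ℝ) < (b : ℝ) + 1 := by positivity
    have hb2 : (0 : ℝ) < ((b + 1 : ℕ) : ℝ) + 1 := by positivity
    have h1 : Real.log ((b : ℝ) + 1) + 1 / (((b + 1 : ℕ) : ℝ) + 1) ≤
        Real.log (((b + 1 : ℕ) : ℝ) + 1) := by
      have h2 := Real.log_le_sub_one_of_pos (x := ((b : ℝ) + 1) / (((b + 1 : ℕ) : ℝ) + 1))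
        (by positivity)
      rw [Real.log_div hb.ne' hb2.ne'] at h2
      have h3 : ((b : ℝ) + 1) / (((b + 1 : ℕ) : ℝ) + 1) - 1 = -(1 / (((b + 1 : ℕ) : ℝ) + 1)) := by
        push_cast
        field_simp
        ring
      rw [h3] at h2
      linarith
    linarith

/-- The upper bound for every `n`. -/
theorem S_le : ∃ C : ℝ, 0 < C ∧ ∀ n : ℕ, 3 ≤ n → S n ≤ C * (1 + Real.log (Real.log n)) := by
  classical
  have hCs := Helper13.Om.Cs_pos
  refine ⟨(2 * Helper13.Om.Cs + 7) * 3, by positivity, ?_⟩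
  intro n hn
  have hnR : (3 : ℝ) ≤ n := by exact_mod_cast hn
  set L := Nat.log 2 n with hL
  have hlog3 : (1 : ℝ) ≤ Real.log n := by
    rw [Real.le_log_iff_exp_le (by linarith)]
    have := Real.exp_one_lt_d9
    linarith
  have hll : 0 ≤ Real.log (Real.log n) := Real.log_nonneg hlog3
  have h1 : S n ≤ (2 * Helper13.Om.Cs + 7) * ∑ E ∈ range (L + 1), 1 / ((E : ℝ) + 1) := by
    rw [S_eq n hn]
    rw [← sum_fiberwise_of_maps_to (s := TT n) (t := range (L + 1)) (g := Nat.log 2)]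
    · rw [mul_sum]
      refine sum_le_sum fun e _ => ?_
      have h2 := block_upper n hn e
      have h3 : ∑ m ∈ (TT n).filter (fun m => Nat.log 2 m = e), (1 : ℝ) / m ≤
          ∑ m ∈ (TT n).filter (fun m => Nat.log 2 m = e), (1 : ℝ) / 2 ^ e := by
        refine sum_le_sum fun m hm => ?_
        rw [mem_filter] at hm
        have h4 := mem_TT hn hm.1
        have h5 : 2 ^ e ≤ m := by
          rw [← hm.2]
          exact Nat.pow_log_le_self 2 (by omega)
        have h6 : (2 : ℝ) ^ e ≤ m := by exact_mod_cast h5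
        exact one_div_le_one_div_of_le (by positivity) h6
      rw [sum_const, nsmul_eq_mul] at h3
      refine h3.trans ?_
      rw [mul_one_div, mul_one_div, div_le_iff₀ (by positivity)]
      refine h2.trans (le_of_eq ?_)
      field_simp
    · intro m hm
      have h4 := mem_TT hn hm
      rw [mem_range, Nat.lt_succ_iff]
      exact Nat.log_mono_right h4.2.le
  refine h1.trans ?_
  have h2 := sum_le_log L
  have h3 : (L : ℝ) + 1 ≤ 3 * Real.log n := by
    have h4 : ((2 ^ L : ℕ) : ℝ) ≤ n := by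
      exact_mod_cast Nat.pow_log_le_self 2 (by omega)
    have h5 := Real.log_le_log (by positivity) h4
    push_cast at h5
    rw [Real.log_pow] at h5
    have h6 := Real.log_two_gt_d9
    have h7 : (0 : ℝ) ≤ L := Nat.cast_nonneg L
    nlinarith
  have h4 := Real.log_le_log (by positivity) h3
  rw [Real.log_mul (by norm_num) (by linarith)] at h4
  have h5 : Real.log 3 ≤ 2 := by
    have := Real.log_le_sub_one_of_pos (show (0 : ℝ) < 3 by norm_num)
    linarith
  have h6 : ∑ E ∈ range (L + 1), 1 / ((E : ℝ) + 1) ≤ 3 * (1 + Real.log (Real.log n)) := by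
    linarith
  calc (2 * Helper13.Om.Cs + 7) * ∑ E ∈ range (L + 1), 1 / ((E : ℝ) + 1)
      ≤ (2 * Helper13.Om.Cs + 7) * (3 * (1 + Real.log (Real.log n))) :=
        mul_le_mul_of_nonneg_left h6 (by positivity)
    _ = _ := by ring

end Pool.Agent.Helper32.CS
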