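import Mathlib
import Pool.Agent.Helper32.CS.VVdef
import Pool.Agent.Helper32.CS.Greedy
import Pool.Agent.Helper32.CS.Upper

set_option autoImplicit false

/-! The mean value of `S_2`. -/

namespace Pool.Agent.Helper32.CS

open Finset Pool.Agent.Helper16.UB Pool.Agent.Helper4.CoprimeShift Helper13.Om

/-- the numbers up to `N` without prime factors `≤ m` -/
noncomputable def rc (N m : ℕ) : ℝ :=
  (((Icc 1 N).filter (fun k => ∀ p ∈ PL m, ¬ p ∣ k)).card : ℝ)

theorem rc_anti (N : ℕ) {m m' : ℕ} (h : m ≤ m') : rc N m' ≤ rc N m := by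
  unfold rc
  have : (Icc 1 N).filter (fun k => ∀ p ∈ PL m', ¬ p ∣ k) ⊆
      (Icc 1 N).filter (fun k => ∀ p ∈ PL m, ¬ p ∣ k) := by
    intro k hk
    rw [mem_filter] at hk ⊢
    exact ⟨hk.1, fun p hp => hk.2 p (PL_mono h hp)⟩
  exact_mod_cast card_le_card this

theorem rc_le (b : ℕ) (hb : 1 ≤ b) (N m : ℕ) :
    rc N m ≤ N * VV m * Real.exp (Kt 1 / b) + 2 ^ (20 * Nat.log 2 m * (b + 1)) := by
  classical
  have h := sieve_upper (PL m) ∅ (disjoint_empty_left _) (fun q hq => (mem_PL.1 hq).2) (by simp) 1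
    (fun q hq => (mem_PL.1 hq).2.one_lt) (Nat.log 2 m) (fun q hq =>
      Nat.log_mono_right (mem_PL.1 hq).1) (fun _ => {0}) (by
      intro q hq
      refine ⟨?_, by simp⟩
      intro x hx
      rw [mem_singleton.1 hx, mem_range]
      exact (mem_PL.1 hq).2.pos) (by simp) b hb N
  have h1 : rc N m = (((Icc 1 N).filter (fun k => (∀ q ∈ (∅ : Finset ℕ), k % q ∈ ({0} : Finset ℕ)) ∧
      ∀ q ∈ PL m, k % q ∉ ({0} : Finset ℕ))).card : ℝ) := by
    unfold rc
    congr 2
    refine filter_congr fun k _ => ?_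
    constructor
    · intro hk
      refine ⟨by simp, fun q hq h0 => hk q hq ?_⟩
      rw [mem_singleton] at h0
      exact Nat.dvd_of_mod_eq_zero h0
    · intro hk q hq hd
      exact hk.2 q hq (mem_singleton.2 (Nat.mod_eq_zero_of_dvd hd))
  rw [h1]
  refine h.trans (le_of_eq ?_)
  unfold VV
  simp

theorem S2_le_free (n : ℕ) (hn : 3 ≤ n) [DecidablePred (Free n)] :
    S2 n ≤ ∑ m ∈ (Ico 1 n).filter (Free n), (1 : ℝ) / m := by
  classical
  have hsplit : S2 n = ∑ i ∈ (indices n).filter (fun i => ¬ SmallDivisor n i), (1 : ℝ) / a n i := by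
    unfold S2 S S1
    rw [← sum_filter_add_sum_filter_not (indices n) (SmallDivisor n)]
    ring
  rw [hsplit]
  have hinj : Set.InjOn (a n) ((indices n).filter (fun i => ¬ SmallDivisor n i)) := by
    intro i hi j hj h
    rw [mem_coe, mem_filter, mem_indices] at hi hj
    rcases lt_trichotomy i j with h1 | h1 | h1
    · exact absurd h (a_mono n hn hi.1.1.1 h1).ne
    · exact h1
    · exact absurd h (a_mono n hn hj.1.1.1 h1).ne'
  rw [← sum_image (f := fun m : ℕ => (1 : ℝ) / m) hinj]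
  refine sum_le_sum_of_subset_of_nonneg ?_ fun i _ _ => by positivity
  intro m hm
  obtain ⟨i, hi, rfl⟩ := mem_image.1 hm
  rw [mem_filter, mem_indices] at hi
  rw [mem_filter, mem_Ico]
  refine ⟨⟨(a_pos_ne n hn i hi.1.1.1).1, hi.1.2⟩, ?_⟩
  intro p hp hpd
  by_contra h
  push Not at h
  exact hi.2 ⟨p, hp, h, hpd⟩

theorem sum_inv_Icc_le (N : ℕ) :
    ∑ m ∈ Icc 1 N, (1 : ℝ) / (m : ℝ) ≤ (Nat.log 2 N : ℝ) + 1 := by
  have h1 : ∑ m ∈ Icc 1 N, (1 : ℝ) / (m : ℝ) ≤
      ∑ m ∈ Ioc (0 : ℕ) (2 ^ (Nat.log 2 N + 1) - 1), (1 : ℝ) / (m : ℝ) := by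
    refine sum_le_sum_of_subset_of_nonneg ?_ fun m _ _ => by positivity
    intro m hm
    rw [mem_Icc] at hm
    rw [mem_Ioc]
    have := Nat.lt_pow_succ_log_self one_lt_two N
    omega
  refine h1.trans ?_
  have h2 : ∀ L : ℕ, ∑ m ∈ Ioc (0 : ℕ) (2 ^ L - 1), (1 : ℝ) / (m : ℝ) ≤ L := by
    intro L
    induction L with
    | zero => simp
    | succ L ih =>
      have e0 := Nat.one_le_two_pow (n := L)
      have e1 : 2 ^ (L + 1) = 2 ^ L + 2 ^ L := by ring
      rw [← sum_Ioc_consecutive _ (Nat.zero_le (2 ^ L - 1))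
        (by omega : 2 ^ L - 1 ≤ 2 ^ (L + 1) - 1)]
      have h3 : ∑ m ∈ Ioc (2 ^ L - 1 : ℕ) (2 ^ (L + 1) - 1), (1 : ℝ) / (m : ℝ) ≤ 1 := by
        calc ∑ m ∈ Ioc (2 ^ L - 1 : ℕ) (2 ^ (L + 1) - 1), (1 : ℝ) / (m : ℝ)
            ≤ ∑ m ∈ Ioc (2 ^ L - 1 : ℕ) (2 ^ (L + 1) - 1), (1 : ℝ) / 2 ^ L := by
              refine sum_le_sum fun m hm => ?_
              rw [mem_Ioc] at hm
              have : 2 ^ L ≤ m := by omega
              have : (2 : ℝ) ^ L ≤ m := by exact_mod_cast this
              exact one_div_le_one_div_of_le (by positivity) this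
          _ = 1 := by
              rw [sum_const, Nat.card_Ioc, nsmul_eq_mul,
                show 2 ^ (L + 1) - 1 - (2 ^ L - 1) = 2 ^ L by omega]
              push_cast
              field_simp
      push_cast
      linarith
  have := h2 (Nat.log 2 N + 1)
  push_cast at this
  exact this

theorem sum_S2_le (ε : ℝ) (hε : 0 < ε) (hε1 : ε < 1) : ∃ C : ℝ, 0 < C ∧ ∀ N : ℕ, 1 ≤ N →
    ∑ n ∈ Icc 3 N, S2 n ≤ (1 + ε) * (N * LL N) + C * N := by
  classical
  have hK0 : 0 < Real.exp (Kt 1) := Real.exp_pos _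
  -- choose b
  obtain ⟨b0, hb0⟩ := exists_nat_ge (|Kt 1| / Real.log (1 + ε))
  have hlog : 0 < Real.log (1 + ε) := Real.log_pos (by linarith)
  set b := b0 + 1 with hb
  have hexp : Real.exp (Kt 1 / b) ≤ 1 + ε := by
    rw [← Real.exp_log (by linarith : 0 < 1 + ε)]
    apply Real.exp_le_exp.2
    have hbR : (0 : ℝ) < b := by rw [hb]; positivity
    rw [div_le_iff₀ hbR]
    rw [div_le_iff₀ hlog] at hb0
    have h1 := le_abs_self (Kt 1)
    have h2 : (b0 : ℝ) ≤ b := by rw [hb]; push_cast; linarith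
    nlinarith
  set D : ℕ := 40 * (b + 1) with hD
  set C1 : ℝ := 8 * D + 2 with hC1
  have hC10 : 0 < C1 := by positivity
  refine ⟨4 * C1, by positivity, ?_⟩
  intro N hN
  have hNR : (1 : ℝ) ≤ N := by exact_mod_cast hN
  set L := Nat.log 2 N with hL
  set Es := L / D with hEs
  have h2L : 2 ^ L ≤ N := Nat.pow_log_le_self 2 (by omega)
  have h2LR : (2 : ℝ) ^ L ≤ N := by exact_mod_cast h2L
  have hLpos : (0 : ℝ) < (L : ℝ) + 1 := by positivity
  -- error term
  have herr : ∀ E : ℕ, E ≤ Es → (2 : ℝ) ^ (20 * E * (b + 1)) ≤ 2 * N / ((L : ℝ) + 1) := by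
    intro E hE
    have h1 : 20 * E * (b + 1) ≤ L / 2 := by
      have h2 : E * D ≤ L := by
        calc E * D ≤ L / D * D := Nat.mul_le_mul_right _ hE
          _ ≤ L := Nat.div_mul_le_self L D
      have h3 : E * D = 2 * (20 * E * (b + 1)) := by
        rw [hD]
        ring
      omega
    rw [le_div_iff₀ hLpos]
    have h2 : (L : ℝ) + 1 ≤ 2 * 2 ^ (L / 2) := by
      have h3 : L / 2 + 1 ≤ 2 ^ (L / 2) := Nat.lt_two_pow_self
      have h4 : L + 1 ≤ 2 * 2 ^ (L / 2) := by omega
      exact_mod_cast h4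
    calc (2 : ℝ) ^ (20 * E * (b + 1)) * ((L : ℝ) + 1) ≤ 2 ^ (L / 2) * (2 * 2 ^ (L / 2)) :=
          mul_le_mul (pow_le_pow_right₀ (by norm_num) h1) h2 (by positivity) (by positivity)
      _ = 2 * 2 ^ (L / 2 + L / 2) := by
          rw [pow_add]
          ring
      _ ≤ 2 * 2 ^ L := by
          have := pow_le_pow_right₀ (show (1 : ℝ) ≤ 2 by norm_num)
            (show L / 2 + L / 2 ≤ L by omega)
          linarith
      _ ≤ 2 * N := by linarith
  -- bound for each m
  have hrc : ∀ m ∈ Icc 1 N, rc N m ≤ (1 + ε) * (N * VV m) + C1 * N / ((L : ℝ) + 1) := by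
    intro m hm
    rw [mem_Icc] at hm
    have hVm := VV_pos m
    by_cases hmE : Nat.log 2 m ≤ Es
    · have h1 := rc_le b (by omega) N m
      have h2 := herr _ hmE
      have h3 : N * VV m * Real.exp (Kt 1 / b) ≤ (1 + ε) * (N * VV m) := by
        rw [mul_comm (1 + ε)]
        exact mul_le_mul_of_nonneg_left hexp (by positivity)
      have h4 : 2 * N / ((L : ℝ) + 1) ≤ C1 * N / ((L : ℝ) + 1) := by
        apply div_le_div_of_nonneg_right _ hLpos.le
        apply mul_le_mul_of_nonneg_right _ (by linarith)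
        rw [hC1]
        have : (0 : ℝ) ≤ 8 * D := by positivity
        linarith
      linarith
    · push Not at hmE
      have hm2 : 2 ^ Es ≤ m := by
        have h1 : 2 ^ Nat.log 2 m ≤ m := Nat.pow_log_le_self 2 (by omega)
        exact (Nat.pow_le_pow_right (by norm_num) hmE.le).trans h1
      have h0 := rc_anti N hm2
      have h1 := rc_le b (by omega) N (2 ^ Es)
      rw [Nat.log_pow (by norm_num)] at h1
      have h2 := herr _ le_rfl
      have h3 : N * VV (2 ^ Es) * Real.exp (Kt 1 / b) ≤ 8 * D * N / ((L : ℝ) + 1) := by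
        have h4 := VV_two_pow_le Es
        have h5 : (L : ℝ) + 1 ≤ D * ((Es : ℝ) + 1) := by
          have h6 : L < D * (L / D + 1) := by
            have := Nat.lt_mul_div_succ L (show 0 < D by omega)
            simpa using this
          have h7 : L + 1 ≤ D * (Es + 1) := h6
          exact_mod_cast h7
        have h6 : 4 / ((Es : ℝ) + 1) ≤ 4 * D / ((L : ℝ) + 1) := by
          rw [div_le_div_iff₀ (by positivity) hLpos]
          have := mul_le_mul_of_nonneg_left h5 (by norm_num : (0 : ℝ) ≤ 4)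
          linarith
        have h7 : Real.exp (Kt 1 / b) ≤ 2 := by linarith
        have h8 : 0 < VV (2 ^ Es) := VV_pos _
        calc N * VV (2 ^ Es) * Real.exp (Kt 1 / b) ≤ N * (4 * D / ((L : ℝ) + 1)) * 2 := by
              apply mul_le_mul _ h7 (Real.exp_pos _).le (by positivity)
              exact mul_le_mul_of_nonneg_left (h4.trans h6) (by linarith)
          _ = _ := by ring
      have h4 : 0 ≤ (1 + ε) * (N * VV m) := by positivity
      have h5 : C1 * N / ((L : ℝ) + 1) = 8 * D * N / ((L : ℝ) + 1) + 2 * N / ((L : ℝ) + 1) := by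
        rw [hC1]
        ring
      linarith
  -- the double sum
  have hsum : ∑ n ∈ Icc 3 N, S2 n ≤ ∑ m ∈ Icc 1 N, (1 : ℝ) / m * rc N m := by
    calc ∑ n ∈ Icc 3 N, S2 n
        ≤ ∑ n ∈ Icc 3 N, ∑ m ∈ (Ico 1 n).filter (Free n), (1 : ℝ) / m := by
          refine sum_le_sum fun n hn => S2_le_free n (mem_Icc.1 hn).1
      _ ≤ ∑ n ∈ Icc 1 N, ∑ m ∈ (Ico 1 n).filter (Free n), (1 : ℝ) / m := by
          refine sum_le_sum_of_subset_of_nonneg ?_ fun n _ _ => sum_nonneg fun m _ => by positivity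
          intro n hn
          rw [mem_Icc] at hn ⊢
          omega
      _ = ∑ n ∈ Icc 1 N, ∑ m ∈ Icc 1 N, (1 : ℝ) / m * (if m < n ∧ Free n m then 1 else 0) := by
          refine sum_congr rfl fun n hn => ?_
          rw [mem_Icc] at hn
          rw [sum_filter]
          rw [← sum_subset (s₁ := Ico 1 n) (s₂ := Icc 1 N)]
          · refine sum_congr rfl fun m hm => ?_
            rw [mem_Ico] at hm
            by_cases hf : Free n m
            · rw [if_pos hf, if_pos ⟨hm.2, hf⟩, mul_one]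
            · rw [if_neg hf, if_neg (fun h => hf h.2), mul_zero]
          · intro m hm
            rw [mem_Ico] at hm
            rw [mem_Icc]
            omega
          · intro m hm hm'
            rw [mem_Icc] at hm
            rw [mem_Ico] at hm'
            rw [if_neg (fun h => hm' ⟨hm.1, h.1⟩), mul_zero]
      _ = ∑ m ∈ Icc 1 N, (1 : ℝ) / m *
            (((Icc 1 N).filter (fun n => m < n ∧ Free n m)).card : ℝ) := by
          rw [sum_comm]
          refine sum_congr rfl fun m _ => ?_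
          rw [← mul_sum, card_filter]
          push_cast
          rfl
      _ ≤ ∑ m ∈ Icc 1 N, (1 : ℝ) / m * rc N m := by
          refine sum_le_sum fun m hm => ?_
          apply mul_le_mul_of_nonneg_left _ (by positivity)
          unfold rc
          rw [Nat.cast_le]
          apply card_le_card_of_injOn (fun n => n - m)
          · intro n hn
            rw [mem_coe, mem_filter, mem_Icc] at hn
            rw [mem_coe, mem_filter, mem_Icc]
            refine ⟨⟨by show 1 ≤ n - m; omega, by show n - m ≤ N; omega⟩, ?_⟩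
            intro p hp hpd
            have h1 := hn.2.2 p (mem_PL.1 hp).2 hpd
            have h2 := (mem_PL.1 hp).1
            omega
          · intro n hn n' hn' h
            rw [mem_coe, mem_filter] at hn hn'
            simp only at h
            omega
  refine hsum.trans ?_
  calc ∑ m ∈ Icc 1 N, (1 : ℝ) / m * rc N m
      ≤ ∑ m ∈ Icc 1 N, ((1 + ε) * N * (VV m / m) + C1 * N / ((L : ℝ) + 1) * (1 / m)) := by
        refine sum_le_sum fun m hm => ?_
        have h1 := mul_le_mul_of_nonneg_left (hrc m hm) (by positivity : (0 : ℝ) ≤ 1 / m)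
        refine h1.trans (le_of_eq ?_)
        ring
    _ = (1 + ε) * N * LL N + C1 * N / ((L : ℝ) + 1) * ∑ m ∈ Icc 1 N, (1 : ℝ) / m := by
        rw [sum_add_distrib, ← mul_sum, ← mul_sum]
        congr 2
    _ ≤ (1 + ε) * N * LL N + C1 * N / ((L : ℝ) + 1) * ((L : ℝ) + 1) := by
        have := mul_le_mul_of_nonneg_left (sum_inv_Icc_le N)
          (by positivity : 0 ≤ C1 * N / ((L : ℝ) + 1))
        linarith
    _ ≤ (1 + ε) * (N * LL N) + 4 * C1 * N := by
        rw [div_mul_cancel₀ _ hLpos.ne']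
        have : 0 ≤ C1 * N := by positivity
        linarith

end Pool.Agent.Helper32.CS
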