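import Mathlib
import Pool.Agent.Helper32.CS.ExceptE
import Pool.Agent.Helper32.CS.Mean

set_option autoImplicit false

/-! The normal order of `S` and `S_2`. -/

namespace Pool.Agent.Helper32.CS

open Finset Filter Topology Pool.Agent.Helper16.UB Pool.Agent.Helper4.CoprimeShift

theorem LL_large (T : ℝ) : ∃ n0 : ℕ, ∀ n : ℕ, n0 ≤ n → T ≤ LL n := by
  obtain ⟨c, hc, h⟩ := LL_pow_sub_ge
  obtain ⟨b, hb⟩ := exists_nat_ge (Real.exp (T / c))
  refine ⟨2 ^ b, fun n hn => ?_⟩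
  have h1 := h 0 b (Nat.zero_le b)
  have h2 := log_le_sum 0 b (Nat.zero_le b)
  have h3 := LL_mono hn
  have h4 := LL_nonneg (2 ^ 0)
  have h5 : T / c ≤ Real.log (((b : ℝ) + 1) / (((0 : ℕ) : ℝ) + 1)) := by
    rw [Nat.cast_zero, zero_add, div_one, Real.le_log_iff_exp_le (by positivity)]
    linarith
  have h6 := mul_le_mul_of_nonneg_left (h5.trans h2) hc.le
  rw [mul_div_cancel₀ _ hc.ne'] at h6
  have h7 := h6.trans h1
  linarith

theorem LL_near {n N : ℕ} (hn : 2 ≤ n) (hN : N ≤ n * n) : LL N ≤ LL n + 8 := by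
  set a := Nat.log 2 n with ha
  have h1 : 2 ^ a ≤ n := Nat.pow_log_le_self 2 (by omega)
  have h2 : n < 2 ^ (a + 1) := Nat.lt_pow_succ_log_self one_lt_two n
  have h3 : N ≤ 2 ^ (2 * a + 2) := by
    calc N ≤ n * n := hN
      _ ≤ 2 ^ (a + 1) * 2 ^ (a + 1) := Nat.mul_le_mul h2.le h2.le
      _ = 2 ^ (2 * a + 2) := by
          rw [← pow_add]
          congr 1
          ring
  have h4 := LL_pow_sub_le a (2 * a + 2) (by omega)
  have h5 : ∑ E ∈ Ico a (2 * a + 2), 1 / ((E : ℝ) + 1) ≤ 2 := by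
    calc ∑ E ∈ Ico a (2 * a + 2), 1 / ((E : ℝ) + 1)
        ≤ ∑ E ∈ Ico a (2 * a + 2), 1 / ((a : ℝ) + 1) := by
          refine sum_le_sum fun E hE => ?_
          rw [mem_Ico] at hE
          have : (a : ℝ) ≤ E := by exact_mod_cast hE.1
          exact one_div_le_one_div_of_le (by positivity) (by linarith)
      _ = ((a : ℝ) + 2) * (1 / ((a : ℝ) + 1)) := by
          rw [sum_const, Nat.card_Ico, nsmul_eq_mul, show 2 * a + 2 - a = a + 2 by omega]
          push_cast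
          ring
      _ ≤ 2 := by
          rw [mul_one_div, div_le_iff₀ (by positivity)]
          have : (0 : ℝ) ≤ a := Nat.cast_nonneg a
          linarith
  have h6 := LL_mono h1
  have h7 := LL_mono h3
  linarith

theorem normal_aux (f : ℕ → ℝ) (hf1 : ∀ n, S2 n ≤ f n)
    (hf2 : ∀ ε : ℝ, 0 < ε → ε < 1 → ∃ C : ℝ, 0 < C ∧ ∀ N : ℕ, 1 ≤ N →
      ∑ n ∈ Icc 3 N, f n ≤ (1 + ε) * (N * LL N) + C * N) (η : ℝ) (hη : 0 < η) (hη1 : η ≤ 1)
    (θ : ℝ) (hθ : 0 < θ) (hθ1 : θ ≤ 1) : ∃ N0 : ℕ, ∀ N : ℕ, N0 ≤ N →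
      (((Icc 1 N).filter (fun n => η * LL n < |f n - LL n|)).card : ℝ) ≤ θ * N := by
  classical
  have hf0 : ∀ n, 0 ≤ f n := fun n => (S2_nonneg n).trans (hf1 n)
  set ε : ℝ := θ * η / 48 with hε
  have hε0 : 0 < ε := by rw [hε]; positivity
  have hθη : θ * η ≤ η := mul_le_of_le_one_left hη.le hθ1
  have hθη2 : θ * η ≤ θ := mul_le_of_le_one_right hθ.le hη1
  have hε1 : ε < 1 := by rw [hε]; linarith
  have hεη : ε ≤ η / 48 := by rw [hε]; linarith
  have hεθ : ε ≤ θ / 48 := by rw [hε]; linarith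
  obtain ⟨C1, hC1, hexc⟩ := except_eps ε hε0 hε1
  obtain ⟨C2, hC2, hmean⟩ := hf2 ε hε0 hε1
  -- the parameter y
  obtain ⟨y0, hy0⟩ := exists_nat_ge ((C1 / ε) ^ 2)
  set y := y0 + 2 with hy
  have hysq : C1 ≤ ε * Real.sqrt y := by
    have h1 : C1 / ε ≤ Real.sqrt y := by
      apply Real.le_sqrt_of_sq_le
      refine hy0.trans ?_
      rw [hy]
      push_cast
      linarith
    rw [div_le_iff₀ hε0] at h1
    linarith
  have hsq0 : 0 < Real.sqrt y := Real.sqrt_pos.2 (by rw [hy]; positivity)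
  set C' := LL y + C1 with hC'
  have hC'0 : 0 < C' := by
    have := LL_nonneg y
    rw [hC']
    linarith
  set T : ℝ := 32 / η + 2 * C' / η + 32 * (C2 + C') / (η * θ) + 2 * C' with hT
  obtain ⟨n0, hn0⟩ := LL_large T
  obtain ⟨M1, hM1⟩ := exists_nat_ge ((16 / θ) ^ 2)
  obtain ⟨M2, hM2⟩ := exists_nat_ge (16 * (4 + 4 / η) / θ)
  refine ⟨y + (n0 + 3) * (n0 + 3) + M1 + M2, ?_⟩
  intro N hN
  have hNy : y ≤ N := by
    have : 0 ≤ (n0 + 3) * (n0 + 3) := Nat.zero_le _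
    omega
  have hNn0 : (n0 + 3) * (n0 + 3) ≤ N := by omega
  have hNM1 : M1 ≤ N := by omega
  have hNM2 : M2 ≤ N := by omega
  have hN3 : n0 + 3 ≤ N := le_trans (Nat.le_mul_of_pos_left _ (by omega)) hNn0
  have hNR : (0 : ℝ) < N := by
    have : 0 < N := by omega
    exact_mod_cast this
  have hsqN0 : 0 < Real.sqrt N := Real.sqrt_pos.2 hNR
  have hsqN : Real.sqrt N ≤ θ / 16 * N := by
    have h1 : 16 / θ ≤ Real.sqrt N := by
      apply Real.le_sqrt_of_sq_le
      refine hM1.trans ?_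
      exact_mod_cast hNM1
    have h2 : Real.sqrt N * Real.sqrt N = N := Real.mul_self_sqrt hNR.le
    rw [div_le_iff₀ hθ] at h1
    nlinarith
  have hsm : 4 + 4 / η ≤ θ / 16 * N := by
    have h1 : 16 * (4 + 4 / η) / θ ≤ N := hM2.trans (by exact_mod_cast hNM2)
    rw [div_le_iff₀ hθ] at h1
    linarith
  set Λ := LL N with hΛ
  have hTΛ : T ≤ Λ := hn0 N (by omega)
  have hT1 : 0 < 32 / η := by positivity
  have hT2 : 0 < 2 * C' / η := by positivity
  have hT3 : 0 < 32 * (C2 + C') / (η * θ) := by positivity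
  have hΛ0 : 0 < Λ := by
    refine lt_of_lt_of_le ?_ hTΛ
    rw [hT]
    linarith
  -- the exceptional sets
  set E1 := (Icc 1 N).filter (fun n => S2 n < (1 - ε) * (LL N - LL y) - C1) with hE1
  set E2 := (Icc 3 N).filter (fun n => (1 + η / 2) * Λ < f n) with hE2
  set ℓ := (1 - ε) * Λ - C' with hℓ
  have hℓ0 : 0 ≤ ℓ := by
    have h1 : 2 * C' ≤ Λ := by
      refine le_trans ?_ hTΛ
      rw [hT]
      linarith
    rw [hℓ]
    nlinarith
  have hℓΛ : ℓ ≤ Λ := by
    rw [hℓ]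
    have : 0 < ε * Λ := by positivity
    linarith
  have hE1c : (E1.card : ℝ) ≤ ε * N := by
    refine (hexc N y (by omega) hNy).trans ?_
    rw [div_le_iff₀ hsq0]
    have := mul_le_mul_of_nonneg_right hysq hNR.le
    linarith
  have hE1l : ∀ n ∈ Icc 1 N, n ∉ E1 → ℓ ≤ S2 n := by
    intro n hn hnE
    have h1 : (1 - ε) * (LL N - LL y) - C1 ≤ S2 n := by
      by_contra h
      exact hnE (mem_filter.2 ⟨hn, not_le.1 h⟩)
    refine le_trans ?_ h1
    rw [hℓ, hC', ← hΛ]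
    have h2 := LL_nonneg y
    have h3 : (1 - ε) * LL y ≤ LL y := mul_le_of_le_one_left h2 (by linarith)
    linarith
  -- the size of E2
  have hpt : ∀ n ∈ Icc 3 N, ℓ * (1 - (if n ∈ E1 then (1 : ℝ) else 0)) +
      ((1 + η / 2) * Λ - ℓ) * (if n ∈ E2 then (1 : ℝ) else 0) ≤ f n := by
    intro n hn
    have hn1 : n ∈ Icc 1 N := by
      rw [mem_Icc] at hn ⊢
      omega
    by_cases h2 : n ∈ E2
    · rw [if_pos h2]
      have h3 := (mem_filter.1 h2).2
      by_cases h1 : n ∈ E1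
      · rw [if_pos h1]
        linarith
      · rw [if_neg h1]
        linarith
    · rw [if_neg h2]
      by_cases h1 : n ∈ E1
      · rw [if_pos h1]
        have := hf0 n
        linarith
      · rw [if_neg h1]
        have h3 := hE1l n hn1 h1
        have h4 := hf1 n
        linarith
  have hsum := sum_le_sum hpt
  have hmean' := hmean N (by omega)
  have hcardE1 : ∑ n ∈ Icc 3 N, (if n ∈ E1 then (1 : ℝ) else 0) ≤ ε * N := by
    refine le_trans ?_ hE1c
    rw [← sum_filter, sum_const, nsmul_eq_mul, mul_one]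
    have : (Icc 3 N).filter (fun n => n ∈ E1) ⊆ E1 := by
      intro n hn
      exact (mem_filter.1 hn).2
    exact_mod_cast card_le_card this
  have hcardE2 : ∑ n ∈ Icc 3 N, (if n ∈ E2 then (1 : ℝ) else 0) = (E2.card : ℝ) := by
    rw [← sum_filter, sum_const, nsmul_eq_mul, mul_one]
    congr 2
    ext n
    rw [mem_filter]
    constructor
    · exact fun h => h.2
    · exact fun h => ⟨(mem_filter.1 h).1, h⟩
  have hcard3 : ∑ n ∈ Icc 3 N, (1 : ℝ) = (N : ℝ) - 2 := by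
    rw [sum_const, nsmul_eq_mul, mul_one, Nat.card_Icc, show N + 1 - 3 = N - 2 by omega,
      Nat.cast_sub (by omega)]
    norm_num
  rw [sum_add_distrib, ← mul_sum, ← mul_sum, sum_sub_distrib, hcardE2, hcard3] at hsum
  have h1 : ((1 + η / 2) * Λ - ℓ) * (E2.card : ℝ) + ℓ * ((N : ℝ) - 2 - ε * N) ≤
      (1 + ε) * (N * Λ) + C2 * N := by
    have h2 : ℓ * ((N : ℝ) - 2 - ε * N) ≤
        ℓ * ((N : ℝ) - 2 - ∑ n ∈ Icc 3 N, (if n ∈ E1 then (1 : ℝ) else 0)) :=
      mul_le_mul_of_nonneg_left (by linarith) hℓ0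
    linarith
  have hE2c : (η / 2 * Λ) * (E2.card : ℝ) ≤ 3 * ε * (N * Λ) + 2 * Λ + (C2 + C') * N := by
    have hc0 : (0 : ℝ) ≤ E2.card := Nat.cast_nonneg _
    have h2 : (η / 2 * Λ) * (E2.card : ℝ) ≤ ((1 + η / 2) * Λ - ℓ) * (E2.card : ℝ) :=
      mul_le_mul_of_nonneg_right (by linarith) hc0
    have h3 : (1 + ε) * (N * Λ) + C2 * N - ℓ * ((N : ℝ) - 2 - ε * N) ≤
        3 * ε * (N * Λ) + 2 * Λ + (C2 + C') * N := by
      have h4 : ℓ * ((N : ℝ) - 2 - ε * N) =
          (1 - ε) ^ 2 * (N * Λ) - (1 - ε) * C' * N - 2 * ℓ := by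
        rw [hℓ]
        ring
      rw [h4]
      have h5 : (1 - ε) * C' * N ≤ C' * N := by
        have : 0 ≤ C' * N := by positivity
        nlinarith
      have h6 : 0 ≤ ε ^ 2 * (N * Λ) := by positivity
      nlinarith
    linarith
  have hE2c' : (E2.card : ℝ) ≤ θ / 8 * N + 4 / η + θ / 16 * N := by
    have hηΛ : 0 < η / 2 * Λ := by positivity
    rw [← mul_le_mul_iff_of_pos_left hηΛ]
    refine hE2c.trans ?_
    have h2 : 3 * ε * (N * Λ) = η / 2 * Λ * (θ / 8 * N) := by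
      rw [hε]
      ring
    have h3 : 2 * Λ = η / 2 * Λ * (4 / η) := by
      field_simp
      ring
    have h4 : (C2 + C') * N ≤ η / 2 * Λ * (θ / 16 * N) := by
      have h5 : 32 * (C2 + C') / (η * θ) ≤ Λ := by
        refine le_trans ?_ hTΛ
        rw [hT]
        linarith
      rw [div_le_iff₀ (by positivity)] at h5
      have h6 : (C2 + C') * N = (32 * (C2 + C')) * (N / 32) := by ring
      rw [h6]
      have h7 := mul_le_mul_of_nonneg_right h5 (by positivity : 0 ≤ (N : ℝ) / 32)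
      refine h7.trans (le_of_eq ?_)
      ring
    linarith
  -- the inclusion
  have hincl : (Icc 1 N).filter (fun n => η * LL n < |f n - LL n|) ⊆
      ((Icc 1 2 ∪ (Icc 1 (Nat.sqrt N))) ∪ E1) ∪ E2 := by
    intro n hn
    rw [mem_filter] at hn
    by_contra hnot
    rw [mem_union, mem_union, mem_union, not_or, not_or, not_or] at hnot
    obtain ⟨⟨⟨h2, h3⟩, h4⟩, h5⟩ := hnot
    have hn1 := hn.1
    rw [mem_Icc] at hn1 h2 h3
    have hn3 : 3 ≤ n := by omega
    have hsqn : Nat.sqrt N < n := by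
      by_contra h
      exact h3 ⟨hn1.1, by omega⟩
    have hNn : N ≤ n * n := by
      have h6 := Nat.lt_succ_sqrt N
      have h7 : (Nat.sqrt N).succ ≤ n := hsqn
      exact (h6.trans_le (Nat.mul_le_mul h7 h7)).le
    have hnn0 : n0 ≤ n := by
      by_contra h
      push Not at h
      have : n * n < (n0 + 3) * (n0 + 3) := Nat.mul_lt_mul'' (by omega) (by omega)
      omega
    have hTn := hn0 n hnn0
    have hLn := LL_near (by omega) hNn
    have hLn2 := LL_mono hn1.2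
    have h6 : f n ≤ (1 + η / 2) * Λ := by
      by_contra h
      exact h5 (mem_filter.2 ⟨mem_Icc.2 ⟨hn3, hn1.2⟩, not_le.1 h⟩)
    have h7 := hE1l n hn.1 h4
    have h8 := hf1 n
    rw [← hΛ] at hLn hLn2
    have h9 : |f n - LL n| ≤ η * LL n := by
      rw [abs_le]
      constructor
      · -- lower bound
        have e1 : 2 * C' / η ≤ LL n := by
          refine le_trans ?_ hTn
          rw [hT]
          linarith
        rw [div_le_iff₀ hη] at e1
        have e2 : (1 - ε) * LL n ≤ (1 - ε) * Λ := mul_le_mul_of_nonneg_left hLn2 (by linarith)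
        have e3 : ε * LL n ≤ η / 48 * LL n := mul_le_mul_of_nonneg_right hεη (LL_nonneg n)
        rw [hℓ] at h7
        have e4 : 0 ≤ η * LL n := mul_nonneg hη.le (LL_nonneg n)
        linarith
      · have e1 : 32 / η ≤ LL n := by
          refine le_trans ?_ hTn
          rw [hT]
          linarith
        rw [div_le_iff₀ hη] at e1
        have e2 : (1 + η / 2) * Λ ≤ (1 + η / 2) * (LL n + 8) :=
          mul_le_mul_of_nonneg_left hLn (by positivity)
        linarith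
    linarith [hn.2]
  have hcard := card_le_card hincl
  have hc1 := card_union_le ((Icc 1 2 ∪ (Icc 1 (Nat.sqrt N))) ∪ E1) E2
  have hc2 := card_union_le (Icc 1 2 ∪ (Icc 1 (Nat.sqrt N))) E1
  have hc3 := card_union_le (Icc 1 2) (Icc 1 (Nat.sqrt N))
  have hc4 : (Icc 1 2 : Finset ℕ).card = 2 := by simp
  have hc5 : (Icc 1 (Nat.sqrt N)).card = Nat.sqrt N := by simp
  have hc6 : ((Icc 1 N).filter (fun n => η * LL n < |f n - LL n|)).card ≤
      2 + Nat.sqrt N + E1.card + E2.card := by omega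
  have hc7 : (((Icc 1 N).filter (fun n => η * LL n < |f n - LL n|)).card : ℝ) ≤
      2 + (Nat.sqrt N : ℝ) + E1.card + E2.card := by exact_mod_cast hc6
  have hc8 : (Nat.sqrt N : ℝ) ≤ Real.sqrt N := Real.nat_sqrt_le_real_sqrt
  have hc9 : ε * N ≤ θ / 48 * N := mul_le_mul_of_nonneg_right hεθ hNR.le
  have hc10 : 0 < θ * N := by positivity
  linarith

theorem tendsto_of_aux (f : ℕ → ℝ) (hf1 : ∀ n, S2 n ≤ f n)
    (hf2 : ∀ ε : ℝ, 0 < ε → ε < 1 → ∃ C : ℝ, 0 < C ∧ ∀ N : ℕ, 1 ≤ N →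
      ∑ n ∈ Icc 3 N, f n ≤ (1 + ε) * (N * LL N) + C * N) (η : ℝ) (hη : 0 < η) :
    Tendsto (fun N : ℕ => (((Icc 1 N).filter (fun n => η * LL n < |f n - LL n|)).card : ℝ) / N)
      atTop (𝓝 0) := by
  rw [Metric.tendsto_atTop]
  intro θ hθ
  obtain ⟨N0, hN0⟩ := normal_aux f hf1 hf2 (min η 1) (lt_min hη one_pos) (min_le_right _ _)
    (min (θ / 2) 1) (lt_min (half_pos hθ) one_pos) (min_le_right _ _)
  refine ⟨N0 + 1, fun N hN => ?_⟩
  have hNR : (0 : ℝ) < N := by
    have : 0 < N := by omega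
    exact_mod_cast this
  rw [Real.dist_eq, sub_zero, abs_of_nonneg (by positivity), div_lt_iff₀ hNR]
  have h1 := hN0 N (by omega)
  have h2 : ((Icc 1 N).filter (fun n => η * LL n < |f n - LL n|)).card ≤
      ((Icc 1 N).filter (fun n => (min η 1) * LL n < |f n - LL n|)).card := by
    apply card_le_card
    intro n hn
    rw [mem_filter] at hn ⊢
    refine ⟨hn.1, lt_of_le_of_lt ?_ hn.2⟩
    exact mul_le_mul_of_nonneg_right (min_le_left _ _) (LL_nonneg n)
  have h3 : (((Icc 1 N).filter (fun n => η * LL n < |f n - LL n|)).card : ℝ) ≤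
      ((Icc 1 N).filter (fun n => (min η 1) * LL n < |f n - LL n|)).card := by exact_mod_cast h2
  have h4 : min (θ / 2) 1 * N ≤ θ / 2 * N := mul_le_mul_of_nonneg_right (min_le_left _ _) hNR.le
  have h5 : 0 < θ / 2 * N := by positivity
  linarith

theorem normal_S2 (η : ℝ) (hη : 0 < η) :
    Tendsto (fun N : ℕ => (((Icc 1 N).filter (fun n => η * LL n < |S2 n - LL n|)).card : ℝ) / N)
      atTop (𝓝 0) :=
  tendsto_of_aux S2 (fun _ => le_rfl) sum_S2_le η hη

theorem normal_S (η : ℝ) (hη : 0 < η) :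
    Tendsto (fun N : ℕ => (((Icc 1 N).filter (fun n => η * LL n < |S n - LL n|)).card : ℝ) / N)
      atTop (𝓝 0) := by
  refine tendsto_of_aux S S2_le_S ?_ η hη
  intro ε hε hε1
  obtain ⟨C, hC, h⟩ := sum_S2_le ε hε hε1
  obtain ⟨C', h'⟩ := sum_S1_le
  refine ⟨C + |C'|, by positivity, fun N hN => ?_⟩
  have h1 : ∑ n ∈ Icc 3 N, S n = ∑ n ∈ Icc 3 N, S2 n + ∑ n ∈ Icc 3 N, S1 n := by
    rw [← sum_add_distrib]
    refine sum_congr rfl fun n _ => ?_
    unfold S2
    ring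
  have h2 : ∑ n ∈ Icc 3 N, S1 n ≤ ∑ n ∈ Icc 2 N, S1 n :=
    sum_le_sum_of_subset_of_nonneg (Icc_subset_Icc (by norm_num) le_rfl) fun n _ _ => S1_nonneg n
  have h3 := h' N
  have h4 := h N hN
  have h5 : C' * N ≤ |C'| * N := mul_le_mul_of_nonneg_right (le_abs_self _) (Nat.cast_nonneg N)
  rw [h1, add_mul]
  linarith

end Pool.Agent.Helper32.CS
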