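import Mathlib
import Pool.Agent.Helper32.CS.Normal
import Pool.Agent.Helper32.CS.ExceptE
import Pool.Agent.Helper32.CS.Asym

set_option autoImplicit false

/-! The final statements, with the constant `exp (-γ)`. -/

namespace Pool.Agent.Helper32.CS

open Finset Filter Topology Pool.Agent.Helper4.CoprimeShift

theorem eg_le_one : eg ≤ 1 := by
  unfold eg
  rw [Real.exp_le_one_iff, neg_nonpos]
  exact le_trans (by norm_num) Real.one_half_lt_eulerMascheroniConstant.le

/-- from `LL` to `exp (-γ) log log` -/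
theorem normal_transfer (f : ℕ → ℝ)
    (hf : ∀ η : ℝ, 0 < η →
      Tendsto (fun N : ℕ => (((Icc 1 N).filter (fun n => η * LL n < |f n - LL n|)).card : ℝ) / N)
        atTop (𝓝 0)) (ε : ℝ) (hε : 0 < ε) :
    Tendsto (fun N : ℕ =>
      (((Icc 1 N).filter (fun n => ε * ll n < |f n - eg * ll n|)).card : ℝ) / N)
      atTop (𝓝 0) := by
  classical
  set η := min (ε / 3) 1 with hη
  have hη0 : 0 < η := lt_min (by positivity) one_pos
  have hη1 : η ≤ 1 := min_le_right _ _
  have hη3 : 3 * η ≤ ε := by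
    have := min_le_left (ε / 3) 1
    rw [← hη] at this
    linarith
  obtain ⟨n0, hn16, hn0⟩ := LL_asym η hη0
  have h1 := (hf η hη0).add (tendsto_const_div_atTop_nhds_zero_nat (n0 : ℝ))
  rw [add_zero] at h1
  refine squeeze_zero (fun N => by positivity) (fun N => ?_) h1
  rw [← add_div]
  apply div_le_div_of_nonneg_right _ (Nat.cast_nonneg N)
  have hsub : (Icc 1 N).filter (fun n => ε * ll n < |f n - eg * ll n|) ⊆
      (Icc 1 N).filter (fun n => η * LL n < |f n - LL n|) ∪ Icc 1 n0 := by
    intro n hn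
    rw [mem_filter] at hn
    rw [mem_union, mem_filter]
    by_contra hcon
    push Not at hcon
    obtain ⟨hc1, hc2⟩ := hcon
    have hnn : n0 ≤ n := by
      by_contra hlt
      apply hc2
      rw [mem_Icc]
      exact ⟨(mem_Icc.1 hn.1).1, by omega⟩
    have a1 := hc1 hn.1
    have a2 := hn0 n hnn
    have a3 : 0 ≤ ll n := by
      have h3 : 1 ≤ Real.log n := by
        rw [Real.le_log_iff_exp_le (by exact_mod_cast (by omega : 0 < n))]
        have h4 := Real.exp_one_lt_d9
        have h5 : (16 : ℝ) ≤ n := by exact_mod_cast (hn16.trans hnn)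
        linarith
      exact Real.log_nonneg h3
    have a4 : LL n ≤ 2 * ll n := by
      have b1 := (abs_le.1 a2).2
      have b2 : eg * ll n ≤ 1 * ll n := mul_le_mul_of_nonneg_right eg_le_one a3
      have b3 : η * ll n ≤ 1 * ll n := mul_le_mul_of_nonneg_right hη1 a3
      linarith
    have a5 : |f n - eg * ll n| ≤ |f n - LL n| + |LL n - eg * ll n| := by
      have := abs_add_le (f n - LL n) (LL n - eg * ll n)
      rwa [sub_add_sub_cancel] at this
    have a6 : η * LL n ≤ η * (2 * ll n) := mul_le_mul_of_nonneg_left a4 hη0.le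
    have a7 : 3 * η * ll n ≤ ε * ll n := mul_le_mul_of_nonneg_right hη3 a3
    have a8 := hn.2
    linarith
  calc (((Icc 1 N).filter (fun n => ε * ll n < |f n - eg * ll n|)).card : ℝ)
      ≤ (((Icc 1 N).filter (fun n => η * LL n < |f n - LL n|) ∪ Icc 1 n0).card : ℝ) := by
        exact_mod_cast card_le_card hsub
    _ ≤ (((Icc 1 N).filter (fun n => η * LL n < |f n - LL n|)).card : ℝ) +
          ((Icc 1 n0).card : ℝ) := by exact_mod_cast card_union_le _ _
    _ = _ := by rw [Nat.card_Icc]; simp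

theorem normal_S_final (ε : ℝ) (hε : 0 < ε) :
    Tendsto (fun N : ℕ =>
      (((Icc 1 N).filter (fun n => ε * ll n < |S n - eg * ll n|)).card : ℝ) / N)
      atTop (𝓝 0) := normal_transfer S normal_S ε hε

theorem normal_S2_final (ε : ℝ) (hε : 0 < ε) :
    Tendsto (fun N : ℕ =>
      (((Icc 1 N).filter (fun n => ε * ll n < |S2 n - eg * ll n|)).card : ℝ) / N)
      atTop (𝓝 0) := normal_transfer S2 normal_S2 ε hε

theorem except_final (η : ℝ) (hη : 0 < η) (hη1 : η < 1) : ∃ C : ℝ, 0 < C ∧ ∀ N y : ℕ, 2 ≤ y →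
    y ≤ N → (((Icc 1 N).filter (fun n =>
      S2 n < (1 - η) * eg * Real.log (Real.log N / Real.log y) - C)).card : ℝ) ≤
      C * N / Real.sqrt y := by
  classical
  obtain ⟨C1, hC1, h1⟩ := except_eps (η / 2) (by positivity) (by linarith)
  obtain ⟨C2, hC2, h2⟩ := LL_diff_unif (η / 2) (by positivity) (by linarith)
  refine ⟨C1 + C2, by positivity, fun N y hy hyN => ?_⟩
  have h3 := h1 N y hy hyN
  have h4 := h2 N y hy hyN
  have hlogy := log_pos_nat hy
  have hlog : 0 ≤ Real.log (Real.log N / Real.log y) := by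
    apply Real.log_nonneg
    rw [le_div_iff₀ hlogy, one_mul]
    refine Real.log_le_log ?_ (by exact_mod_cast hyN)
    exact_mod_cast (by omega : 0 < y)
  have e1 := eg_pos
  have h5 : ((1 - η) * eg) * Real.log (Real.log N / Real.log y) ≤
      (1 - η / 2) * ((1 - η / 2) * (eg * Real.log (Real.log N / Real.log y))) := by
    have h6 : 0 ≤ eg * Real.log (Real.log N / Real.log y) := mul_nonneg e1.le hlog
    nlinarith [mul_nonneg (sq_nonneg η) h6]
  have h7 : (1 - η) * eg * Real.log (Real.log N / Real.log y) - (C1 + C2) ≤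
      (1 - η / 2) * (LL N - LL y) - C1 := by
    have h8 := mul_le_mul_of_nonneg_left h4 (by linarith : 0 ≤ 1 - η / 2)
    nlinarith
  have hsub : (Icc 1 N).filter (fun n =>
      S2 n < (1 - η) * eg * Real.log (Real.log N / Real.log y) - (C1 + C2)) ⊆
      (Icc 1 N).filter (fun n => S2 n < (1 - η / 2) * (LL N - LL y) - C1) := by
    intro n hn
    rw [mem_filter] at hn ⊢
    exact ⟨hn.1, hn.2.trans_le h7⟩
  calc (((Icc 1 N).filter (fun n =>
      S2 n < (1 - η) * eg * Real.log (Real.log N / Real.log y) - (C1 + C2))).card : ℝ)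
      ≤ (((Icc 1 N).filter (fun n => S2 n < (1 - η / 2) * (LL N - LL y) - C1)).card : ℝ) := by
        exact_mod_cast card_le_card hsub
    _ ≤ C1 * N / Real.sqrt y := h3
    _ ≤ (C1 + C2) * N / Real.sqrt y := by
        apply div_le_div_of_nonneg_right _ (Real.sqrt_nonneg _)
        exact mul_le_mul_of_nonneg_right (by linarith) (Nat.cast_nonneg N)

end Pool.Agent.Helper32.CS
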